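import Mathlib

open MeasureTheory
open scoped ENNReal

/-! Definitions: order bounded sets, regular, stably regular and `r`-absolutely summing operators
between the spaces `L^p[0,1]` and `L^q[0,1]`. -/

namespace Pool.Agent.Helper630.StableDefs

/-- Lebesgue measure on `[0,1]`. -/
noncomputable def lebI : Measure ℝ := volume.restrict (Set.Icc 0 1)

/-- The real space `L^p[0,1]` (Mathlib's `Lp`). -/
def LI (p : ℝ≥0∞) : Type := Lp ℝ p lebI

/-- The usual norm and group structure of `L^p[0,1]`. -/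
noncomputable instance instNorm (p : ℝ≥0∞) [Fact (1 ≤ p)] : NormedAddCommGroup (LI p) :=
  (Lp.instNormedAddCommGroup : NormedAddCommGroup (Lp ℝ p lebI))

/-- The usual normed space structure of `L^p[0,1]`. -/
noncomputable instance instSpace (p : ℝ≥0∞) [Fact (1 ≤ p)] : NormedSpace ℝ (LI p) :=
  (Lp.instNormedSpace : NormedSpace ℝ (Lp ℝ p lebI))

/-- The function (chosen representative) of an element of `L^p[0,1]`. -/
noncomputable def fn {p : ℝ≥0∞} : LI p → ℝ → ℝ := fun f : Lp ℝ p lebI => ⇑f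

/-- Bounded linear operators `L^p[0,1] → L^q[0,1]`. -/
abbrev Op (p q : ℝ≥0∞) [Fact (1 ≤ p)] [Fact (1 ≤ q)] : Type := LI p →L[ℝ] LI q

/-- The pairing `⟨x, f⟩ = ∫ x f` over `[0,1]` of functions in `L^p` and `L^{p'}`. -/
noncomputable def pairing {p p' : ℝ≥0∞} (x : LI p) (f : LI p') : ℝ :=
  ∫ t, fn x t * fn f t ∂lebI

variable {p q : ℝ≥0∞} [Fact (1 ≤ p)] [Fact (1 ≤ q)]

/-- A subset of `L^q[0,1]` is order bounded if it lies in an order interval
`{h : -g ≤ h ≤ g}` for some `0 ≤ g` in `L^q[0,1]` (inequalities almost everywhere). -/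
def OrderBounded (S : Set (LI q)) : Prop :=
  ∃ g : LI q, (∀ᵐ t ∂lebI, 0 ≤ fn g t) ∧ ∀ h ∈ S, ∀ᵐ t ∂lebI, -fn g t ≤ fn h t ∧ fn h t ≤ fn g t

/-- A bounded operator `T : L^p[0,1] → L^q[0,1]` is regular if it sends order bounded sets to
order bounded sets. -/
def Regular (T : Op p q) : Prop := ∀ S : Set (LI p), OrderBounded S → OrderBounded (T '' S)

/-- `U : L^p[0,1] → L^q[0,1]` is (two-sided) stably regular if `W U V` is regular for all bounded
operators `V` on `L^p[0,1]` and `W` on `L^q[0,1]`. -/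
def StablyRegular (U : Op p q) : Prop :=
  ∀ (V : Op p p) (W : Op q q), Regular (W.comp (U.comp V))

/-- `U : L^p[0,1] → L^q[0,1]` is `r`-absolutely summing. Here `p'` is the conjugate exponent of
`p`, so that the supremum is over the unit ball of `L^{p'}[0,1]`, the dual of `L^p[0,1]`. -/
def AbsSumming (r : ℝ) (p' : ℝ≥0∞) [Fact (1 ≤ p')] (U : Op p q) : Prop :=
  ∃ C : ℝ, ∀ (n : ℕ) (x : Fin n → LI p),
    (∑ k, ‖U (x k)‖ ^ r) ^ (1 / r) ≤
      C * ⨆ f : {f : LI p' // ‖f‖ ≤ 1}, (∑ k, |pairing (x k) f.1| ^ r) ^ (1 / r)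

end Pool.Agent.Helper630.StableDefs
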