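import Mathlib

open MeasureTheory ProbabilityTheory Finset

namespace Pool.Agent.Helper630.Stable

/-- truncation at level one -/
noncomputable def trunc (x : ℝ) : ℝ := if |x| ≤ 1 then x else 0

lemma trunc_sq_le (x : ℝ) : trunc x ^ 2 ≤ min |x| (|x| ^ 2) := by
  unfold trunc
  split_ifs with h
  · rw [← sq_abs x]
    refine le_min ?_ le_rfl
    nlinarith [abs_nonneg x]
  · simp; positivity

lemma abs_sub_trunc_le (x : ℝ) : |x - trunc x| ≤ min |x| (|x| ^ 2) := by
  unfold trunc
  split_ifs with h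
  · simp; positivity
  · push Not at h
    rw [sub_zero]
    refine le_min le_rfl ?_
    nlinarith [abs_nonneg x]

lemma abs_trunc_le (x : ℝ) : |trunc x| ≤ 1 := by
  unfold trunc
  split_ifs with h
  · exact h
  · simp

lemma trunc_neg (x : ℝ) : trunc (-x) = - trunc x := by
  unfold trunc
  rw [abs_neg]
  split_ifs <;> simp

lemma measurable_trunc : Measurable trunc := by
  unfold trunc
  exact Measurable.ite (measurableSet_le measurable_id.abs measurable_const) measurable_id
    measurable_const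

/-- The law of one entry of the random matrix. -/
structure GoodLaw (q C₀ K : ℝ) (ρ : Measure ℝ) : Prop where
  bdd : ∀ᵐ x ∂ρ, |x| ≤ K
  odd : ∀ f : ℝ → ℝ, (∀ x, f (-x) = - f x) → ∫ x, f x ∂ρ = 0
  min_le : ∀ y : ℝ, ∫ x, min |y * x| (|y * x| ^ 2) ∂ρ ≤ C₀ * |y| ^ q

variable {I : Type*} [Fintype I] {q C₀ K : ℝ} {ρ : Measure ℝ} [IsProbabilityMeasure ρ]

lemma GoodLaw.integrable_comp (h : GoodLaw q C₀ K ρ) {f : ℝ → ℝ} (hf : Measurable f) {B : ℝ}
    (hB : ∀ x, |x| ≤ K → |f x| ≤ B) : Integrable f ρ := by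
  refine (integrable_const B).mono' hf.aestronglyMeasurable ?_
  filter_upwards [h.bdd] with x hx
  exact hB x hx

lemma GoodLaw.ae_pi (h : GoodLaw q C₀ K ρ) :
    ∀ᵐ ω ∂(Measure.pi fun _ : I => ρ), ∀ i, |ω i| ≤ K := by
  rw [ae_all_iff]
  intro i
  exact (measurePreserving_eval (fun _ : I => ρ) i).quasiMeasurePreserving.ae h.bdd

lemma integral_abs_le_sqrt {Ω : Type*} [MeasurableSpace Ω] {P : Measure Ω} [IsProbabilityMeasure P]
    {X : Ω → ℝ} (hX : MemLp X 2 P) : ∫ ω, |X ω| ∂P ≤ √(∫ ω, X ω ^ 2 ∂P) := by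
  have h1 := variance_nonneg (fun ω => |X ω|) P
  have hX' : MemLp (fun ω => |X ω|) 2 P := hX.abs
  rw [variance_eq_sub hX'] at h1
  have h2 : ∫ ω, ((fun ω => |X ω|) ^ 2) ω ∂P = ∫ ω, X ω ^ 2 ∂P := by
    congr with ω
    simp
  rw [h2] at h1
  exact Real.le_sqrt_of_sq_le (by linarith)

lemma integral_abs_sum_le (h : GoodLaw q C₀ K ρ) (hC : 0 ≤ C₀) (c : I → ℝ)
    (hc : ∑ i, |c i| ^ q ≤ 1) :
    ∫ ω, |∑ i, c i * ω i| ∂(Measure.pi fun _ : I => ρ) ≤ C₀ + √C₀ := by
  set P : Measure (I → ℝ) := Measure.pi fun _ : I => ρ with hP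
  have hmin : ∀ i, Integrable (fun x => min |c i * x| (|c i * x| ^ 2)) ρ := by
    intro i
    refine h.integrable_comp (B := |c i| * K) (by fun_prop) ?_
    intro x hx
    rw [abs_of_nonneg (by positivity)]
    refine (min_le_left _ _).trans ?_
    rw [abs_mul]
    gcongr
  have hsummin : ∑ i, ∫ x, min |c i * x| (|c i * x| ^ 2) ∂ρ ≤ C₀ := by
    calc ∑ i, ∫ x, min |c i * x| (|c i * x| ^ 2) ∂ρ ≤ ∑ i, C₀ * |c i| ^ q := by
          gcongr with i _
          exact h.min_le (c i)
      _ = C₀ * ∑ i, |c i| ^ q := by rw [Finset.mul_sum]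
      _ ≤ C₀ * 1 := by gcongr
      _ = C₀ := mul_one _
  -- the truncated part
  let T : I → ℝ → ℝ := fun i x => trunc (c i * x)
  have hTm : ∀ i, Measurable (T i) := fun i => measurable_trunc.comp (by fun_prop)
  have hT2 : ∀ i, MemLp (T i) 2 ρ := by
    intro i
    refine MemLp.of_bound (hTm i).aestronglyMeasurable 1 ?_
    exact Filter.Eventually.of_forall fun x => abs_trunc_le _
  have hTP : ∀ i, MemLp (fun ω : I → ℝ => T i (ω i)) 2 P := by
    intro i
    exact (hT2 i).comp_measurePreserving (measurePreserving_eval (fun _ : I => ρ) i)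
  let S : (I → ℝ) → ℝ := fun ω => ∑ i, T i (ω i)
  have hS2 : MemLp S 2 P := memLp_finsetSum _ fun i _ => hTP i
  have hSmean : ∫ ω, S ω ∂P = 0 := by
    have : ∫ ω, S ω ∂P = ∑ i, ∫ x, T i x ∂ρ := by
      rw [integral_finsetSum]
      · refine Finset.sum_congr rfl fun i _ => ?_
        exact integral_comp_eval (μ := fun _ : I => ρ) (hTm i).aestronglyMeasurable
      · intro i _
        exact (hTP i).integrable (by norm_num)
    rw [this]
    refine Finset.sum_eq_zero fun i _ => ?_
    apply h.odd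
    intro x
    simp only [T]
    rw [mul_neg, trunc_neg]
  have hSvar : ∫ ω, S ω ^ 2 ∂P ≤ C₀ := by
    rw [← variance_of_integral_eq_zero hS2.aemeasurable hSmean]
    have h1 : S = ∑ i, fun ω : I → ℝ => T i (ω i) := by
      funext ω
      simp [S]
    rw [h1, variance_sum_pi (μ := fun _ : I => ρ) (X := T) hT2]
    refine le_trans ?_ hsummin
    refine Finset.sum_le_sum fun i _ => ?_
    refine (variance_le_expectation_sq (hTm i).aestronglyMeasurable).trans ?_
    refine integral_mono_of_nonneg (Filter.Eventually.of_forall fun x => sq_nonneg _) (hmin i) ?_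
    exact Filter.Eventually.of_forall fun x => trunc_sq_le _
  have hpt : ∀ ω : I → ℝ, |∑ i, c i * ω i| ≤
      |S ω| + ∑ i, min |c i * ω i| (|c i * ω i| ^ 2) := by
    intro ω
    have h1 : ∑ i, c i * ω i = S ω + ∑ i, (c i * ω i - T i (ω i)) := by
      simp [S, Finset.sum_sub_distrib]
    rw [h1]
    refine (abs_add_le _ _).trans ?_
    gcongr
    refine (Finset.abs_sum_le_sum_abs _ _).trans ?_
    gcongr with i _
    exact abs_sub_trunc_le _
  have hminP : ∀ i, Integrable (fun ω : I → ℝ => min |c i * ω i| (|c i * ω i| ^ 2)) P := by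
    intro i
    exact integrable_comp_eval (μ := fun _ : I => ρ) (hmin i)
  calc ∫ ω, |∑ i, c i * ω i| ∂P
      ≤ ∫ ω, (|S ω| + ∑ i, min |c i * ω i| (|c i * ω i| ^ 2)) ∂P := by
        refine integral_mono_of_nonneg (Filter.Eventually.of_forall fun ω => abs_nonneg _) ?_
          (Filter.Eventually.of_forall hpt)
        exact (hS2.integrable (by norm_num)).abs.add (integrable_finsetSum _ fun i _ => hminP i)
    _ = ∫ ω, |S ω| ∂P + ∑ i, ∫ x, min |c i * x| (|c i * x| ^ 2) ∂ρ := by
        rw [integral_add (hS2.integrable (by norm_num)).abs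
          (integrable_finsetSum _ fun i _ => hminP i), integral_finsetSum _ fun i _ => hminP i]
        congr 1
        refine Finset.sum_congr rfl fun i _ => ?_
        exact integral_comp_eval (μ := fun _ : I => ρ) (hmin i).aestronglyMeasurable
    _ ≤ √C₀ + C₀ := by
        gcongr
        refine (integral_abs_le_sqrt hS2).trans ?_
        exact Real.sqrt_le_sqrt hSvar
    _ = C₀ + √C₀ := add_comm _ _

end Pool.Agent.Helper630.Stable
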