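import Mathlib
import Pool.Agent.Helper630.Stable.S1

open MeasureTheory ProbabilityTheory Finset

namespace Pool.Agent.Helper630.Stable

variable {I : Type*} [Fintype I] [DecidableEq I] {q C₀ K : ℝ} {ρ : Measure ℝ}
  [IsProbabilityMeasure ρ]

lemma integral_prod_blocks {B : Type*} [DecidableEq B] (s : Finset B) (D : B → Finset I)
    (hD : ∀ b ∈ s, ∀ b' ∈ s, b ≠ b' → Disjoint (D b) (D b'))
    (G : ∀ b, ((D b) → ℝ) → ℝ) (hG : ∀ b, Measurable (G b)) :
    ∫ ω, ∏ b ∈ s, G b (fun i => ω i) ∂(Measure.pi fun _ : I => ρ) =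
      ∏ b ∈ s, ∫ ω, G b (fun i => ω i) ∂(Measure.pi fun _ : I => ρ) := by
  induction s using Finset.induction_on with
  | empty => simp
  | insert b₀ s hb₀ ih =>
    simp only [Finset.prod_insert hb₀]
    have hD' : ∀ b ∈ s, ∀ b' ∈ s, b ≠ b' → Disjoint (D b) (D b') := by
      intro b hb b' hb' hne
      exact hD b (Finset.mem_insert_of_mem hb) b' (Finset.mem_insert_of_mem hb') hne
    rw [← ih hD']
    obtain ⟨U, hU⟩ : ∃ U : Finset I, U = s.biUnion D := ⟨_, rfl⟩
    have hdis : Disjoint (D b₀) U := by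
      rw [hU, Finset.disjoint_biUnion_right]
      intro b hb
      refine hD b₀ (Finset.mem_insert_self _ _) b (Finset.mem_insert_of_mem hb) ?_
      rintro rfl
      exact hb₀ hb
    have hind : iIndepFun (fun (i : I) (ω : I → ℝ) => ω i) (Measure.pi fun _ : I => ρ) :=
      iIndepFun_pi (X := fun _ x => x) (fun _ => aemeasurable_id)
    have h1 := hind.indepFun_finset (D b₀) U hdis (fun i => measurable_pi_apply i)
    let ext : (U → ℝ) → I → ℝ := fun y i =>
      if h : i ∈ U then y ⟨i, h⟩ else 0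
    have hext : Measurable ext := by
      refine measurable_pi_lambda _ fun i => ?_
      simp only [ext]
      split_ifs
      · exact measurable_pi_apply _
      · exact measurable_const
    let H : (U → ℝ) → ℝ := fun y => ∏ b ∈ s, G b (fun i => ext y i)
    have hH : Measurable H := by
      refine Finset.measurable_prod _ fun b _ => ?_
      refine (hG b).comp ?_
      refine measurable_pi_lambda _ fun i => ?_
      exact (measurable_pi_apply (i : I)).comp hext
    have h2 := h1.comp (hG b₀) hH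
    have h3 : (H ∘ fun (ω : I → ℝ) (i : U) => ω i) =
        fun ω => ∏ b ∈ s, G b (fun i => ω i) := by
      funext ω
      simp only [Function.comp, H]
      refine Finset.prod_congr rfl fun b hb => ?_
      congr 1
      funext i
      simp only [ext]
      rw [dif_pos (by rw [hU]; exact Finset.mem_biUnion.mpr ⟨b, hb, i.2⟩)]
    rw [h3] at h2
    have h4 := h2.integral_fun_mul_eq_mul_integral ?_ ?_
    · exact h4
    · exact ((hG b₀).comp (measurable_pi_lambda _ fun i => measurable_pi_apply _)).aestronglyMeasurable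
    · rw [← h3]
      exact (hH.comp (measurable_pi_lambda _ fun i => measurable_pi_apply _)).aestronglyMeasurable

lemma chernoff_blocks (h : GoodLaw q C₀ K ρ) (hC : 0 < C₀) (hq : 0 < q) {B : Type*}
    [DecidableEq B] (s : Finset B)
    (D : B → Finset I) (hD : ∀ b ∈ s, ∀ b' ∈ s, b ≠ b' → Disjoint (D b) (D b'))
    (c : B → I → ℝ) (hmean : ∀ b ∈ s, ∑ i ∈ D b, |c b i| ^ q ≤ 1) {K' : ℝ} (hK' : 0 < K')
    (hbd : ∀ b ∈ s, ∀ ω : I → ℝ, (∀ i, |ω i| ≤ K) → |∑ i ∈ D b, c b i * ω i| ≤ K') :
    (Measure.pi fun _ : I => ρ).real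
      {ω | 3 * (C₀ + √C₀) * s.card ≤ ∑ b ∈ s, |∑ i ∈ D b, c b i * ω i|} ≤
      Real.exp (-((C₀ + √C₀) * s.card / K')) := by
  set P : Measure (I → ℝ) := Measure.pi fun _ : I => ρ with hP
  set C₁ : ℝ := C₀ + √C₀ with hC₁
  have hC₁0 : 0 < C₁ := by positivity
  let Y : B → (I → ℝ) → ℝ := fun b ω => |∑ i ∈ D b, c b i * ω i|
  let Z : B → (I → ℝ) → ℝ := fun b ω => min (Y b ω) K'
  have hYm : ∀ b, Measurable (Y b) := by
    intro b
    simp only [Y]
    fun_prop
  have hZm : ∀ b, Measurable (Z b) := fun b => (hYm b).min measurable_const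
  have hZ0 : ∀ b ω, 0 ≤ Z b ω := fun b ω => le_min (abs_nonneg _) hK'.le
  have hZK : ∀ b ω, Z b ω ≤ K' := fun b ω => min_le_right _ _
  have hYint : ∀ b ∈ s, ∫ ω, Z b ω ∂P ≤ C₁ := by
    intro b hb
    have h1 := integral_abs_sum_le h hC.le (fun i => if i ∈ D b then c b i else 0) (by
      refine le_trans (le_of_eq ?_) (hmean b hb)
      rw [← Finset.sum_filter_add_sum_filter_not Finset.univ (fun i => i ∈ D b)]
      have e1 : ∑ x ∈ Finset.univ.filter (fun i => i ∉ D b),
          |if x ∈ D b then c b x else 0| ^ q = 0 := by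
        refine Finset.sum_eq_zero fun i hi => ?_
        rw [Finset.mem_filter] at hi
        rw [if_neg hi.2, abs_zero, Real.zero_rpow hq.ne']
      rw [e1, add_zero, Finset.filter_mem_eq_inter, Finset.univ_inter]
      refine Finset.sum_congr rfl fun i hi => ?_
      rw [if_pos hi])
    have e2 : ∀ ω : I → ℝ, |∑ i, (if i ∈ D b then c b i else 0) * ω i| = Y b ω := by
      intro ω
      simp only [Y]
      congr 1
      simp [ite_mul]
    simp only [e2] at h1
    refine le_trans ?_ h1
    have hae : Z b ≤ᵐ[P] Y b := Filter.Eventually.of_forall fun ω => min_le_left _ _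
    refine integral_mono_of_nonneg (Filter.Eventually.of_forall fun ω => hZ0 b ω) ?_ hae
    refine (integrable_const K').mono' (hYm b).aestronglyMeasurable ?_
    filter_upwards [h.ae_pi (I := I)] with ω hω
    rw [Real.norm_eq_abs]
    simp only [Y, abs_abs]
    exact hbd b hb ω hω
  have hexp : ∀ b ∈ s, ∫ ω, Real.exp (K'⁻¹ * Z b ω) ∂P ≤ Real.exp (2 * K'⁻¹ * C₁) := by
    intro b hb
    have hZi : Integrable (Z b) P := by
      refine (integrable_const K').mono' (hZm b).aestronglyMeasurable ?_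
      filter_upwards with ω
      rw [Real.norm_eq_abs, abs_of_nonneg (hZ0 b ω)]
      exact hZK b ω
    calc ∫ ω, Real.exp (K'⁻¹ * Z b ω) ∂P ≤ ∫ ω, (1 + 2 * (K'⁻¹ * Z b ω)) ∂P := by
          refine integral_mono_of_nonneg (Filter.Eventually.of_forall fun ω => (Real.exp_pos _).le)
            ?_ ?_
          · exact (integrable_const _).add ((hZi.const_mul _).const_mul _)
          · filter_upwards with ω
            have h1 : 0 ≤ K'⁻¹ * Z b ω := mul_nonneg (by positivity) (hZ0 b ω)
            have h2 : K'⁻¹ * Z b ω ≤ 1 := by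
              rw [inv_mul_le_iff₀ hK', mul_one]
              exact hZK b ω
            have h3 := Real.abs_exp_sub_one_le (x := K'⁻¹ * Z b ω) (by rwa [abs_of_nonneg h1])
            rw [abs_of_nonneg h1] at h3
            have h4 := le_abs_self (Real.exp (K'⁻¹ * Z b ω) - 1)
            change Real.exp (K'⁻¹ * Z b ω) ≤ 1 + 2 * (K'⁻¹ * Z b ω)
            linarith
      _ = 1 + 2 * K'⁻¹ * ∫ ω, Z b ω ∂P := by
          rw [integral_add (integrable_const _) ((hZi.const_mul _).const_mul _), integral_const_mul,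
            integral_const_mul, integral_const]
          simp
          ring
      _ ≤ 1 + 2 * K'⁻¹ * C₁ := by
          gcongr
          exact hYint b hb
      _ ≤ Real.exp (2 * K'⁻¹ * C₁) := by
          have := Real.add_one_le_exp (2 * K'⁻¹ * C₁)
          linarith
  let X : (I → ℝ) → ℝ := fun ω => ∑ b ∈ s, Z b ω
  have hXm : Measurable X := Finset.measurable_sum _ fun b _ => hZm b
  have hX0 : ∀ ω, 0 ≤ X ω := fun ω => Finset.sum_nonneg fun b _ => hZ0 b ω
  have hXK : ∀ ω, X ω ≤ s.card * K' := by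
    intro ω
    calc X ω ≤ ∑ b ∈ s, K' := Finset.sum_le_sum fun b _ => hZK b ω
      _ = s.card * K' := by rw [Finset.sum_const, nsmul_eq_mul]
  have hmgf : mgf X P K'⁻¹ ≤ Real.exp (2 * K'⁻¹ * C₁ * s.card) := by
    have e1 : mgf X P K'⁻¹ = ∏ b ∈ s, ∫ ω, Real.exp (K'⁻¹ * Z b ω) ∂P := by
      have e2 := integral_prod_blocks (ρ := ρ) s D hD
        (fun b y => Real.exp (K'⁻¹ * min |∑ i : D b, c b i * y i| K')) (fun b => by fun_prop)
      have e3 : ∀ b (ω : I → ℝ), Real.exp (K'⁻¹ * min |∑ i : D b, c b i * ω i| K') =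
          Real.exp (K'⁻¹ * Z b ω) := by
        intro b ω
        simp only [Z, Y]
        rw [← Finset.sum_coe_sort (D b) (fun i => c b i * ω i)]
      simp only [e3] at e2
      rw [← e2]
      unfold mgf
      congr with ω
      simp only [X]
      rw [Finset.mul_sum, Real.exp_sum]
    rw [e1]
    calc ∏ b ∈ s, ∫ ω, Real.exp (K'⁻¹ * Z b ω) ∂P ≤ ∏ b ∈ s, Real.exp (2 * K'⁻¹ * C₁) := by
          refine Finset.prod_le_prod (fun b _ => integral_nonneg fun ω => (Real.exp_pos _).le) hexp
      _ = Real.exp (2 * K'⁻¹ * C₁ * s.card) := by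
          rw [Finset.prod_const, ← Real.exp_nat_mul]
          congr 1
          ring
  have hmark := measure_ge_le_exp_mul_mgf (μ := P) (X := X) (t := K'⁻¹) (3 * C₁ * s.card)
    (by positivity) (by
      refine (integrable_const (Real.exp (K'⁻¹ * (s.card * K')))).mono'
        (by fun_prop) ?_
      filter_upwards with ω
      rw [Real.norm_eq_abs, abs_of_pos (Real.exp_pos _)]
      gcongr
      exact hXK ω)
  have hset : P.real {ω | 3 * C₁ * s.card ≤ ∑ b ∈ s, Y b ω} ≤ P.real {ω | 3 * C₁ * s.card ≤ X ω} := by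
    refine ENNReal.toReal_mono (measure_ne_top _ _) (measure_mono_ae ?_)
    filter_upwards [h.ae_pi (I := I)] with ω hω hmem
    change 3 * C₁ * s.card ≤ X ω
    have : X ω = ∑ b ∈ s, Y b ω := by
      refine Finset.sum_congr rfl fun b hb => ?_
      exact min_eq_left (hbd b hb ω hω)
    rw [this]
    exact hmem
  refine hset.trans (hmark.trans ?_)
  calc Real.exp (-K'⁻¹ * (3 * C₁ * s.card)) * mgf X P K'⁻¹
      ≤ Real.exp (-K'⁻¹ * (3 * C₁ * s.card)) * Real.exp (2 * K'⁻¹ * C₁ * s.card) := by gcongr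
    _ = Real.exp (-(C₁ * s.card / K')) := by
        rw [← Real.exp_add]
        congr 1
        ring

end Pool.Agent.Helper630.Stable
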