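import Mathlib
import Pool.Agent.Helper630.Stable.S2

open MeasureTheory ProbabilityTheory Finset

namespace Pool.Agent.Helper630.Stable

lemma card_filter_le_mul {α : Type*} [DecidableEq α] {N : ℕ} (A : Finset α) (w : α → ℝ)
    (hw : ∀ x ∈ A, 0 ≤ w x) (p : (Fin N → α) → Prop) [DecidablePred p] {T : ℝ} (hT0 : 0 ≤ T)
    (hT : ∀ z ∈ Fintype.piFinset (fun _ : Fin N => A), p z → 1 ≤ T * ∏ i, w (z i)) :
    (((Fintype.piFinset (fun _ : Fin N => A)).filter p).card : ℝ) ≤ T * (∑ x ∈ A, w x) ^ N := by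
  calc (((Fintype.piFinset (fun _ : Fin N => A)).filter p).card : ℝ)
      = ∑ z ∈ (Fintype.piFinset (fun _ : Fin N => A)).filter p, (1 : ℝ) := by simp
    _ ≤ ∑ z ∈ (Fintype.piFinset (fun _ : Fin N => A)).filter p, T * ∏ i, w (z i) := by
        refine Finset.sum_le_sum fun z hz => ?_
        rw [Finset.mem_filter] at hz
        exact hT z hz.1 hz.2
    _ ≤ ∑ z ∈ Fintype.piFinset (fun _ : Fin N => A), T * ∏ i, w (z i) := by
        refine Finset.sum_le_sum_of_subset_of_nonneg (Finset.filter_subset _ _) fun z hz _ => ?_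
        refine mul_nonneg hT0 (Finset.prod_nonneg fun i _ => hw _ ?_)
        exact Fintype.mem_piFinset.mp hz i
    _ = T * (∑ x ∈ A, w x) ^ N := by
        rw [← Finset.mul_sum]
        congr 1
        rw [← Finset.prod_univ_sum]
        simp

/-- Integer vectors with entries in `[-R, R]` and at most `C` non zero entries. -/
noncomputable def sparse (N C R : ℕ) : Finset (Fin N → ℤ) :=
  (Fintype.piFinset (fun _ : Fin N => Finset.Icc (-(R : ℤ)) R)).filter
    (fun z => (Finset.univ.filter (fun i => z i ≠ 0)).card ≤ C)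

lemma card_sparse_le {N C R : ℕ} (hN : 1 ≤ N) :
    ((sparse N C R).card : ℝ) ≤ (N : ℝ) ^ C * Real.exp (2 * R) := by
  have hN' : (1 : ℝ) ≤ N := by exact_mod_cast hN
  have hN0 : (0 : ℝ) < N := by linarith
  refine (card_filter_le_mul (Finset.Icc (-(R : ℤ)) R) (fun x => if x = 0 then 1 else (N : ℝ)⁻¹)
    ?_ _ (T := (N : ℝ) ^ C) (by positivity) ?_).trans ?_
  · intro x _
    split_ifs <;> positivity
  · intro z _ hz
    have e1 : ∏ i, (if z i = 0 then (1 : ℝ) else (N : ℝ)⁻¹) =
        ((N : ℝ)⁻¹) ^ (Finset.univ.filter (fun i => z i ≠ 0)).card := by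
      rw [Finset.prod_ite]
      simp
    rw [e1, inv_pow, ← div_eq_mul_inv, one_le_div (by positivity)]
    exact pow_le_pow_right₀ hN' hz
  · gcongr
    have e2 : ∑ x ∈ Finset.Icc (-(R : ℤ)) R, (if x = 0 then (1 : ℝ) else (N : ℝ)⁻¹) =
        1 + 2 * R / N := by
      rw [← Finset.add_sum_erase _ _ (a := (0 : ℤ)) (by simp)]
      rw [if_pos rfl]
      congr 1
      rw [Finset.sum_congr rfl (g := fun _ => (N : ℝ)⁻¹)]
      · rw [Finset.sum_const, Finset.card_erase_of_mem (by simp), Int.card_Icc, nsmul_eq_mul]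
        have : ((R : ℤ) + 1 - -(R : ℤ)).toNat - 1 = 2 * R := by omega
        rw [this]
        push_cast
        field_simp
      · intro x hx
        rw [if_neg (Finset.ne_of_mem_erase hx)]
    rw [e2]
    calc (1 + 2 * (R : ℝ) / N) ^ N ≤ (Real.exp (2 * R / N)) ^ N := by
          gcongr
          have := Real.add_one_le_exp (2 * (R : ℝ) / N)
          linarith
      _ = Real.exp (2 * R) := by
          rw [← Real.exp_nat_mul]
          congr 1
          field_simp

/-- Rounding towards zero to a multiple of `1 / R`. -/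
noncomputable def rnd (R : ℕ) (x : ℝ) : ℤ := if 0 ≤ x then ⌊R * x⌋ else -⌊R * (-x)⌋

lemma rnd_zero (R : ℕ) : rnd R 0 = 0 := by simp [rnd]

lemma abs_rnd_le {R : ℕ} (x : ℝ) : |(rnd R x : ℝ)| ≤ R * |x| := by
  unfold rnd
  split_ifs with h
  · rw [abs_of_nonneg h, abs_of_nonneg]
    · exact Int.floor_le _
    · exact_mod_cast Int.floor_nonneg.mpr (by positivity)
  · push Not at h
    push_cast
    rw [abs_neg, abs_of_neg h, abs_of_nonneg]
    · exact Int.floor_le _
    · exact_mod_cast Int.floor_nonneg.mpr (mul_nonneg (by positivity) (by linarith))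

lemma abs_sub_rnd_le {R : ℕ} (hR : 1 ≤ R) (x : ℝ) : |x - rnd R x / R| ≤ 1 / R := by
  have hR' : (0 : ℝ) < R := by exact_mod_cast hR
  have key : |R * x - rnd R x| ≤ 1 := by
    unfold rnd
    split_ifs with h
    · have h1 := Int.floor_le ((R : ℝ) * x)
      have h2 := Int.lt_floor_add_one ((R : ℝ) * x)
      rw [abs_le]
      constructor <;> linarith
    · have h1 := Int.floor_le ((R : ℝ) * (-x))
      have h2 := Int.lt_floor_add_one ((R : ℝ) * (-x))
      push_cast
      rw [abs_le]
      constructor <;> linarith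
  have e : x - rnd R x / R = (R * x - rnd R x) / R := by field_simp
  rw [e, abs_div, abs_of_pos hR']
  gcongr

variable {q C₀ K : ℝ} {ρ : Measure ℝ} [IsProbabilityMeasure ρ]

/-- The set of pairs of families of `M` disjoint sparse vectors used in the union bound. -/
noncomputable def famSet (N C R M : ℕ) (q : ℝ) :
    Finset ((Fin M → Fin N → ℤ) × (Fin M → Fin N → ℤ)) := by
  classical
  exact ((Fintype.piFinset (fun _ : Fin M => sparse N C R)) ×ˢ
    (Fintype.piFinset (fun _ : Fin M => sparse N C R))).filter (fun zy =>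
      (∀ r, ∑ i, |((zy.1 r i : ℤ) : ℝ) / R| ^ q ≤ 1) ∧
      (∀ r, ∑ i, |((zy.2 r i : ℤ) : ℝ) / R| ^ q ≤ 1) ∧
      (∀ r s, r ≠ s → ∀ i, zy.1 r i = 0 ∨ zy.1 s i = 0) ∧
      (∀ r s, r ≠ s → ∀ i, zy.2 r i = 0 ∨ zy.2 s i = 0))

lemma card_famSet_le {N C R M : ℕ} (hN : 1 ≤ N) :
    ((famSet N C R M q).card : ℝ) ≤ ((N : ℝ) ^ C * Real.exp (2 * R)) ^ (2 * M) := by
  classical
  unfold famSet
  refine (Nat.cast_le.mpr (Finset.card_filter_le _ _)).trans ?_
  rw [Finset.card_product, Fintype.card_piFinset]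
  simp only [Finset.prod_const, Finset.card_univ, Fintype.card_fin]
  push_cast
  have e : 2 * M = M + M := by ring
  rw [← pow_add, e]
  gcongr
  exact card_sparse_le hN

lemma abs_le_one_of_sum_rpow_le {N : ℕ} (hq : 0 < q) {a : Fin N → ℝ} (ha : ∑ i, |a i| ^ q ≤ 1)
    (i : Fin N) : |a i| ≤ 1 := by
  have h1 : |a i| ^ q ≤ 1 :=
    (Finset.single_le_sum (f := fun i => |a i| ^ q) (fun i _ => by positivity)
      (Finset.mem_univ i)).trans ha
  by_contra hcon
  push Not at hcon
  exact absurd (Real.one_lt_rpow hcon hq) (not_lt.mpr h1)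

lemma sum_abs_le_card {N C : ℕ} (hq : 0 < q) {a : Fin N → ℝ} (ha : ∑ i, |a i| ^ q ≤ 1)
    (hC : (Finset.univ.filter (fun i => a i ≠ 0)).card ≤ C) : ∑ i, |a i| ≤ C := by
  calc ∑ i, |a i| = ∑ i ∈ Finset.univ.filter (fun i => a i ≠ 0), |a i| := by
        rw [Finset.sum_filter]
        refine Finset.sum_congr rfl fun i _ => ?_
        by_cases h : a i = 0
        · simp [h]
        · simp [h]
    _ ≤ ∑ i ∈ Finset.univ.filter (fun i => a i ≠ 0), (1 : ℝ) :=
        Finset.sum_le_sum fun i _ => abs_le_one_of_sum_rpow_le hq ha i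
    _ = ((Finset.univ.filter (fun i => a i ≠ 0)).card : ℝ) := by simp
    _ ≤ C := by exact_mod_cast hC

lemma abs_bilin_le {N : ℕ} {v : Fin N → Fin N → ℝ} (hv : ∀ i l, |v i l| ≤ K)
    (a b : Fin N → ℝ) :
    |∑ i, ∑ l, v i l * a i * b l| ≤ K * (∑ i, |a i|) * ∑ l, |b l| := by
  calc |∑ i, ∑ l, v i l * a i * b l| ≤ ∑ i, ∑ l, |v i l * a i * b l| := by
        refine (Finset.abs_sum_le_sum_abs _ _).trans (Finset.sum_le_sum fun i _ => ?_)
        exact Finset.abs_sum_le_sum_abs _ _
    _ ≤ ∑ i, ∑ l, K * |a i| * |b l| := by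
        refine Finset.sum_le_sum fun i _ => Finset.sum_le_sum fun l _ => ?_
        rw [abs_mul, abs_mul]
        gcongr
        exact hv i l
    _ = K * (∑ i, |a i|) * ∑ l, |b l| := by
        rw [mul_assoc, Finset.sum_mul_sum, Finset.mul_sum]
        refine Finset.sum_congr rfl fun i _ => ?_
        rw [Finset.mul_sum]
        refine Finset.sum_congr rfl fun l _ => ?_
        ring

theorem PM_event {N C M R : ℕ} (h : GoodLaw q C₀ K ρ) (hC₀ : 0 < C₀) (hq : 0 < q) (hK : 0 < K)
    (hN : 1 ≤ N) (hC : 1 ≤ C) (hR1 : 1 ≤ R) (hR : 2 * K * C ^ 2 ≤ (C₀ + √C₀) * R) :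
    ∃ Bad : Set (Fin N × Fin N → ℝ), (Measure.pi fun _ : Fin N × Fin N => ρ).real Bad ≤
      ((N : ℝ) ^ C * Real.exp (2 * R)) ^ (2 * M) *
        Real.exp (-((C₀ + √C₀) * (M : ℝ) ^ 2 / (K * C ^ 2))) ∧
      ∀ ω, ω ∉ Bad → (∀ i, |ω i| ≤ K) → ∀ a b : Fin M → Fin N → ℝ,
          (∀ r, ∑ i, |a r i| ^ q ≤ 1) → (∀ r, ∑ i, |b r i| ^ q ≤ 1) →
          (∀ r, (Finset.univ.filter (fun i => a r i ≠ 0)).card ≤ C) →
          (∀ r, (Finset.univ.filter (fun i => b r i ≠ 0)).card ≤ C) →
          (∀ r s, r ≠ s → ∀ i, a r i = 0 ∨ a s i = 0) →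
          (∀ r s, r ≠ s → ∀ i, b r i = 0 ∨ b s i = 0) →
          ∑ r, ∑ s, |∑ i, ∑ l, ω (i, l) * a r i * b s l| ≤ 4 * (C₀ + √C₀) * (M : ℝ) ^ 2 := by
  classical
  set P : Measure (Fin N × Fin N → ℝ) := Measure.pi fun _ : Fin N × Fin N => ρ with hP
  set C₁ : ℝ := C₀ + √C₀ with hC₁
  have hC₁0 : 0 < C₁ := by positivity
  have hR' : (0 : ℝ) < R := by exact_mod_cast hR1
  have hC' : (0 : ℝ) < C := by exact_mod_cast hC
  let E : ((Fin M → Fin N → ℤ) × (Fin M → Fin N → ℤ)) → Set (Fin N × Fin N → ℝ) := fun zy =>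
    {ω | 3 * C₁ * (M : ℝ) ^ 2 ≤ ∑ r, ∑ s,
      |∑ i, ∑ l, ω (i, l) * ((zy.1 r i : ℝ) / R) * ((zy.2 s l : ℝ) / R)|}
  have hE : ∀ zy ∈ famSet N C R M q, P.real (E zy) ≤
      Real.exp (-(C₁ * (M : ℝ) ^ 2 / (K * C ^ 2))) := by
    rintro ⟨z, y⟩ hzy
    unfold famSet at hzy
    rw [Finset.mem_filter, Finset.mem_product] at hzy
    obtain ⟨⟨hz, hy⟩, hz1, hy1, hzd, hyd⟩ := hzy
    dsimp only at hz hy hz1 hy1 hzd hyd
    let D : Fin M × Fin M → Finset (Fin N × Fin N) := fun rs =>
      (Finset.univ.filter (fun i => z rs.1 i ≠ 0)) ×ˢ (Finset.univ.filter (fun l => y rs.2 l ≠ 0))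
    let c : Fin M × Fin M → Fin N × Fin N → ℝ := fun rs il =>
      ((z rs.1 il.1 : ℝ) / R) * ((y rs.2 il.2 : ℝ) / R)
    have hcz : ∀ r, (Finset.univ.filter (fun i => z r i ≠ 0)).card ≤ C := by
      intro r
      have := Fintype.mem_piFinset.mp hz r
      unfold sparse at this
      exact (Finset.mem_filter.mp this).2
    have hcy : ∀ r, (Finset.univ.filter (fun i => y r i ≠ 0)).card ≤ C := by
      intro r
      have := Fintype.mem_piFinset.mp hy r
      unfold sparse at this
      exact (Finset.mem_filter.mp this).2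
    have hsum : ∀ rs (ω : Fin N × Fin N → ℝ), ∑ il ∈ D rs, c rs il * ω il =
        ∑ i, ∑ l, ω (i, l) * ((z rs.1 i : ℝ) / R) * ((y rs.2 l : ℝ) / R) := by
      intro rs ω
      rw [← Fintype.sum_prod_type' (fun i l => ω (i, l) * ((z rs.1 i : ℝ) / R) *
        ((y rs.2 l : ℝ) / R))]
      refine (Finset.sum_subset (Finset.subset_univ _) ?_).trans ?_
      · intro il _ hil
        simp only [D, Finset.mem_product, Finset.mem_filter, Finset.mem_univ, true_and,
          not_and_or, not_not] at hil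
        simp only [c]
        rcases hil with h0 | h0 <;> simp [h0]
      · refine Finset.sum_congr rfl fun il _ => ?_
        simp only [c]
        ring
    have key := chernoff_blocks h hC₀ hq (Finset.univ : Finset (Fin M × Fin M)) D ?_ c ?_
      (K' := K * C ^ 2) (by positivity) ?_
    · have e1 : ((Finset.univ : Finset (Fin M × Fin M)).card : ℝ) = (M : ℝ) ^ 2 := by
        simp [Finset.card_univ, Fintype.card_prod, sq]
      rw [e1] at key
      have e2 : E (z, y) = {ω | 3 * (C₀ + √C₀) * (M : ℝ) ^ 2 ≤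
          ∑ b, |∑ i ∈ D b, c b i * ω i|} := by
        ext ω
        simp only [E, Set.mem_ofPred_eq]
        rw [Fintype.sum_prod_type]
        simp only [hsum]
        rw [hC₁]
      rw [e2]
      exact key
    · rintro ⟨r, s⟩ _ ⟨r', s'⟩ _ hne
      rw [Finset.disjoint_left]
      rintro ⟨i, l⟩ h1 h2
      simp only [D, Finset.mem_product, Finset.mem_filter, Finset.mem_univ, true_and] at h1 h2
      by_cases hr : r = r'
      · have hs : s ≠ s' := by
          rintro rfl
          exact hne (by rw [hr])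
        rcases hyd s s' hs l with h0 | h0
        · exact h1.2 h0
        · exact h2.2 h0
      · rcases hzd r r' hr i with h0 | h0
        · exact h1.1 h0
        · exact h2.1 h0
    · rintro ⟨r, s⟩ _
      simp only [D, c]
      rw [Finset.sum_product]
      have e3 : ∀ i l, |((z r i : ℝ) / R) * ((y s l : ℝ) / R)| ^ q =
          |(z r i : ℝ) / R| ^ q * |(y s l : ℝ) / R| ^ q := by
        intro i l
        rw [abs_mul, Real.mul_rpow (abs_nonneg _) (abs_nonneg _)]
      simp only [e3]
      rw [← Finset.sum_mul_sum]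
      have s1 : ∑ i ∈ Finset.univ.filter (fun i => z r i ≠ 0), |(z r i : ℝ) / R| ^ q ≤ 1 :=
        (Finset.sum_le_sum_of_subset_of_nonneg (Finset.subset_univ _)
          fun i _ _ => by positivity).trans (hz1 r)
      have s2 : ∑ i ∈ Finset.univ.filter (fun i => y s i ≠ 0), |(y s i : ℝ) / R| ^ q ≤ 1 :=
        (Finset.sum_le_sum_of_subset_of_nonneg (Finset.subset_univ _)
          fun i _ _ => by positivity).trans (hy1 s)
      exact mul_le_one₀ s1 (Finset.sum_nonneg fun i _ => by positivity) s2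
    · rintro ⟨r, s⟩ _ ω hω
      rw [hsum]
      refine (abs_bilin_le (v := fun i l => ω (i, l)) (fun i l => hω (i, l)) _ _).trans ?_
      have s1 : ∑ i, |(z r i : ℝ) / R| ≤ C := by
        refine sum_abs_le_card hq (hz1 r) ((Finset.card_le_card ?_).trans (hcz r))
        intro i
        simp only [Finset.mem_filter, Finset.mem_univ, true_and]
        intro h1 h2
        exact h1 (by simp [h2])
      have s2 : ∑ i, |(y s i : ℝ) / R| ≤ C := by
        refine sum_abs_le_card hq (hy1 s) ((Finset.card_le_card ?_).trans (hcy s))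
        intro i
        simp only [Finset.mem_filter, Finset.mem_univ, true_and]
        intro h1 h2
        exact h1 (by simp [h2])
      calc K * (∑ i, |(z r i : ℝ) / R|) * ∑ l, |(y s l : ℝ) / R| ≤ K * C * C := by gcongr
        _ = K * C ^ 2 := by ring
  refine ⟨⋃ zy ∈ famSet N C R M q, E zy, ?_, ?_⟩
  · refine (measureReal_biUnion_finset_le _ _).trans ?_
    refine (Finset.sum_le_sum hE).trans ?_
    rw [Finset.sum_const, nsmul_eq_mul]
    gcongr
    exact card_famSet_le hN
  · intro ω hω hωK a b ha hb hac hbc had hbd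
    have hrab : ∀ (a : Fin M → Fin N → ℝ), (∀ r, ∑ i, |a r i| ^ q ≤ 1) →
        (∀ r, (Finset.univ.filter (fun i => a r i ≠ 0)).card ≤ C) →
        (fun r i => rnd R (a r i)) ∈ Fintype.piFinset (fun _ : Fin M => sparse N C R) ∧
        (∀ r, ∑ i, |(((rnd R (a r i) : ℤ) : ℝ)) / R| ^ q ≤ 1) := by
      intro a ha hac
      have hle : ∀ r i, |((rnd R (a r i) : ℝ)) / R| ≤ |a r i| := by
        intro r i
        rw [abs_div, abs_of_pos hR', div_le_iff₀ hR', mul_comm]
        exact abs_rnd_le _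
      constructor
      · rw [Fintype.mem_piFinset]
        intro r
        unfold sparse
        rw [Finset.mem_filter, Fintype.mem_piFinset]
        constructor
        · intro i
          rw [Finset.mem_Icc, ← abs_le]
          have h1 := abs_rnd_le (R := R) (a r i)
          have h2 := abs_le_one_of_sum_rpow_le hq (ha r) i
          have h3 : |(rnd R (a r i) : ℝ)| ≤ R := h1.trans (by nlinarith)
          exact_mod_cast h3
        · refine (Finset.card_le_card ?_).trans (hac r)
          intro i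
          simp only [Finset.mem_filter, Finset.mem_univ, true_and]
          intro h1 h2
          exact h1 (by rw [h2, rnd_zero])
      · intro r
        refine (Finset.sum_le_sum fun i _ => ?_).trans (ha r)
        exact Real.rpow_le_rpow (abs_nonneg _) (hle r i) hq.le
    obtain ⟨ha1, ha2⟩ := hrab a ha hac
    obtain ⟨hb1, hb2⟩ := hrab b hb hbc
    have hmem : ((fun r i => rnd R (a r i), fun r i => rnd R (b r i)) :
        (Fin M → Fin N → ℤ) × (Fin M → Fin N → ℤ)) ∈ famSet N C R M q := by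
      unfold famSet
      rw [Finset.mem_filter, Finset.mem_product]
      refine ⟨⟨ha1, hb1⟩, ha2, hb2, ?_, ?_⟩
      · intro r s hrs i
        rcases had r s hrs i with h0 | h0
        · left; simp [h0, rnd_zero]
        · right; simp [h0, rnd_zero]
      · intro r s hrs i
        rcases hbd r s hrs i with h0 | h0
        · left; simp [h0, rnd_zero]
        · right; simp [h0, rnd_zero]
    have hnot : ω ∉ E (fun r i => rnd R (a r i), fun r i => rnd R (b r i)) := by
      intro hcon
      exact hω (Set.mem_biUnion hmem hcon)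
    simp only [E, Set.mem_ofPred_eq, not_le] at hnot
    -- comparison
    have hcomp : ∀ r s, |∑ i, ∑ l, ω (i, l) * a r i * b s l| ≤
        |∑ i, ∑ l, ω (i, l) * ((rnd R (a r i) : ℝ) / R) * ((rnd R (b s l) : ℝ) / R)| + C₁ := by
      intro r s
      set a' : Fin N → ℝ := fun i => (rnd R (a r i) : ℝ) / R with ha'
      set b' : Fin N → ℝ := fun l => (rnd R (b s l) : ℝ) / R with hb'
      have e1 : ∑ i, ∑ l, ω (i, l) * a r i * b s l =
          ∑ i, ∑ l, ω (i, l) * a' i * b' l +
          (∑ i, ∑ l, ω (i, l) * (a r i - a' i) * b s l +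
            ∑ i, ∑ l, ω (i, l) * a' i * (b s l - b' l)) := by
        rw [← Finset.sum_add_distrib, ← Finset.sum_add_distrib]
        refine Finset.sum_congr rfl fun i _ => ?_
        rw [← Finset.sum_add_distrib, ← Finset.sum_add_distrib]
        refine Finset.sum_congr rfl fun l _ => ?_
        ring
      have hdiff : ∀ (x : Fin N → ℝ), (Finset.univ.filter (fun i => x i ≠ 0)).card ≤ C →
          ∑ i, |x i - (rnd R (x i) : ℝ) / R| ≤ C * (1 / R) := by
        intro x hx
        calc ∑ i, |x i - (rnd R (x i) : ℝ) / R|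
            = ∑ i ∈ Finset.univ.filter (fun i => x i ≠ 0), |x i - (rnd R (x i) : ℝ) / R| := by
              rw [Finset.sum_filter]
              refine Finset.sum_congr rfl fun i _ => ?_
              by_cases h : x i = 0
              · simp [h, rnd_zero]
              · simp [h]
          _ ≤ ∑ i ∈ Finset.univ.filter (fun i => x i ≠ 0), (1 / (R : ℝ)) :=
              Finset.sum_le_sum fun i _ => abs_sub_rnd_le hR1 _
          _ = ((Finset.univ.filter (fun i => x i ≠ 0)).card : ℝ) * (1 / R) := by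
              rw [Finset.sum_const, nsmul_eq_mul]
          _ ≤ C * (1 / R) := by
              gcongr
      have s1 : ∑ l, |b s l| ≤ C := sum_abs_le_card hq (hb s) (hbc s)
      have s2 : ∑ i, |a' i| ≤ C := by
        refine le_trans (Finset.sum_le_sum fun i _ => ?_) (sum_abs_le_card hq (ha r) (hac r))
        rw [ha', abs_div, abs_of_pos hR', div_le_iff₀ hR', mul_comm]
        exact abs_rnd_le _
      have t1 := abs_bilin_le (v := fun i l => ω (i, l)) (fun i l => hωK (i, l))
        (fun i => a r i - a' i) (b s)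
      have t2 := abs_bilin_le (v := fun i l => ω (i, l)) (fun i l => hωK (i, l))
        a' (fun l => b s l - b' l)
      have u1 := hdiff (a r) (hac r)
      have u2 := hdiff (b s) (hbc s)
      have t1' : |∑ i, ∑ l, ω (i, l) * (a r i - a' i) * b s l| ≤ K * (C * (1 / R)) * C :=
        t1.trans (by gcongr)
      have t2' : |∑ i, ∑ l, ω (i, l) * a' i * (b s l - b' l)| ≤ K * C * (C * (1 / R)) :=
        t2.trans (by gcongr)
      have hfin : K * (C * (1 / R)) * C + K * C * (C * (1 / (R : ℝ))) ≤ C₁ := by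
        have : K * (C * (1 / R)) * C + K * C * (C * (1 / (R : ℝ))) = 2 * K * C ^ 2 / R := by ring
        rw [this, div_le_iff₀ hR']
        exact hR
      rw [e1]
      refine (abs_add_le _ _).trans ?_
      have := abs_add_le (∑ i, ∑ l, ω (i, l) * (a r i - a' i) * b s l)
        (∑ i, ∑ l, ω (i, l) * a' i * (b s l - b' l))
      linarith
    calc ∑ r, ∑ s, |∑ i, ∑ l, ω (i, l) * a r i * b s l|
        ≤ ∑ r : Fin M, ∑ s : Fin M, (|∑ i, ∑ l, ω (i, l) * ((rnd R (a r i) : ℝ) / R) *
          ((rnd R (b s l) : ℝ) / R)| + C₁) := by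
          refine Finset.sum_le_sum fun r _ => Finset.sum_le_sum fun s _ => hcomp r s
      _ = (∑ r : Fin M, ∑ s : Fin M, |∑ i, ∑ l, ω (i, l) * ((rnd R (a r i) : ℝ) / R) *
          ((rnd R (b s l) : ℝ) / R)|) + C₁ * (M : ℝ) ^ 2 := by
          simp only [Finset.sum_add_distrib, Finset.sum_const, Finset.card_univ, Fintype.card_fin,
            nsmul_eq_mul]
          ring
      _ ≤ 3 * C₁ * (M : ℝ) ^ 2 + C₁ * (M : ℝ) ^ 2 := by
          gcongr
      _ = 4 * C₁ * (M : ℝ) ^ 2 := by ring

end Pool.Agent.Helper630.Stable
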