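import Mathlib
import Pool.Agent.Helper630.Stable.S3

open MeasureTheory ProbabilityTheory Finset

namespace Pool.Agent.Helper630.Stable

/-- Integer vectors of squared length at most `21 N`. -/
noncomputable def latt (N : ℕ) : Finset (Fin N → ℤ) :=
  (Fintype.piFinset (fun _ : Fin N => Finset.Icc (-((21 * N : ℕ) : ℤ)) ((21 * N : ℕ) : ℤ))).filter
    (fun z => ∑ i, z i ^ 2 ≤ 21 * N)

lemma mem_latt {N : ℕ} {z : Fin N → ℤ} (hz : ∑ i, z i ^ 2 ≤ 21 * N) : z ∈ latt N := by
  unfold latt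
  rw [Finset.mem_filter, Fintype.mem_piFinset]
  refine ⟨fun i => ?_, hz⟩
  have h1 : z i ^ 2 ≤ 21 * N :=
    (Finset.single_le_sum (f := fun i => z i ^ 2) (fun i _ => sq_nonneg _)
      (Finset.mem_univ i)).trans hz
  rw [Finset.mem_Icc]
  push_cast
  constructor
  · nlinarith [sq_nonneg (z i), sq_nonneg (z i + 1)]
  · nlinarith [sq_nonneg (z i), sq_nonneg (z i - 1)]

lemma sum_half_pow (B : ℕ) :
    ∑ x ∈ Finset.Icc (-(B : ℤ)) B, ((1 : ℝ) / 2) ^ x.natAbs = 3 - 2 * (1 / 2) ^ B := by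
  induction B with
  | zero => norm_num
  | succ B ih =>
    have e : Finset.Icc (-((B + 1 : ℕ) : ℤ)) ((B + 1 : ℕ) : ℤ) =
        insert ((B + 1 : ℕ) : ℤ) (insert (-((B + 1 : ℕ) : ℤ)) (Finset.Icc (-(B : ℤ)) B)) := by
      ext x
      simp only [Finset.mem_Icc, Finset.mem_insert]
      omega
    rw [e, Finset.sum_insert, Finset.sum_insert, ih]
    · have h1 : ((B + 1 : ℕ) : ℤ).natAbs = B + 1 := by omega
      have h2 : (-((B + 1 : ℕ) : ℤ)).natAbs = B + 1 := by omega
      rw [h1, h2, pow_succ]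
      ring
    · simp only [Finset.mem_Icc]
      omega
    · simp only [Finset.mem_Icc, Finset.mem_insert]
      omega

lemma card_latt_le (N : ℕ) : ((latt N).card : ℝ) ≤ Real.exp (23 * N) := by
  refine (card_filter_le_mul _ (fun x : ℤ => ((1 : ℝ) / 2) ^ x.natAbs)
    (fun x _ => by positivity) _ (T := 2 ^ (21 * N)) (by positivity) ?_).trans ?_
  · intro z _ hz
    rw [Finset.prod_pow_eq_pow_sum, one_div, inv_pow, ← div_eq_mul_inv, one_le_div (by positivity)]
    refine pow_le_pow_right₀ (by norm_num) ?_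
    have h1 : ∀ i, ((z i).natAbs : ℤ) ≤ z i ^ 2 := by
      intro i
      rw [← Int.natAbs_sq]
      have := Nat.le_self_pow (n := 2) (by norm_num) (z i).natAbs
      exact_mod_cast this
    have h2 : ((∑ i, (z i).natAbs : ℕ) : ℤ) ≤ 21 * N := by
      push_cast
      refine (Finset.sum_le_sum fun i _ => ?_).trans hz
      have := h1 i
      rwa [Int.natCast_natAbs] at this
    exact_mod_cast h2
  · rw [sum_half_pow]
    have e1 : (2 : ℝ) ^ (21 * N) ≤ Real.exp (21 * N) := by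
      have h1 : (2 : ℝ) ≤ Real.exp 1 := by
        have := Real.add_one_le_exp (1 : ℝ)
        linarith
      calc (2 : ℝ) ^ (21 * N) ≤ (Real.exp 1) ^ (21 * N) := by gcongr
        _ = Real.exp (21 * N) := by
            rw [← Real.exp_nat_mul]
            congr 1
            push_cast
            ring
    have e2 : (3 - 2 * (1 / 2 : ℝ) ^ (21 * N)) ^ N ≤ Real.exp (2 * N) := by
      have h1 : (3 : ℝ) ≤ Real.exp 2 := by
        have := Real.add_one_le_exp (2 : ℝ)
        linarith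
      have h3 : (1 / 2 : ℝ) ^ (21 * N) ≤ 1 := pow_le_one₀ (by norm_num) (by norm_num)
      have h2 : (0 : ℝ) < (1 / 2 : ℝ) ^ (21 * N) := by positivity
      calc (3 - 2 * (1 / 2 : ℝ) ^ (21 * N)) ^ N ≤ (Real.exp 2) ^ N := by
            gcongr
            · linarith
            · linarith
        _ = Real.exp (2 * N) := by
            rw [← Real.exp_nat_mul]
            congr 1
            ring
    have h0 : (0 : ℝ) ≤ (3 - 2 * (1 / 2 : ℝ) ^ (21 * N)) ^ N := by
      have h3 : (1 / 2 : ℝ) ^ (21 * N) ≤ 1 := pow_le_one₀ (by norm_num) (by norm_num)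
      exact pow_nonneg (by linarith) _
    calc (2 : ℝ) ^ (21 * N) * (3 - 2 * (1 / 2 : ℝ) ^ (21 * N)) ^ N
        ≤ Real.exp (21 * N) * Real.exp (2 * N) := mul_le_mul e1 e2 h0 (Real.exp_pos _).le
      _ = Real.exp (23 * N) := by
          rw [← Real.exp_add]
          congr 1
          ring

variable {q C₀ K : ℝ} {ρ : Measure ℝ} [IsProbabilityMeasure ρ]

lemma subgaussian_tail {I : Type*} [Fintype I] (h : GoodLaw q C₀ K ρ) (c : I → ℝ)
    {A ε : ℝ} (hA : ∑ i, c i ^ 2 ≤ A) (hA0 : 0 < A) (hε : 0 ≤ ε) (hK0 : 0 < K) :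
    (Measure.pi fun _ : I => ρ).real {ω | ε ≤ ∑ i, c i * ω i} ≤
      Real.exp (-ε ^ 2 / (2 * (K ^ 2 * A))) := by
  set P : Measure (I → ℝ) := Measure.pi fun _ : I => ρ with hP
  have h1 : HasSubgaussianMGF (fun x : ℝ => x) ((‖K - -K‖₊ / 2) ^ 2) ρ := by
    refine hasSubgaussianMGF_of_mem_Icc_of_integral_eq_zero aemeasurable_id ?_ ?_
    · filter_upwards [h.bdd] with x hx
      exact abs_le.mp hx
    · exact h.odd (fun x => x) (fun x => rfl)
  have h2 : ∀ i, HasSubgaussianMGF (fun ω : I → ℝ => ω i) ((‖K - -K‖₊ / 2) ^ 2) P := by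
    intro i
    have hm : P.map (fun ω : I → ℝ => ω i) = ρ :=
      (measurePreserving_eval (fun _ : I => ρ) i).map_eq
    refine HasSubgaussianMGF.of_map (Y := fun ω : I → ℝ => ω i) (X := fun x : ℝ => x)
      (measurable_pi_apply i).aemeasurable ?_
    rw [hm]
    exact h1
  have hind : iIndepFun (fun (i : I) (ω : I → ℝ) => c i * ω i) P :=
    iIndepFun_pi (X := fun i x => c i * x) (fun i => by fun_prop)
  have h3 := HasSubgaussianMGF.sum_of_iIndepFun hind (s := Finset.univ)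
    (fun i _ => (h2 i).const_mul (c i))
  have hAK : (0 : ℝ) ≤ K ^ 2 * A := by positivity
  have h5 : HasSubgaussianMGF (fun ω : I → ℝ => ∑ i, c i * ω i) ⟨K ^ 2 * A, hAK⟩ P := by
    refine ⟨h3.integrable_exp_mul, fun t => (h3.mgf_le t).trans ?_⟩
    refine Real.exp_le_exp.mpr ?_
    gcongr
    have hn : ((‖K - -K‖₊ : NNReal) : ℝ) = 2 * K := by
      rw [coe_nnnorm, Real.norm_eq_abs, abs_of_nonneg (by linarith)]
      ring
    refine NNReal.coe_le_coe.mp ?_
    rw [NNReal.coe_sum]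
    refine le_trans (le_of_eq ?_) (mul_le_mul_of_nonneg_left hA (sq_nonneg K))
    rw [Finset.mul_sum]
    refine Finset.sum_congr rfl fun i _ => ?_
    rw [NNReal.coe_mul, NNReal.coe_pow, NNReal.coe_div, hn]
    have e : ∀ x : ℝ, x = c i ^ 2 → x * (2 * K / ((2 : NNReal) : ℝ)) ^ 2 = K ^ 2 * c i ^ 2 := by
      intro x hx
      rw [hx, NNReal.coe_ofNat]
      ring
    exact e _ rfl
  have h4 := h5.measure_ge_le hε
  exact h4

/-- The bilinear form of a matrix. -/
def bil {N : ℕ} (v : Fin N → Fin N → ℝ) (x y : Fin N → ℝ) : ℝ := ∑ i, ∑ l, v i l * x i * y l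

lemma bil_add_left {N : ℕ} (v : Fin N → Fin N → ℝ) (x x' y : Fin N → ℝ) :
    bil v (fun i => x i + x' i) y = bil v x y + bil v x' y := by
  unfold bil
  rw [← Finset.sum_add_distrib]
  refine Finset.sum_congr rfl fun i _ => ?_
  rw [← Finset.sum_add_distrib]
  refine Finset.sum_congr rfl fun l _ => ?_
  ring

lemma bil_add_right {N : ℕ} (v : Fin N → Fin N → ℝ) (x y y' : Fin N → ℝ) :
    bil v x (fun i => y i + y' i) = bil v x y + bil v x y' := by
  unfold bil
  rw [← Finset.sum_add_distrib]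
  refine Finset.sum_congr rfl fun i _ => ?_
  rw [← Finset.sum_add_distrib]
  refine Finset.sum_congr rfl fun l _ => ?_
  ring

lemma bil_smul {N : ℕ} (v : Fin N → Fin N → ℝ) (c d : ℝ) (x y : Fin N → ℝ) :
    bil v (fun i => c * x i) (fun i => d * y i) = c * d * bil v x y := by
  unfold bil
  rw [Finset.mul_sum]
  refine Finset.sum_congr rfl fun i _ => ?_
  rw [Finset.mul_sum]
  refine Finset.sum_congr rfl fun l _ => ?_
  ring

/-- From the lattice net to the operator norm. -/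
lemma opnorm_of_latt {N : ℕ} (hN : 1 ≤ N) {K : ℝ} (hK : 0 < K) (v : Fin N → Fin N → ℝ)
    (hv : ∀ z ∈ latt N, ∀ y ∈ latt N,
      bil v (fun i => (z i : ℝ)) (fun i => (y i : ℝ)) ≤ 210 * K * N * √N)
    (x y : Fin N → ℝ) :
    |bil v x y| ≤ 18 * K * √N * √(∑ i, x i ^ 2) * √(∑ i, y i ^ 2) := by
  have hN' : (0 : ℝ) < N := by exact_mod_cast hN
  have hsN : 0 < √(N : ℝ) := Real.sqrt_pos.mpr hN'
  have hsq : √(N : ℝ) * √(N : ℝ) = N := Real.mul_self_sqrt hN'.le
  -- the unit ball and the supremum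
  let U : Set ((Fin N → ℝ) × (Fin N → ℝ)) := {xy | ∑ i, xy.1 i ^ 2 ≤ 1 ∧ ∑ i, xy.2 i ^ 2 ≤ 1}
  let V : Set ℝ := (fun xy : (Fin N → ℝ) × (Fin N → ℝ) => |bil v xy.1 xy.2|) '' U
  have habs1 : ∀ x : Fin N → ℝ, ∑ i, x i ^ 2 ≤ 1 → ∀ i, |x i| ≤ 1 := by
    intro x hx i
    have h1 : x i ^ 2 ≤ 1 :=
      (Finset.single_le_sum (f := fun i => x i ^ 2) (fun i _ => sq_nonneg _)
        (Finset.mem_univ i)).trans hx
    rw [← sq_abs] at h1
    nlinarith [abs_nonneg (x i)]
  have hbdd : BddAbove V := by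
    refine ⟨∑ i, ∑ l, |v i l|, ?_⟩
    rintro _ ⟨⟨x, y⟩, ⟨hx, hy⟩, rfl⟩
    dsimp only at hx hy ⊢
    unfold bil
    refine (Finset.abs_sum_le_sum_abs _ _).trans (Finset.sum_le_sum fun i _ => ?_)
    refine (Finset.abs_sum_le_sum_abs _ _).trans (Finset.sum_le_sum fun l _ => ?_)
    rw [abs_mul, abs_mul]
    have h1 := habs1 x hx i
    have h2 := habs1 y hy l
    calc |v i l| * |x i| * |y l| ≤ |v i l| * 1 * 1 := by gcongr
      _ = |v i l| := by ring
  set S : ℝ := sSup V with hS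
  have hle : ∀ x y : Fin N → ℝ, ∑ i, x i ^ 2 ≤ 1 → ∑ i, y i ^ 2 ≤ 1 → |bil v x y| ≤ S := by
    intro x y hx hy
    exact le_csSup hbdd ⟨(x, y), ⟨hx, hy⟩, rfl⟩
  have hscale : ∀ (x y : Fin N → ℝ) (a b : ℝ), 0 < a → 0 < b → ∑ i, x i ^ 2 ≤ a ^ 2 →
      ∑ i, y i ^ 2 ≤ b ^ 2 → |bil v x y| ≤ a * b * S := by
    intro x y a b ha hb hx hy
    have h1 := hle (fun i => a⁻¹ * x i) (fun i => b⁻¹ * y i) (by
      simp only [mul_pow, ← Finset.mul_sum]
      rw [inv_pow, inv_mul_le_iff₀ (by positivity), mul_one]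
      exact hx) (by
      simp only [mul_pow, ← Finset.mul_sum]
      rw [inv_pow, inv_mul_le_iff₀ (by positivity), mul_one]
      exact hy)
    rw [bil_smul, abs_mul, abs_of_pos (by positivity)] at h1
    calc |bil v x y| = a * b * (a⁻¹ * b⁻¹ * |bil v x y|) := by field_simp
      _ ≤ a * b * S := by gcongr
  have hS0 : 0 ≤ S := (abs_nonneg _).trans (hle 0 0 (by simp) (by simp))
  have hlattneg : ∀ z ∈ latt N, (fun i => - z i) ∈ latt N := by
    intro z hz
    apply mem_latt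
    unfold latt at hz
    simpa using (Finset.mem_filter.mp hz).2
  -- rounding
  let rz : (Fin N → ℝ) → Fin N → ℤ := fun x i => round (4 * √N * x i)
  let rr : (Fin N → ℝ) → Fin N → ℝ := fun x i => x i - (4 * √N)⁻¹ * (rz x i : ℝ)
  have hrr : ∀ x i, |rr x i| ≤ (8 * √N)⁻¹ := by
    intro x i
    have h1 := abs_sub_round (4 * √N * x i)
    have h2 : rr x i = (4 * √N)⁻¹ * (4 * √N * x i - round (4 * √N * x i)) := by
      simp only [rr, rz]
      field_simp
    rw [h2, abs_mul, abs_of_pos (by positivity)]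
    calc (4 * √N)⁻¹ * |4 * √N * x i - round (4 * √N * x i)| ≤ (4 * √N)⁻¹ * (1 / 2) := by gcongr
      _ = (8 * √N)⁻¹ := by
        rw [mul_inv, mul_inv]
        ring
  have hrr2 : ∀ x, ∑ i, rr x i ^ 2 ≤ (1 / 8) ^ 2 := by
    intro x
    calc ∑ i, rr x i ^ 2 ≤ ∑ i : Fin N, ((8 * √N)⁻¹) ^ 2 := by
          refine Finset.sum_le_sum fun i _ => ?_
          rw [← sq_abs]
          gcongr
          exact hrr x i
      _ = (1 / 8) ^ 2 := by
          rw [Finset.sum_const, Finset.card_univ, Fintype.card_fin, nsmul_eq_mul, inv_pow, mul_pow,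
            Real.sq_sqrt hN'.le]
          field_simp
  have hxr : ∀ x : Fin N → ℝ, ∑ i, x i ^ 2 ≤ 1 →
      ∑ i, ((4 * √N)⁻¹ * (rz x i : ℝ)) ^ 2 ≤ (9 / 8) ^ 2 := by
    intro x hx
    have h1 : ∀ i, ((4 * √N)⁻¹ * (rz x i : ℝ)) ^ 2 ≤ 9 / 8 * x i ^ 2 + 9 * rr x i ^ 2 := by
      intro i
      have h2 : (4 * √N)⁻¹ * (rz x i : ℝ) = x i - rr x i := by simp only [rr]; ring
      rw [h2]
      nlinarith [sq_nonneg (x i + 8 * rr x i)]
    calc ∑ i, ((4 * √N)⁻¹ * (rz x i : ℝ)) ^ 2 ≤ ∑ i, (9 / 8 * x i ^ 2 + 9 * rr x i ^ 2) :=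
          Finset.sum_le_sum fun i _ => h1 i
      _ = 9 / 8 * ∑ i, x i ^ 2 + 9 * ∑ i, rr x i ^ 2 := by
          rw [Finset.sum_add_distrib, Finset.mul_sum, Finset.mul_sum]
      _ ≤ 9 / 8 * 1 + 9 * (1 / 8) ^ 2 := by
          gcongr
          exact hrr2 x
      _ = (9 / 8) ^ 2 := by norm_num
  have hzl : ∀ x : Fin N → ℝ, ∑ i, x i ^ 2 ≤ 1 → rz x ∈ latt N := by
    intro x hx
    apply mem_latt
    have h1 := hxr x hx
    simp only [mul_pow, ← Finset.mul_sum] at h1
    rw [inv_pow, mul_pow, Real.sq_sqrt hN'.le, inv_mul_le_iff₀ (by positivity)] at h1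
    have h2 : (∑ i, (rz x i : ℝ) ^ 2) ≤ 21 * N := h1.trans (by nlinarith)
    exact_mod_cast h2
  have hself : ∀ x y : Fin N → ℝ, ∑ i, x i ^ 2 ≤ 1 → ∑ i, y i ^ 2 ≤ 1 →
      |bil v x y| ≤ 210 / 16 * K * √N + (1 / 8 + 9 / 64) * S := by
    intro x y hx hy
    set x' : Fin N → ℝ := fun i => (4 * √N)⁻¹ * (rz x i : ℝ) with hx'
    set y' : Fin N → ℝ := fun i => (4 * √N)⁻¹ * (rz y i : ℝ) with hy'
    have e1 : bil v x y = bil v x' y' + (bil v x' (rr y) + bil v (rr x) y) := by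
      have a1 : x = fun i => x' i + rr x i := by
        funext i; simp only [hx', rr]; ring
      have a2 : y = fun i => y' i + rr y i := by
        funext i; simp only [hy', rr]; ring
      have b1 : bil v x y = bil v x' y + bil v (rr x) y := by
        rw [← bil_add_left]
        exact congrArg (fun w => bil v w y) a1
      have b2 : bil v x' y = bil v x' y' + bil v x' (rr y) := by
        rw [← bil_add_right]
        exact congrArg (fun w => bil v x' w) a2
      rw [b1, b2]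
      ring
    have t1 : |bil v (rr x) y| ≤ 1 / 8 * 1 * S :=
      hscale _ _ (1 / 8) 1 (by norm_num) one_pos (hrr2 x) (by simpa using hy)
    have t2 : |bil v x' (rr y)| ≤ 9 / 8 * (1 / 8) * S :=
      hscale _ _ (9 / 8) (1 / 8) (by norm_num) (by norm_num) (hxr x hx) (hrr2 y)
    have t3 : |bil v x' y'| ≤ 210 / 16 * K * √N := by
      rw [hx', hy', bil_smul]
      have hz := hv _ (hzl x hx) _ (hzl y hy)
      have hz' := hv _ (hlattneg _ (hzl x hx)) _ (hzl y hy)
      have e2 : bil v (fun i => ((- rz x i : ℤ) : ℝ)) (fun i => (rz y i : ℝ)) =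
          - bil v (fun i => (rz x i : ℝ)) (fun i => (rz y i : ℝ)) := by
        have := bil_smul v (-1) 1 (fun i => (rz x i : ℝ)) (fun i => (rz y i : ℝ))
        simp only [one_mul, neg_mul, mul_one] at this
        push_cast
        exact this
      rw [e2] at hz'
      have h3 : |bil v (fun i => (rz x i : ℝ)) (fun i => (rz y i : ℝ))| ≤ 210 * K * N * √N :=
        abs_le.mpr ⟨by linarith, hz⟩
      rw [abs_mul, abs_of_pos (by positivity)]
      calc (4 * √N)⁻¹ * (4 * √N)⁻¹ * |bil v (fun i => (rz x i : ℝ)) (fun i => (rz y i : ℝ))|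
          ≤ (4 * √N)⁻¹ * (4 * √N)⁻¹ * (210 * K * N * √N) := by gcongr
        _ = 210 / 16 * K * √N := by
            rw [← mul_inv]
            have : 4 * √(N : ℝ) * (4 * √(N : ℝ)) = 16 * N := by
              calc 4 * √(N : ℝ) * (4 * √(N : ℝ)) = 16 * (√(N : ℝ) * √(N : ℝ)) := by ring
                _ = 16 * N := by rw [hsq]
            rw [this]
            field_simp
    rw [e1]
    have t4 := abs_add_le (bil v x' y') (bil v x' (rr y) + bil v (rr x) y)
    have t5 := abs_add_le (bil v x' (rr y)) (bil v (rr x) y)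
    linarith
  have hSle : S ≤ 18 * K * √N := by
    have h1 : S ≤ 210 / 16 * K * √N + (1 / 8 + 9 / 64) * S := by
      apply csSup_le
      · exact ⟨_, ⟨(0, 0), ⟨by simp, by simp⟩, rfl⟩⟩
      · rintro _ ⟨⟨x, y⟩, ⟨hx, hy⟩, rfl⟩
        exact hself x y hx hy
    have : 0 < K * √N := by positivity
    nlinarith
  -- general vectors
  by_cases hx0 : ∑ i, x i ^ 2 = 0
  · have : ∀ i, x i = 0 := by
      intro i
      have := (Finset.sum_eq_zero_iff_of_nonneg (fun i _ => sq_nonneg (x i))).mp hx0 i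
        (Finset.mem_univ i)
      exact pow_eq_zero_iff (two_ne_zero) |>.mp this
    have e : bil v x y = 0 := by
      unfold bil
      simp [this]
    rw [e, abs_zero]
    positivity
  by_cases hy0 : ∑ i, y i ^ 2 = 0
  · have : ∀ i, y i = 0 := by
      intro i
      have := (Finset.sum_eq_zero_iff_of_nonneg (fun i _ => sq_nonneg (y i))).mp hy0 i
        (Finset.mem_univ i)
      exact pow_eq_zero_iff (two_ne_zero) |>.mp this
    have e : bil v x y = 0 := by
      unfold bil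
      simp [this]
    rw [e, abs_zero]
    positivity
  have hx1 : 0 < ∑ i, x i ^ 2 := lt_of_le_of_ne (Finset.sum_nonneg fun i _ => sq_nonneg _)
    (Ne.symm hx0)
  have hy1 : 0 < ∑ i, y i ^ 2 := lt_of_le_of_ne (Finset.sum_nonneg fun i _ => sq_nonneg _)
    (Ne.symm hy0)
  have h1 := hscale x y _ _ (Real.sqrt_pos.mpr hx1) (Real.sqrt_pos.mpr hy1)
    (by rw [Real.sq_sqrt hx1.le]) (by rw [Real.sq_sqrt hy1.le])
  calc |bil v x y| ≤ √(∑ i, x i ^ 2) * √(∑ i, y i ^ 2) * S := h1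
    _ ≤ √(∑ i, x i ^ 2) * √(∑ i, y i ^ 2) * (18 * K * √N) := by gcongr
    _ = 18 * K * √N * √(∑ i, x i ^ 2) * √(∑ i, y i ^ 2) := by ring

theorem opnorm_event {N : ℕ} (h : GoodLaw q C₀ K ρ) (hK : 0 < K) (hN : 1 ≤ N) :
    ∃ Bad : Set (Fin N × Fin N → ℝ), (Measure.pi fun _ : Fin N × Fin N => ρ).real Bad ≤
      Real.exp (-(4 * N)) ∧
      ∀ ω, ω ∉ Bad → ∀ x y : Fin N → ℝ, |bil (fun i l => ω (i, l)) x y| ≤
        18 * K * √N * √(∑ i, x i ^ 2) * √(∑ i, y i ^ 2) := by
  have hN' : (0 : ℝ) < N := by exact_mod_cast hN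
  set P : Measure (Fin N × Fin N → ℝ) := Measure.pi fun _ : Fin N × Fin N => ρ with hP
  let E : (Fin N → ℤ) × (Fin N → ℤ) → Set (Fin N × Fin N → ℝ) := fun zy =>
    {ω | 210 * K * N * √N ≤ ∑ il, ((zy.1 il.1 : ℝ) * (zy.2 il.2 : ℝ)) * ω il}
  have hE : ∀ zy ∈ latt N ×ˢ latt N, P.real (E zy) ≤ Real.exp (-(50 * N)) := by
    rintro ⟨z, y⟩ hzy
    rw [Finset.mem_product] at hzy
    obtain ⟨hz, hy⟩ := hzy
    dsimp only at hz hy
    unfold latt at hz hy
    have hz2 : (∑ i, (z i : ℝ) ^ 2) ≤ 21 * N := by exact_mod_cast (Finset.mem_filter.mp hz).2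
    have hy2 : (∑ i, (y i : ℝ) ^ 2) ≤ 21 * N := by exact_mod_cast (Finset.mem_filter.mp hy).2
    refine (subgaussian_tail h (fun il : Fin N × Fin N => (z il.1 : ℝ) * (y il.2 : ℝ))
      (A := (21 * N) ^ 2) ?_ (by positivity) (by positivity) hK).trans ?_
    · rw [Fintype.sum_prod_type]
      simp only [mul_pow]
      rw [← Finset.sum_mul_sum]
      calc (∑ i, (z i : ℝ) ^ 2) * ∑ j, (y j : ℝ) ^ 2 ≤ (21 * N) * (21 * N) := by
            gcongr
        _ = (21 * (N : ℝ)) ^ 2 := by ring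
        _ ≤ _ := by ring_nf; exact le_rfl
    · apply le_of_eq
      congr 1
      have hs : √(N : ℝ) ^ 2 = N := Real.sq_sqrt hN'.le
      have : (210 * K * N * √N) ^ 2 = 44100 * K ^ 2 * N ^ 3 := by
        calc (210 * K * N * √N) ^ 2 = 44100 * K ^ 2 * N ^ 2 * √(N : ℝ) ^ 2 := by ring
          _ = 44100 * K ^ 2 * N ^ 3 := by rw [hs]; ring
      rw [this]
      field_simp
      norm_num
  refine ⟨⋃ zy ∈ latt N ×ˢ latt N, E zy, ?_, ?_⟩
  · refine (measureReal_biUnion_finset_le _ _).trans ?_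
    refine (Finset.sum_le_sum hE).trans ?_
    rw [Finset.sum_const, nsmul_eq_mul, Finset.card_product]
    push_cast
    have h1 := card_latt_le N
    calc ((latt N).card : ℝ) * (latt N).card * Real.exp (-(50 * N))
        ≤ Real.exp (23 * N) * Real.exp (23 * N) * Real.exp (-(50 * N)) := by gcongr
      _ = Real.exp (-(4 * N)) := by
          rw [← Real.exp_add, ← Real.exp_add]
          congr 1
          ring
  · intro ω hω x y
    refine opnorm_of_latt hN hK _ ?_ x y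
    intro z hz y hy
    by_contra hcon
    push Not at hcon
    apply hω
    have hmem : (z, y) ∈ latt N ×ˢ latt N := Finset.mem_product.mpr ⟨hz, hy⟩
    refine Set.mem_biUnion hmem ?_
    simp only [E, Set.mem_ofPred_eq]
    refine hcon.le.trans (le_of_eq ?_)
    unfold bil
    rw [Fintype.sum_prod_type]
    refine Finset.sum_congr rfl fun i _ => Finset.sum_congr rfl fun l _ => ?_
    ring

end Pool.Agent.Helper630.Stable
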