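import Mathlib
import Pool.Agent.Helper630.Stable.S4

open MeasureTheory ProbabilityTheory Finset

namespace Pool.Agent.Helper630.Stable

lemma sum_geom_le {r : ℝ} (hr0 : 0 ≤ r) (hr1 : r < 1) (A : Finset ℕ) (φ : ℕ → ℕ)
    (hφ : Set.InjOn φ A) : ∑ s ∈ A, r ^ (φ s) ≤ 1 / (1 - r) := by
  rw [← Finset.sum_image (f := fun k => r ^ k) hφ, one_div, ← tsum_geometric_of_lt_one hr0 hr1]
  exact (summable_geometric_of_lt_one hr0 hr1).sum_le_tsum _ fun k _ => by positivity

lemma sum_low_le {t b : ℝ} (ht : 0 < t) (hb : 0 < b) (A : Finset ℕ)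
    (hA : ∀ s ∈ A, t * 2 ^ (s + 1) ≤ 1) :
    ∑ s ∈ A, (t * 2 ^ (s + 1)) ^ b ≤ 1 / (1 - 2 ^ (-b)) := by
  have hr1 : (2 : ℝ) ^ (-b) < 1 := Real.rpow_lt_one_of_one_lt_of_neg (by norm_num) (by linarith)
  rcases A.eq_empty_or_nonempty with rfl | hne
  · simp only [Finset.sum_empty]
    have : 0 < 1 - (2 : ℝ) ^ (-b) := by linarith
    positivity
  · set m := A.max' hne with hm
    refine (Finset.sum_le_sum (g := fun s => ((2 : ℝ) ^ (-b)) ^ (m - s)) fun s hs => ?_).trans
      (sum_geom_le (by positivity) hr1 A (fun s => m - s) ?_)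
    · have hsm : s ≤ m := Finset.le_max' _ _ hs
      have h1 : t * 2 ^ (m + 1) ≤ 1 := hA m (Finset.max'_mem _ _)
      have h2 : t * 2 ^ (s + 1) = t * 2 ^ (m + 1) * ((2 : ℝ) ^ (m - s))⁻¹ := by
        have : (2 : ℝ) ^ (m + 1) = 2 ^ (s + 1) * 2 ^ (m - s) := by
          rw [← pow_add]
          congr 1
          omega
        rw [this]
        field_simp
      have h3 : ((2 : ℝ) ^ (-b)) ^ (m - s) = (((2 : ℝ) ^ (m - s))⁻¹) ^ b := by
        rw [← Real.rpow_natCast ((2 : ℝ) ^ (-b)), ← Real.rpow_mul (by norm_num),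
          Real.inv_rpow (by positivity), ← Real.rpow_natCast 2 (m - s), ← Real.rpow_mul
          (by norm_num), ← Real.rpow_neg (by norm_num)]
        congr 1
        ring
      rw [h3, h2]
      apply Real.rpow_le_rpow (by positivity) _ hb.le
      calc t * 2 ^ (m + 1) * ((2 : ℝ) ^ (m - s))⁻¹ ≤ 1 * ((2 : ℝ) ^ (m - s))⁻¹ := by gcongr
        _ = ((2 : ℝ) ^ (m - s))⁻¹ := one_mul _
    · intro s hs s' hs' he
      have h1 : s ≤ m := Finset.le_max' _ _ hs
      have h2 : s' ≤ m := Finset.le_max' _ _ hs'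
      simp only at he
      omega

lemma sum_high_le {t a : ℝ} (ha : 0 < a) (A : Finset ℕ)
    (hA : ∀ s ∈ A, 1 ≤ t * 2 ^ (s + 1)) :
    ∑ s ∈ A, (t * 2 ^ (s + 1)) ^ (-a) ≤ 1 / (1 - 2 ^ (-a)) := by
  have hr1 : (2 : ℝ) ^ (-a) < 1 := Real.rpow_lt_one_of_one_lt_of_neg (by norm_num) (by linarith)
  rcases A.eq_empty_or_nonempty with rfl | hne
  · simp only [Finset.sum_empty]
    have : 0 < 1 - (2 : ℝ) ^ (-a) := by linarith
    positivity
  · set m := A.min' hne with hm
    refine (Finset.sum_le_sum (g := fun s => ((2 : ℝ) ^ (-a)) ^ (s - m)) fun s hs => ?_).trans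
      (sum_geom_le (by positivity) hr1 A (fun s => s - m) ?_)
    · have hsm : m ≤ s := Finset.min'_le _ _ hs
      have h1 : 1 ≤ t * 2 ^ (m + 1) := hA m (Finset.min'_mem _ _)
      have h2 : t * 2 ^ (s + 1) = t * 2 ^ (m + 1) * (2 : ℝ) ^ (s - m) := by
        have : (2 : ℝ) ^ (s + 1) = 2 ^ (m + 1) * 2 ^ (s - m) := by
          rw [← pow_add]
          congr 1
          omega
        rw [this]
        ring
      have h3 : ((2 : ℝ) ^ (-a)) ^ (s - m) = ((2 : ℝ) ^ (s - m)) ^ (-a) := by
        rw [← Real.rpow_natCast ((2 : ℝ) ^ (-a)), ← Real.rpow_mul (by norm_num),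
          ← Real.rpow_natCast 2 (s - m), ← Real.rpow_mul (by norm_num)]
        congr 1
        ring
      rw [h3, h2]
      apply Real.rpow_le_rpow_of_nonpos (by positivity) _ (by linarith)
      calc (2 : ℝ) ^ (s - m) = 1 * (2 : ℝ) ^ (s - m) := (one_mul _).symm
        _ ≤ t * 2 ^ (m + 1) * (2 : ℝ) ^ (s - m) := by gcongr
    · intro s hs s' hs' he
      have h1 : m ≤ s := Finset.min'_le _ _ hs
      have h2 : m ≤ s' := Finset.min'_le _ _ hs'
      simp only at he
      omega

/-- The law of the entries: value `± 2 ^ (s+1)` with total probability `2 ^ (-q (s+1))`. -/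
noncomputable def wt (q : ℝ) (s : ℕ) : ℝ := (2 : ℝ) ^ (-q * ((s : ℝ) + 1))

lemma wt_pos (q : ℝ) (s : ℕ) : 0 < wt q s := by unfold wt; positivity

lemma sum_wt_le {q : ℝ} (hq : 1 ≤ q) (n : ℕ) : ∑ s ∈ Finset.range n, wt q s ≤ 1 := by
  have h1 : ∀ s ∈ Finset.range n, wt q s ≤ (1 / 2 : ℝ) ^ s * (1 / 2) := by
    intro s _
    unfold wt
    rw [← pow_succ, one_div, inv_pow, ← Real.rpow_natCast, ← Real.rpow_neg (by norm_num)]
    apply Real.rpow_le_rpow_of_exponent_le (by norm_num)
    push_cast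
    nlinarith
  refine (Finset.sum_le_sum h1).trans ?_
  rw [← Finset.sum_mul]
  have h2 := sum_geom_le (r := 1 / 2) (by norm_num) (by norm_num) (Finset.range n) (fun s => s)
    (fun _ _ _ _ h => h)
  norm_num at h2 ⊢
  linarith

noncomputable def law (q : ℝ) (n : ℕ) : Measure ℝ :=
  ENNReal.ofReal (1 - ∑ s ∈ Finset.range n, wt q s) • Measure.dirac 0 +
    ∑ s ∈ Finset.range n, ENNReal.ofReal (wt q s / 2) •
      (Measure.dirac ((2 : ℝ) ^ (s + 1)) + Measure.dirac (-(2 : ℝ) ^ (s + 1)))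

lemma integral_law {q : ℝ} (hq : 1 ≤ q) (n : ℕ) (f : ℝ → ℝ) :
    ∫ x, f x ∂(law q n) = (1 - ∑ s ∈ Finset.range n, wt q s) * f 0 +
      ∑ s ∈ Finset.range n, wt q s / 2 * (f (2 ^ (s + 1)) + f (-2 ^ (s + 1))) := by
  have hid : ∀ a : ℝ, Integrable f (Measure.dirac a) := fun a => integrable_dirac (by simp)
  have hi2 : ∀ s ∈ Finset.range n, Integrable f (ENNReal.ofReal (wt q s / 2) •
      (Measure.dirac ((2 : ℝ) ^ (s + 1)) + Measure.dirac (-(2 : ℝ) ^ (s + 1)))) := by
    intro s _
    exact ((hid _).add_measure (hid _)).smul_measure ENNReal.ofReal_ne_top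
  unfold law
  rw [integral_add_measure ((hid _).smul_measure ENNReal.ofReal_ne_top)
    (integrable_finsetSum_measure.mpr hi2), integral_finsetSum_measure hi2]
  congr 1
  · rw [integral_smul_measure, integral_dirac, ENNReal.toReal_ofReal, smul_eq_mul]
    linarith [sum_wt_le hq n]
  · refine Finset.sum_congr rfl fun s _ => ?_
    rw [integral_smul_measure, integral_add_measure (hid _) (hid _), integral_dirac,
      integral_dirac, ENNReal.toReal_ofReal (by have := wt_pos q s; positivity), smul_eq_mul]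

instance {q : ℝ} [hq : Fact (1 ≤ q)] (n : ℕ) : IsProbabilityMeasure (law q n) := by
  constructor
  unfold law
  rw [Measure.add_apply, Measure.smul_apply, Measure.finsetSum_apply]
  simp only [Measure.smul_apply, Measure.add_apply, measure_univ, smul_eq_mul, mul_one]
  have h1 : ∀ s ∈ Finset.range n, ENNReal.ofReal (wt q s / 2) * (1 + 1) =
      ENNReal.ofReal (wt q s) := by
    intro s _
    have : (1 : ENNReal) + 1 = ENNReal.ofReal 2 := by
      rw [one_add_one_eq_two, ENNReal.ofReal_ofNat]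
    rw [this, ← ENNReal.ofReal_mul (by have := wt_pos q s; positivity)]
    congr 1
    ring
  rw [Finset.sum_congr rfl h1, ← ENNReal.ofReal_sum_of_nonneg (fun s _ => (wt_pos q s).le),
    ← ENNReal.ofReal_add (by linarith [sum_wt_le hq.out n])
      (Finset.sum_nonneg fun s _ => (wt_pos q s).le)]
  simp

/-- The constant of the law. -/
noncomputable def lawC (q : ℝ) : ℝ := 1 / (1 - 2 ^ (-(q - 1))) + 1 / (1 - 2 ^ (-(2 - q)))

lemma lawC_pos {q : ℝ} (h1 : 1 < q) (h2 : q < 2) : 0 < lawC q := by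
  unfold lawC
  have a : (2 : ℝ) ^ (-(q - 1)) < 1 :=
    Real.rpow_lt_one_of_one_lt_of_neg (by norm_num) (by linarith)
  have b : (2 : ℝ) ^ (-(2 - q)) < 1 :=
    Real.rpow_lt_one_of_one_lt_of_neg (by norm_num) (by linarith)
  have a' : 0 < 1 - (2 : ℝ) ^ (-(q - 1)) := by linarith
  have b' : 0 < 1 - (2 : ℝ) ^ (-(2 - q)) := by linarith
  positivity

theorem law_good {q : ℝ} (h1 : 1 < q) (h2 : q < 2) (n : ℕ) :
    GoodLaw q (lawC q) (2 ^ n) (law q n) := by
  refine ⟨?_, ?_, ?_⟩
  · rw [ae_iff]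
    have hm : MeasurableSet {a : ℝ | ¬ |a| ≤ 2 ^ n} :=
      (measurableSet_le measurable_id.abs measurable_const).compl
    unfold law
    rw [Measure.add_apply, Measure.smul_apply, Measure.finsetSum_apply, Measure.dirac_apply' _ hm]
    have e1 : Set.indicator {a : ℝ | ¬ |a| ≤ 2 ^ n} (1 : ℝ → ENNReal) 0 = 0 := by
      rw [Set.indicator_of_notMem]
      simp
    rw [e1, smul_zero, zero_add]
    refine Finset.sum_eq_zero fun s hs => ?_
    have hsn : s + 1 ≤ n := Finset.mem_range.mp hs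
    have hle : |(2 : ℝ) ^ (s + 1)| ≤ 2 ^ n := by
      rw [abs_of_pos (by positivity)]
      exact pow_le_pow_right₀ (by norm_num) hsn
    rw [Measure.smul_apply, Measure.add_apply, Measure.dirac_apply' _ hm,
      Measure.dirac_apply' _ hm, Set.indicator_of_notMem, Set.indicator_of_notMem]
    · simp
    · simp only [Set.mem_ofPred_eq, not_not, abs_neg]
      exact hle
    · simp only [Set.mem_ofPred_eq, not_not]
      exact hle
  · intro f hf
    rw [integral_law h1.le]
    have h0 : f 0 = 0 := by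
      have := hf 0
      rw [neg_zero] at this
      linarith
    rw [h0, mul_zero, zero_add]
    refine Finset.sum_eq_zero fun s _ => ?_
    have := hf (2 ^ (s + 1))
    rw [this]
    ring
  · intro y
    rw [integral_law h1.le]
    rcases eq_or_ne y 0 with rfl | hy
    · simp only [zero_mul, abs_zero, mul_zero]
      rw [Real.zero_rpow (by linarith)]
      simp
    · set t : ℝ := |y| with ht
      have ht0 : 0 < t := abs_pos.mpr hy
      have e0 : min |y * 0| (|y * 0| ^ 2) = 0 := by simp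
      rw [e0, mul_zero, zero_add]
      have e1 : ∀ s ∈ Finset.range n, wt q s / 2 *
          (min |y * 2 ^ (s + 1)| (|y * 2 ^ (s + 1)| ^ 2) +
            min |y * -2 ^ (s + 1)| (|y * -2 ^ (s + 1)| ^ 2)) =
          t ^ q * min ((t * 2 ^ (s + 1)) ^ (-(q - 1))) ((t * 2 ^ (s + 1)) ^ (2 - q)) := by
        intro s _
        set z : ℝ := t * 2 ^ (s + 1) with hz
        have hz0 : 0 < z := by positivity
        have a1 : |y * 2 ^ (s + 1)| = z := by
          rw [abs_mul, abs_of_pos (by positivity : (0 : ℝ) < 2 ^ (s + 1))]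
        have a2 : |y * -2 ^ (s + 1)| = z := by
          rw [mul_neg, abs_neg, a1]
        rw [a1, a2]
        have a3 : wt q s = t ^ q * z ^ (-q) := by
          unfold wt
          rw [hz, Real.mul_rpow ht0.le (by positivity), ← mul_assoc, ← Real.rpow_add ht0,
            add_neg_cancel, Real.rpow_zero, one_mul, ← Real.rpow_natCast 2 (s + 1),
            ← Real.rpow_mul (by norm_num)]
          congr 1
          push_cast
          ring
        have a4 : z ^ (-(q - 1)) = z ^ (-q) * z := by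
          rw [show -(q - 1) = -q + 1 by ring, Real.rpow_add hz0, Real.rpow_one]
        have a5 : z ^ (2 - q) = z ^ (-q) * z ^ 2 := by
          rw [show 2 - q = -q + 2 by ring, Real.rpow_add hz0]
          norm_num
        rw [a3, a4, a5, ← mul_min_of_nonneg _ _ (by positivity)]
        ring
      rw [Finset.sum_congr rfl e1, ← Finset.mul_sum, mul_comm]
      gcongr
      rw [← Finset.sum_filter_add_sum_filter_not (Finset.range n)
        (fun s => 1 ≤ t * 2 ^ (s + 1))]
      unfold lawC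
      gcongr
      · refine (Finset.sum_le_sum fun s _ => min_le_left _ _).trans ?_
        refine sum_high_le (by linarith) _ ?_
        intro s hs
        exact (Finset.mem_filter.mp hs).2
      · refine (Finset.sum_le_sum fun s _ => min_le_right _ _).trans ?_
        refine sum_low_le ht0 (by linarith) _ ?_
        intro s hs
        exact (not_le.mp (Finset.mem_filter.mp hs).2).le

lemma integral_rpow_law {q : ℝ} (h1 : 1 < q) (n : ℕ) :
    ∫ x, |x| ^ q ∂(law q n) = n := by
  rw [integral_law h1.le, abs_zero, Real.zero_rpow (by linarith), mul_zero, zero_add]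
  have e1 : ∀ s ∈ Finset.range n, wt q s / 2 *
      (|(2 : ℝ) ^ (s + 1)| ^ q + |(-2 ^ (s + 1) : ℝ)| ^ q) = 1 := by
    intro s _
    rw [abs_neg, abs_of_pos (by positivity)]
    have : ((2 : ℝ) ^ (s + 1)) ^ q = 2 ^ (q * ((s : ℝ) + 1)) := by
      rw [← Real.rpow_natCast 2 (s + 1), ← Real.rpow_mul (by norm_num)]
      congr 1
      push_cast
      ring
    rw [this]
    unfold wt
    have h3 : (2 : ℝ) ^ (-q * ((s : ℝ) + 1)) * 2 ^ (q * ((s : ℝ) + 1)) = 1 := by
      rw [← Real.rpow_add (by norm_num)]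
      simp
    linarith
  rw [Finset.sum_congr rfl e1]
  simp

end Pool.Agent.Helper630.Stable
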