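import Mathlib
import Pool.Agent.Helper630.Stable.S5

open MeasureTheory ProbabilityTheory Finset Filter

namespace Pool.Agent.Helper630.Stable

lemma exists_sizes {q : ℝ} (hq1 : 1 < q) (hq2 : q < 2) {μ : ℝ} (hμ : 0 < μ) {C R₀ : ℕ}
    (hC : 1 ≤ C) (D : ℝ) {ε : ℝ} (hε : 0 < ε) :
    ∃ N M : ℕ, 1 ≤ N ∧ 1 ≤ M ∧ D * (M : ℝ) ^ 2 ≤ (N : ℝ) ^ (1 / q) ∧
      ((N : ℝ) ^ C * Real.exp (2 * R₀)) ^ (2 * M) * Real.exp (-(8 * C * μ * (M : ℝ) ^ 2)) ≤ ε ∧
      Real.exp (-(4 * N)) ≤ ε := by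
  have hC' : (1 : ℝ) ≤ C := by exact_mod_cast hC
  have hcast : Tendsto (fun M : ℕ => (M : ℝ)) atTop atTop := tendsto_natCast_atTop_atTop
  have t1 : Tendsto (fun M : ℕ => Real.exp (μ * M)) atTop atTop :=
    Real.tendsto_exp_atTop.comp (hcast.const_mul_atTop hμ)
  have e1 : ∀ᶠ M : ℕ in atTop, 2 ≤ Real.exp (μ * M) := t1.eventually_ge_atTop 2
  have e2 : ∀ᶠ M : ℕ in atTop, 1 ≤ M := eventually_ge_atTop 1
  have e3 : ∀ᶠ M : ℕ in atTop, 2 * (D * (M : ℝ) ^ 2) ^ 2 ≤ Real.exp (μ * M) := by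
    have h1 : Tendsto (fun x : ℝ => x ^ 4 * Real.exp (-x)) atTop (nhds 0) :=
      Real.tendsto_pow_mul_exp_neg_atTop_nhds_zero 4
    have h2 : Tendsto (fun M : ℕ => (μ * (M : ℝ)) ^ 4 * Real.exp (-(μ * M))) atTop (nhds 0) :=
      h1.comp (hcast.const_mul_atTop hμ)
    have hpos : (0 : ℝ) < μ ^ 4 / (2 * D ^ 2 + 1) := by positivity
    filter_upwards [h2.eventually_lt_const hpos] with M hM
    have hexp : 0 < Real.exp (μ * M) := Real.exp_pos _
    rw [Real.exp_neg, ← div_eq_mul_inv, div_lt_iff₀ hexp, mul_pow] at hM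
    have h3 : μ ^ 4 * ((2 * D ^ 2 + 1) * (M : ℝ) ^ 4) < μ ^ 4 * Real.exp (μ * M) := by
      have h4 : μ ^ 4 / (2 * D ^ 2 + 1) * Real.exp (μ * M) * (2 * D ^ 2 + 1) =
          μ ^ 4 * Real.exp (μ * M) := by field_simp
      rw [← h4]
      have h5 := mul_lt_mul_of_pos_right hM (by positivity : (0 : ℝ) < 2 * D ^ 2 + 1)
      linarith
    have h6 : (2 * D ^ 2 + 1) * (M : ℝ) ^ 4 < Real.exp (μ * M) :=
      lt_of_mul_lt_mul_left h3 (by positivity)
    have h7 : (0 : ℝ) ≤ (M : ℝ) ^ 4 := by positivity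
    nlinarith
  have e4 : ∀ᶠ M : ℕ in atTop, 4 * (R₀ : ℝ) ≤ 5 * C * μ * M := by
    have : Tendsto (fun M : ℕ => 5 * C * μ * (M : ℝ)) atTop atTop :=
      hcast.const_mul_atTop (by positivity)
    exact this.eventually_ge_atTop _
  have e5 : ∀ᶠ M : ℕ in atTop, Real.exp (-(C * μ * M)) ≤ ε := by
    have : Tendsto (fun M : ℕ => Real.exp (-(C * μ * M))) atTop (nhds 0) := by
      refine Real.tendsto_exp_neg_atTop_nhds_zero.comp ?_
      exact hcast.const_mul_atTop (by positivity)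
    exact this.eventually_le_const hε
  have e6 : ∀ᶠ M : ℕ in atTop, Real.exp (-(Real.exp (μ * M))) ≤ ε := by
    have : Tendsto (fun M : ℕ => Real.exp (-(Real.exp (μ * M)))) atTop (nhds 0) :=
      Real.tendsto_exp_neg_atTop_nhds_zero.comp t1
    exact this.eventually_le_const hε
  obtain ⟨M, h1, h2, h3, h4, h5, h6⟩ :=
    (e1.and (e2.and (e3.and (e4.and (e5.and e6))))).exists
  have hM1 : (1 : ℝ) ≤ M := by exact_mod_cast h2
  set N : ℕ := ⌊Real.exp (μ * M)⌋₊ with hN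
  have hNle : (N : ℝ) ≤ Real.exp (μ * M) := Nat.floor_le (Real.exp_pos _).le
  have hNge : Real.exp (μ * M) / 2 ≤ N := by
    have := Nat.lt_floor_add_one (Real.exp (μ * M))
    rw [← hN] at this
    linarith
  have hN1 : (1 : ℝ) ≤ N := by linarith
  refine ⟨N, M, by exact_mod_cast hN1, h2, ?_, ?_, ?_⟩
  · have a1 : (D * (M : ℝ) ^ 2) ^ 2 ≤ N := by linarith
    calc D * (M : ℝ) ^ 2 ≤ √N := Real.le_sqrt_of_sq_le a1
      _ = (N : ℝ) ^ (1 / 2 : ℝ) := Real.sqrt_eq_rpow _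
      _ ≤ (N : ℝ) ^ (1 / q) := by
          apply Real.rpow_le_rpow_of_exponent_le hN1
          exact one_div_le_one_div_of_le (by linarith) hq2.le
  · calc ((N : ℝ) ^ C * Real.exp (2 * R₀)) ^ (2 * M) * Real.exp (-(8 * C * μ * (M : ℝ) ^ 2))
        ≤ ((Real.exp (μ * M)) ^ C * Real.exp (2 * R₀)) ^ (2 * M) *
          Real.exp (-(8 * C * μ * (M : ℝ) ^ 2)) := by gcongr
      _ = Real.exp (2 * M * (C * (μ * M) + 2 * R₀) - 8 * C * μ * (M : ℝ) ^ 2) := by
          rw [← Real.exp_nat_mul, ← Real.exp_add, ← Real.exp_nat_mul, ← Real.exp_add]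
          congr 1
          push_cast
          ring
      _ ≤ Real.exp (-(C * μ * M)) := by
          apply Real.exp_le_exp.mpr
          have b1 : (0 : ℝ) ≤ C * μ := by positivity
          nlinarith [mul_nonneg b1 (by linarith : (0 : ℝ) ≤ (M : ℝ) - 1)]
      _ ≤ ε := h5
  · refine le_trans (Real.exp_le_exp.mpr ?_) h6
    have := Real.exp_pos (μ * M)
    linarith

theorem matrix_exists (q : ℝ) (hq1 : 1 < q) (hq2 : q < 2) :
    ∃ C₁ : ℝ, 0 < C₁ ∧ ∀ R : ℝ, ∃ K : ℝ, 1 ≤ K ∧ ∀ (C : ℕ) (D : ℝ), 1 ≤ C →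
      ∃ (N M : ℕ) (v : Fin N → Fin N → ℝ), 1 ≤ N ∧ 1 ≤ M ∧
        D * (M : ℝ) ^ 2 ≤ (N : ℝ) ^ (1 / q) ∧
        (∀ i l, |v i l| ≤ K) ∧
        (∀ x y : Fin N → ℝ, |bil v x y| ≤ K * √N * √(∑ i, x i ^ 2) * √(∑ i, y i ^ 2)) ∧
        R * (N : ℝ) ^ 2 ≤ ∑ i, ∑ l, |v i l| ^ q ∧
        (∀ a b : Fin M → Fin N → ℝ,
          (∀ r, ∑ i, |a r i| ^ q ≤ 1) → (∀ r, ∑ i, |b r i| ^ q ≤ 1) →
          (∀ r, (Finset.univ.filter (fun i => a r i ≠ 0)).card ≤ C) →
          (∀ r, (Finset.univ.filter (fun i => b r i ≠ 0)).card ≤ C) →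
          (∀ r s, r ≠ s → ∀ i, a r i = 0 ∨ a s i = 0) →
          (∀ r s, r ≠ s → ∀ i, b r i = 0 ∨ b s i = 0) →
          ∑ r, ∑ s, |bil v (a r) (b s)| ≤ C₁ * (M : ℝ) ^ 2) := by
  have : Fact (1 ≤ q) := ⟨hq1.le⟩
  have hL : 0 < lawC q := lawC_pos hq1 hq2
  set C₂ : ℝ := lawC q + √(lawC q) with hC₂
  have hC₂0 : 0 < C₂ := by positivity
  refine ⟨4 * C₂, by positivity, fun R => ?_⟩
  obtain ⟨n, hn⟩ := exists_nat_ge (max (2 * R) 1)
  have hn1 : (1 : ℝ) ≤ n := (le_max_right _ _).trans hn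
  have hnR : 2 * R ≤ n := (le_max_left _ _).trans hn
  set K : ℝ := 2 ^ n with hK
  have hK1 : (1 : ℝ) ≤ K := one_le_pow₀ (by norm_num)
  have hK0 : 0 < K := by linarith
  refine ⟨18 * K, by linarith, fun C D hC => ?_⟩
  have hC' : (1 : ℝ) ≤ C := by exact_mod_cast hC
  have hC0 : (0 : ℝ) < C := by linarith
  -- rounding parameter
  obtain ⟨R₀, hR₀⟩ := exists_nat_ge (max (2 * K * C ^ 2 / C₂) 1)
  have hR1 : 1 ≤ R₀ := by exact_mod_cast (le_max_right _ _).trans hR₀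
  have hR2 : 2 * K * C ^ 2 ≤ C₂ * R₀ := by
    have := (le_max_left _ _).trans hR₀
    rw [div_le_iff₀ hC₂0] at this
    linarith
  set μ : ℝ := C₂ / (8 * K * C ^ 3) with hμ
  have hμ0 : 0 < μ := by positivity
  set ε : ℝ := n / (8 * K ^ q) with hε
  have hKq : 0 < K ^ q := by positivity
  have hε0 : 0 < ε := by positivity
  obtain ⟨N, M, hN, hM, hD, hb1, hb2⟩ := exists_sizes hq1 hq2 hμ0 (R₀ := R₀) hC D hε0
  have hN' : (1 : ℝ) ≤ N := by exact_mod_cast hN
  have hgood := law_good hq1 hq2 n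
  obtain ⟨B1, hB1, hB1'⟩ := PM_event (N := N) (C := C) (M := M) (R := R₀) hgood hL (by linarith)
    hK0 hN hC hR1 hR2
  obtain ⟨B2, hB2, hB2'⟩ := opnorm_event (N := N) hgood hK0 hN
  have hμC : (lawC q + √(lawC q)) * (M : ℝ) ^ 2 / (2 ^ n * C ^ 2) = 8 * C * μ * (M : ℝ) ^ 2 := by
    rw [hμ, ← hC₂, ← hK]
    field_simp
  rw [hμC] at hB1
  set P : Measure (Fin N × Fin N → ℝ) := Measure.pi fun _ => law q n with hP
  -- averaging argument
  obtain ⟨ω, hω1, hω2, hωK, hωZ⟩ : ∃ ω, ω ∉ B1 ∧ ω ∉ B2 ∧ (∀ i, |ω i| ≤ K) ∧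
      (n : ℝ) / 2 * (N : ℝ) ^ 2 ≤ ∑ il, |ω il| ^ q := by
    by_contra hcon
    push Not at hcon
    have hZint : ∀ il : Fin N × Fin N, Integrable (fun ω : Fin N × Fin N → ℝ => |ω il| ^ q) P := by
      intro il
      refine integrable_comp_eval (μ := fun _ => law q n) (f := fun x : ℝ => |x| ^ q) ?_
      refine hgood.integrable_comp (B := K ^ q) (by fun_prop) ?_
      intro x hx
      rw [abs_of_nonneg (by positivity)]
      exact Real.rpow_le_rpow (abs_nonneg _) hx (by linarith)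
    have hZ : ∫ ω, ∑ il, |ω il| ^ q ∂P = n * (N : ℝ) ^ 2 := by
      rw [integral_finsetSum _ fun il _ => hZint il]
      have : ∀ il ∈ (Finset.univ : Finset (Fin N × Fin N)), ∫ ω, |ω il| ^ q ∂P = n := by
        intro il _
        rw [← integral_rpow_law hq1 n]
        have hm : Measurable (fun x : ℝ => |x| ^ q) := by fun_prop
        exact integral_comp_eval (μ := fun _ => law q n) (f := fun x : ℝ => |x| ^ q)
          hm.aestronglyMeasurable
      rw [Finset.sum_congr rfl this, Finset.sum_const, Finset.card_univ, Fintype.card_prod,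
        Fintype.card_fin, nsmul_eq_mul]
      push_cast
      ring
    set T := toMeasurable P (B1 ∪ B2) with hT
    have hTm : MeasurableSet T := measurableSet_toMeasurable _ _
    have hTP : P.real T ≤ 2 * ε := by
      have h1 : P.real T = P.real (B1 ∪ B2) := by
        unfold Measure.real
        rw [hT, measure_toMeasurable]
      rw [h1]
      refine (measureReal_union_le _ _).trans ?_
      have := hB1.trans hb1
      have := hB2.trans hb2
      linarith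
    have hpt : ∀ᵐ ω ∂P, ∑ il, |ω il| ^ q ≤
        (n : ℝ) / 2 * (N : ℝ) ^ 2 + T.indicator (fun _ => K ^ q * (N : ℝ) ^ 2) ω := by
      filter_upwards [hgood.ae_pi (I := Fin N × Fin N)] with ω hω
      by_cases hωT : ω ∈ T
      · rw [Set.indicator_of_mem hωT]
        have h1 : ∑ il, |ω il| ^ q ≤ K ^ q * (N : ℝ) ^ 2 := by
          calc ∑ il, |ω il| ^ q ≤ ∑ il : Fin N × Fin N, K ^ q :=
                Finset.sum_le_sum fun il _ =>
                  Real.rpow_le_rpow (abs_nonneg _) (hω il) (by linarith)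
            _ = K ^ q * (N : ℝ) ^ 2 := by
                rw [Finset.sum_const, Finset.card_univ, Fintype.card_prod, Fintype.card_fin,
                  nsmul_eq_mul]
                push_cast
                ring
        have h2 : (0 : ℝ) ≤ (n : ℝ) / 2 * (N : ℝ) ^ 2 := by positivity
        linarith
      · rw [Set.indicator_of_notMem hωT, add_zero]
        have h1 : ω ∉ B1 ∪ B2 := fun h => hωT (subset_toMeasurable _ _ h)
        rw [Set.mem_union, not_or] at h1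
        exact (hcon ω h1.1 h1.2 hω).le
    have hint : ∫ ω, ∑ il, |ω il| ^ q ∂P ≤ (n : ℝ) / 2 * (N : ℝ) ^ 2 +
        P.real T * (K ^ q * (N : ℝ) ^ 2) := by
      refine (integral_mono_ae (integrable_finsetSum _ fun il _ => hZint il) ?_ hpt).trans ?_
      · exact (integrable_const _).add ((integrable_const _).indicator hTm)
      · rw [integral_add (integrable_const _) ((integrable_const _).indicator hTm),
          integral_indicator_const _ hTm, integral_const]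
        simp
    rw [hZ] at hint
    have h1 : P.real T * (K ^ q * (N : ℝ) ^ 2) ≤ 2 * ε * (K ^ q * (N : ℝ) ^ 2) := by gcongr
    have h2 : 2 * ε * (K ^ q * (N : ℝ) ^ 2) = n / 4 * (N : ℝ) ^ 2 := by
      rw [hε]
      field_simp
      norm_num
    have h3 : 0 < (n : ℝ) * (N : ℝ) ^ 2 := by positivity
    nlinarith
  refine ⟨N, M, fun i l => ω (i, l), hN, hM, hD, ?_, ?_, ?_, ?_⟩
  · intro i l
    exact (hωK (i, l)).trans (by linarith)
  · intro x y
    exact hB2' ω hω2 x y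
  · rw [← Fintype.sum_prod_type' (fun i l => |ω (i, l)| ^ q)]
    refine le_trans ?_ hωZ
    gcongr
    linarith
  · intro a b ha hb hac hbc had hbd
    exact hB1' ω hω1 hωK a b ha hb hac hbc had hbd

end Pool.Agent.Helper630.Stable
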