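import Mathlib
import Pool.Agent.Helper630.Stable.S6

open Finset

namespace Pool.Agent.Helper630.Stable

section sampling

variable {ι : Type*} [Fintype ι] {M : ℕ}

lemma sum_prod_pi (h : Fin M → ι → ℝ) :
    ∑ k : Fin M → ι, ∏ r, h r (k r) = ∏ r, ∑ x, h r x := by
  classical
  rw [Finset.prod_univ_sum, Fintype.piFinset_univ]

lemma samp_two (w : ι → ℝ) (hw : ∑ x, w x = 1) (f g : ι → ℝ) {r r' : Fin M} (hr : r ≠ r') :
    ∑ k : Fin M → ι, (∏ s, w (k s)) * (f (k r) * g (k r')) =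
      (∑ x, w x * f x) * ∑ x, w x * g x := by
  classical
  have h1 := sum_prod_pi (M := M) (fun s x => w x * ((if s = r then f x else 1) *
    (if s = r' then g x else 1)))
  have h2 : ∀ k : Fin M → ι, ∏ s, (w (k s) * ((if s = r then f (k s) else 1) *
      (if s = r' then g (k s) else 1))) = (∏ s, w (k s)) * (f (k r) * g (k r')) := by
    intro k
    rw [Finset.prod_mul_distrib, Finset.prod_mul_distrib]
    congr 1
    congr 1
    · rw [Finset.prod_ite_eq' Finset.univ r (fun s => f (k s))]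
      simp
    · rw [Finset.prod_ite_eq' Finset.univ r' (fun s => g (k s))]
      simp
  have h3 : ∀ s : Fin M, ∑ x, w x * ((if s = r then f x else 1) * (if s = r' then g x else 1)) =
      (if s = r then ∑ x, w x * f x else 1) * (if s = r' then ∑ x, w x * g x else 1) := by
    intro s
    by_cases h : s = r
    · have h' : s ≠ r' := by rw [h]; exact hr
      simp [h, hr]
    · by_cases h' : s = r'
      · have h'' : ¬ r' = r := fun e => hr e.symm
        simp [h', h'']
      · simp [h, h', hw]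
  simp only [h2] at h1
  rw [h1, Finset.prod_congr rfl fun s _ => h3 s, Finset.prod_mul_distrib]
  congr 1 <;> simp

lemma samp_one (w : ι → ℝ) (hw : ∑ x, w x = 1) (f : ι → ℝ) (r : Fin M) :
    ∑ k : Fin M → ι, (∏ s, w (k s)) * f (k r) = ∑ x, w x * f x := by
  classical
  have h1 := sum_prod_pi (M := M) (fun s x => w x * (if s = r then f x else 1))
  have h2 : ∀ k : Fin M → ι, ∏ s, (w (k s) * (if s = r then f (k s) else 1)) =
      (∏ s, w (k s)) * f (k r) := by
    intro k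
    rw [Finset.prod_mul_distrib]
    congr 1
    rw [Finset.prod_ite_eq' Finset.univ r (fun s => f (k s))]
    simp
  have h3 : ∀ s : Fin M, ∑ x, w x * (if s = r then f x else 1) =
      (if s = r then ∑ x, w x * f x else 1) := by
    intro s
    by_cases h : s = r
    · simp [h]
    · simp [h, hw]
  simp only [h2] at h1
  rw [h1, Finset.prod_congr rfl fun s _ => h3 s]
  simp

lemma samp_zero (w : ι → ℝ) (hw : ∑ x, w x = 1) :
    ∑ k : Fin M → ι, (∏ s, w (k s)) = 1 := by
  have h1 := sum_prod_pi (M := M) (fun _ x => w x)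
  rw [h1]
  simp [hw]

/-- The number of overlaps of the supports in a sample. -/
noncomputable def overlap {N : ℕ} (a : ι → Fin N → ℝ) (k : Fin M → ι) : ℝ :=
  ∑ r, ∑ r', if r = r' then 0 else
    ∑ i, (if a (k r) i = 0 then (0 : ℝ) else 1) * (if a (k r') i = 0 then (0 : ℝ) else 1)

omit [Fintype ι] in
lemma overlap_nonneg {N : ℕ} (a : ι → Fin N → ℝ) (k : Fin M → ι) : 0 ≤ overlap a k := by
  unfold overlap
  refine Finset.sum_nonneg fun r _ => Finset.sum_nonneg fun r' _ => ?_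
  split_ifs
  · exact le_rfl
  · refine Finset.sum_nonneg fun i _ => ?_
    split_ifs <;> norm_num

omit [Fintype ι] in
lemma one_le_overlap {N : ℕ} (a : ι → Fin N → ℝ) (k : Fin M → ι)
    (h : ¬ ∀ r s, r ≠ s → ∀ i, a (k r) i = 0 ∨ a (k s) i = 0) : 1 ≤ overlap a k := by
  push Not at h
  obtain ⟨r, s, hrs, i, hi1, hi2⟩ := h
  unfold overlap
  have hn : ∀ r r' : Fin M, 0 ≤ (if r = r' then (0 : ℝ) else
      ∑ i, (if a (k r) i = 0 then (0 : ℝ) else 1) * (if a (k r') i = 0 then (0 : ℝ) else 1)) := by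
    intro r r'
    split_ifs
    · exact le_rfl
    · refine Finset.sum_nonneg fun i _ => ?_
      split_ifs <;> norm_num
  calc (1 : ℝ) = (fun i => (if a (k r) i = 0 then (0 : ℝ) else 1) *
        (if a (k s) i = 0 then (0 : ℝ) else 1)) i := by simp [hi1, hi2]
    _ ≤ ∑ i, (if a (k r) i = 0 then (0 : ℝ) else 1) *
        (if a (k s) i = 0 then (0 : ℝ) else 1) := by
        refine Finset.single_le_sum (f := fun i => (if a (k r) i = 0 then (0 : ℝ) else 1) *
          (if a (k s) i = 0 then (0 : ℝ) else 1)) (fun i _ => ?_) (Finset.mem_univ i)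
        split_ifs <;> norm_num
    _ = (if r = s then (0 : ℝ) else ∑ i, (if a (k r) i = 0 then (0 : ℝ) else 1) *
        (if a (k s) i = 0 then (0 : ℝ) else 1)) := by rw [if_neg hrs]
    _ ≤ ∑ r', (if r = r' then (0 : ℝ) else ∑ i, (if a (k r) i = 0 then (0 : ℝ) else 1) *
        (if a (k r') i = 0 then (0 : ℝ) else 1)) :=
        Finset.single_le_sum (f := fun r' => (if r = r' then (0 : ℝ) else
          ∑ i, (if a (k r) i = 0 then (0 : ℝ) else 1) *
          (if a (k r') i = 0 then (0 : ℝ) else 1))) (fun r' _ => hn r r') (Finset.mem_univ s)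
    _ ≤ _ := Finset.single_le_sum (f := fun r => ∑ r', (if r = r' then (0 : ℝ) else
          ∑ i, (if a (k r) i = 0 then (0 : ℝ) else 1) *
          (if a (k r') i = 0 then (0 : ℝ) else 1))) (fun r _ => Finset.sum_nonneg
            fun r' _ => hn r r') (Finset.mem_univ r)

lemma expect_overlap_le {N C : ℕ} (a : ι → Fin N → ℝ) (w : ι → ℝ) (hw0 : ∀ x, 0 ≤ w x)
    (hw : ∑ x, w x = 1) {κ : ℝ} (hκ : ∀ i, ∑ x, w x * (if a x i = 0 then (0 : ℝ) else 1) ≤ κ)
    (hκ0 : 0 ≤ κ)
    (hC : ∀ x, (Finset.univ.filter (fun i => a x i ≠ 0)).card ≤ C) :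
    ∑ k : Fin M → ι, (∏ s, w (k s)) * overlap a k ≤ (M : ℝ) ^ 2 * (C * κ) := by
  classical
  have hpair : ∀ r r' : Fin M, r ≠ r' → ∑ k : Fin M → ι, (∏ s, w (k s)) *
      (∑ i, (if a (k r) i = 0 then (0 : ℝ) else 1) * (if a (k r') i = 0 then (0 : ℝ) else 1)) ≤
      C * κ := by
    intro r r' hr
    have h1 : ∀ k : Fin M → ι, (∏ s, w (k s)) * (∑ i, (if a (k r) i = 0 then (0 : ℝ) else 1) *
        (if a (k r') i = 0 then (0 : ℝ) else 1)) = ∑ i, (∏ s, w (k s)) *
        ((if a (k r) i = 0 then (0 : ℝ) else 1) * (if a (k r') i = 0 then (0 : ℝ) else 1)) :=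
      fun k => Finset.mul_sum _ _ _
    rw [Finset.sum_congr rfl fun k _ => h1 k, Finset.sum_comm]
    have h2 : ∀ i, ∑ k : Fin M → ι, (∏ s, w (k s)) * ((if a (k r) i = 0 then (0 : ℝ) else 1) *
        (if a (k r') i = 0 then (0 : ℝ) else 1)) =
        (∑ x, w x * (if a x i = 0 then (0 : ℝ) else 1)) *
        ∑ x, w x * (if a x i = 0 then (0 : ℝ) else 1) := by
      intro i
      exact samp_two w hw (fun x => if a x i = 0 then (0 : ℝ) else 1)
        (fun x => if a x i = 0 then (0 : ℝ) else 1) hr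
    rw [Finset.sum_congr rfl fun i _ => h2 i]
    have hn : ∀ i, 0 ≤ ∑ x, w x * (if a x i = 0 then (0 : ℝ) else 1) := by
      intro i
      refine Finset.sum_nonneg fun x _ => mul_nonneg (hw0 x) ?_
      split_ifs <;> norm_num
    calc ∑ i, (∑ x, w x * (if a x i = 0 then (0 : ℝ) else 1)) *
        ∑ x, w x * (if a x i = 0 then (0 : ℝ) else 1)
        ≤ ∑ i, (∑ x, w x * (if a x i = 0 then (0 : ℝ) else 1)) * κ := by
          refine Finset.sum_le_sum fun i _ => mul_le_mul_of_nonneg_left (hκ i) (hn i)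
      _ = (∑ x, w x * ∑ i, (if a x i = 0 then (0 : ℝ) else 1)) * κ := by
          rw [← Finset.sum_mul, Finset.sum_comm]
          congr 1
          refine Finset.sum_congr rfl fun x _ => ?_
          rw [Finset.mul_sum]
      _ ≤ (∑ x, w x * C) * κ := by
          refine mul_le_mul_of_nonneg_right ?_ hκ0
          refine Finset.sum_le_sum fun x _ => mul_le_mul_of_nonneg_left ?_ (hw0 x)
          have h3 : ∑ i, (if a x i = 0 then (0 : ℝ) else 1) =
              ((Finset.univ.filter (fun i => a x i ≠ 0)).card : ℝ) := by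
            rw [← Finset.sum_boole]
            refine Finset.sum_congr rfl fun i _ => ?_
            by_cases h : a x i = 0 <;> simp [h]
          rw [h3]
          exact_mod_cast hC x
      _ = C * κ := by rw [← Finset.sum_mul, hw, one_mul]
  have h1 : ∀ k : Fin M → ι, (∏ s, w (k s)) * overlap a k = ∑ r, ∑ r', (∏ s, w (k s)) *
      (if r = r' then 0 else ∑ i, (if a (k r) i = 0 then (0 : ℝ) else 1) *
        (if a (k r') i = 0 then (0 : ℝ) else 1)) := by
    intro k
    unfold overlap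
    rw [Finset.mul_sum]
    refine Finset.sum_congr rfl fun r _ => ?_
    rw [Finset.mul_sum]
  rw [Finset.sum_congr rfl fun k _ => h1 k, Finset.sum_comm]
  have h2 : ∀ r : Fin M, ∑ k : Fin M → ι, ∑ r', (∏ s, w (k s)) *
      (if r = r' then 0 else ∑ i, (if a (k r) i = 0 then (0 : ℝ) else 1) *
        (if a (k r') i = 0 then (0 : ℝ) else 1)) ≤ M * (C * κ) := by
    intro r
    rw [Finset.sum_comm]
    calc _ ≤ ∑ r' : Fin M, (C : ℝ) * κ := by
          refine Finset.sum_le_sum fun r' _ => ?_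
          by_cases h : r = r'
          · simp only [h, if_true, mul_zero, Finset.sum_const_zero]
            positivity
          · simp only [h, if_false]
            exact hpair r r' h
      _ = M * (C * κ) := by simp
  calc _ ≤ ∑ r : Fin M, (M : ℝ) * (C * κ) := Finset.sum_le_sum fun r _ => h2 r
    _ = (M : ℝ) ^ 2 * (C * κ) := by
        simp
        ring

end sampling

/-- The sampling lemma for probability weights. -/
lemma sampling_prob {ι ι' : Type*} [Fintype ι] [Fintype ι'] {N M C : ℕ} (hM : 1 ≤ M)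
    {v : Fin N → Fin N → ℝ} {q C₁ K' κ : ℝ} (hC₁ : 0 ≤ C₁) (hK' : 0 ≤ K') (hκ0 : 0 ≤ κ)
    (hPM : ∀ a b : Fin M → Fin N → ℝ,
          (∀ r, ∑ i, |a r i| ^ q ≤ 1) → (∀ r, ∑ i, |b r i| ^ q ≤ 1) →
          (∀ r, (Finset.univ.filter (fun i => a r i ≠ 0)).card ≤ C) →
          (∀ r, (Finset.univ.filter (fun i => b r i ≠ 0)).card ≤ C) →
          (∀ r s, r ≠ s → ∀ i, a r i = 0 ∨ a s i = 0) →
          (∀ r s, r ≠ s → ∀ i, b r i = 0 ∨ b s i = 0) →
          ∑ r, ∑ s, |bil v (a r) (b s)| ≤ C₁ * (M : ℝ) ^ 2)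
    (a : ι → Fin N → ℝ) (b : ι' → Fin N → ℝ)
    (ha : ∀ x, ∑ i, |a x i| ^ q ≤ 1) (hb : ∀ x, ∑ i, |b x i| ^ q ≤ 1)
    (hac : ∀ x, (Finset.univ.filter (fun i => a x i ≠ 0)).card ≤ C)
    (hbc : ∀ x, (Finset.univ.filter (fun i => b x i ≠ 0)).card ≤ C)
    (hF : ∀ x y, |bil v (a x) (b y)| ≤ K')
    (w : ι → ℝ) (hw0 : ∀ x, 0 ≤ w x) (hw : ∑ x, w x = 1)
    (w' : ι' → ℝ) (hw0' : ∀ x, 0 ≤ w' x) (hw' : ∑ x, w' x = 1)
    (hκ : ∀ i, ∑ x, w x * (if a x i = 0 then (0 : ℝ) else 1) ≤ κ)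
    (hκ' : ∀ i, ∑ x, w' x * (if b x i = 0 then (0 : ℝ) else 1) ≤ κ) :
    ∑ x, ∑ y, w x * w' y * |bil v (a x) (b y)| ≤ C₁ + 2 * K' * (M : ℝ) ^ 2 * (C * κ) := by
  classical
  have hM' : (1 : ℝ) ≤ M := by exact_mod_cast hM
  have hpt : ∀ (k : Fin M → ι) (j : Fin M → ι'), ∑ r, ∑ s, |bil v (a (k r)) (b (j s))| ≤
      C₁ * (M : ℝ) ^ 2 + K' * (M : ℝ) ^ 2 * (overlap a k + overlap b j) := by
    intro k j
    have ho1 := overlap_nonneg a k
    have ho2 := overlap_nonneg b j
    have htriv : ∑ r, ∑ s, |bil v (a (k r)) (b (j s))| ≤ K' * (M : ℝ) ^ 2 := by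
      calc ∑ r, ∑ s, |bil v (a (k r)) (b (j s))| ≤ ∑ r : Fin M, ∑ s : Fin M, K' :=
            Finset.sum_le_sum fun r _ => Finset.sum_le_sum fun s _ => hF _ _
        _ = K' * (M : ℝ) ^ 2 := by
            simp
            ring
    by_cases h1 : ∀ r s, r ≠ s → ∀ i, a (k r) i = 0 ∨ a (k s) i = 0
    · by_cases h2 : ∀ r s, r ≠ s → ∀ i, b (j r) i = 0 ∨ b (j s) i = 0
      · have := hPM (fun r => a (k r)) (fun s => b (j s)) (fun r => ha _) (fun r => hb _)
          (fun r => hac _) (fun r => hbc _) h1 h2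
        have h3 : 0 ≤ K' * (M : ℝ) ^ 2 * (overlap a k + overlap b j) := by positivity
        linarith
      · have h3 := one_le_overlap b j h2
        have h4 : K' * (M : ℝ) ^ 2 * 1 ≤ K' * (M : ℝ) ^ 2 * (overlap a k + overlap b j) := by
          gcongr
          linarith
        have h5 : 0 ≤ C₁ * (M : ℝ) ^ 2 := by positivity
        linarith
    · have h3 := one_le_overlap a k h1
      have h4 : K' * (M : ℝ) ^ 2 * 1 ≤ K' * (M : ℝ) ^ 2 * (overlap a k + overlap b j) := by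
        gcongr
        linarith
      have h5 : 0 ≤ C₁ * (M : ℝ) ^ 2 := by positivity
      linarith
  -- averaging
  have hW : ∀ k : Fin M → ι, 0 ≤ ∏ s, w (k s) := fun k => Finset.prod_nonneg fun s _ => hw0 _
  have hW' : ∀ j : Fin M → ι', 0 ≤ ∏ s, w' (j s) := fun j => Finset.prod_nonneg fun s _ => hw0' _
  have hlhs : ∑ k : Fin M → ι, ∑ j : Fin M → ι', (∏ s, w (k s)) * (∏ s, w' (j s)) *
      (∑ r, ∑ s, |bil v (a (k r)) (b (j s))|) =
      (M : ℝ) ^ 2 * ∑ x, ∑ y, w x * w' y * |bil v (a x) (b y)| := by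
    have e1 : ∀ r s : Fin M, ∑ k : Fin M → ι, ∑ j : Fin M → ι', (∏ s, w (k s)) *
        (∏ s, w' (j s)) * |bil v (a (k r)) (b (j s))| =
        ∑ x, ∑ y, w x * w' y * |bil v (a x) (b y)| := by
      intro r s
      have e2 : ∀ k : Fin M → ι, ∑ j : Fin M → ι', (∏ s, w (k s)) *
          (∏ s, w' (j s)) * |bil v (a (k r)) (b (j s))| =
          (∏ s, w (k s)) * ∑ y, w' y * |bil v (a (k r)) (b y)| := by
        intro k
        rw [← samp_one w' hw' (fun y => |bil v (a (k r)) (b y)|) s, Finset.mul_sum]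
        refine Finset.sum_congr rfl fun j _ => ?_
        ring
      rw [Finset.sum_congr rfl fun k _ => e2 k,
        samp_one w hw (fun x => ∑ y, w' y * |bil v (a x) (b y)|) r]
      refine Finset.sum_congr rfl fun x _ => ?_
      rw [Finset.mul_sum]
      refine Finset.sum_congr rfl fun y _ => ?_
      ring
    calc _ = ∑ k : Fin M → ι, ∑ j : Fin M → ι', ∑ r, ∑ s, (∏ s, w (k s)) * (∏ s, w' (j s)) *
          |bil v (a (k r)) (b (j s))| := by
          refine Finset.sum_congr rfl fun k _ => Finset.sum_congr rfl fun j _ => ?_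
          rw [Finset.mul_sum]
          refine Finset.sum_congr rfl fun r _ => ?_
          rw [Finset.mul_sum]
      _ = ∑ k : Fin M → ι, ∑ r, ∑ j : Fin M → ι', ∑ s, (∏ s, w (k s)) * (∏ s, w' (j s)) *
          |bil v (a (k r)) (b (j s))| := by
          refine Finset.sum_congr rfl fun k _ => Finset.sum_comm
      _ = ∑ r, ∑ k : Fin M → ι, ∑ j : Fin M → ι', ∑ s, (∏ s, w (k s)) * (∏ s, w' (j s)) *
          |bil v (a (k r)) (b (j s))| := Finset.sum_comm
      _ = ∑ r, ∑ k : Fin M → ι, ∑ s, ∑ j : Fin M → ι', (∏ s, w (k s)) * (∏ s, w' (j s)) *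
          |bil v (a (k r)) (b (j s))| := by
          refine Finset.sum_congr rfl fun r _ => Finset.sum_congr rfl fun k _ => Finset.sum_comm
      _ = ∑ r, ∑ s, ∑ k : Fin M → ι, ∑ j : Fin M → ι', (∏ s, w (k s)) * (∏ s, w' (j s)) *
          |bil v (a (k r)) (b (j s))| := by
          refine Finset.sum_congr rfl fun r _ => Finset.sum_comm
      _ = ∑ r : Fin M, ∑ s : Fin M, ∑ x, ∑ y, w x * w' y * |bil v (a x) (b y)| := by
          refine Finset.sum_congr rfl fun r _ => Finset.sum_congr rfl fun s _ => e1 r s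
      _ = _ := by
          simp only [Finset.sum_const, Finset.card_univ, Fintype.card_fin, nsmul_eq_mul]
          ring
  have hrhs : ∑ k : Fin M → ι, ∑ j : Fin M → ι', (∏ s, w (k s)) * (∏ s, w' (j s)) *
      (C₁ * (M : ℝ) ^ 2 + K' * (M : ℝ) ^ 2 * (overlap a k + overlap b j)) =
      C₁ * (M : ℝ) ^ 2 + K' * (M : ℝ) ^ 2 *
      (∑ k : Fin M → ι, (∏ s, w (k s)) * overlap a k +
        ∑ j : Fin M → ι', (∏ s, w' (j s)) * overlap b j) := by
    have z1 := samp_zero (M := M) w hw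
    have z2 := samp_zero (M := M) w' hw'
    have e2 : ∀ k : Fin M → ι, ∑ j : Fin M → ι', (∏ s, w (k s)) * (∏ s, w' (j s)) *
        (C₁ * (M : ℝ) ^ 2 + K' * (M : ℝ) ^ 2 * (overlap a k + overlap b j)) =
        (∏ s, w (k s)) * (C₁ * (M : ℝ) ^ 2 + K' * (M : ℝ) ^ 2 * overlap a k +
          K' * (M : ℝ) ^ 2 * ∑ j : Fin M → ι', (∏ s, w' (j s)) * overlap b j) := by
      intro k
      calc _ = ∑ j : Fin M → ι', ((∏ s, w (k s)) * (C₁ * (M : ℝ) ^ 2 + K' * (M : ℝ) ^ 2 *
            overlap a k) * (∏ s, w' (j s)) + (∏ s, w (k s)) * (K' * (M : ℝ) ^ 2) *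
            ((∏ s, w' (j s)) * overlap b j)) := by
            refine Finset.sum_congr rfl fun j _ => ?_
            ring
        _ = _ := by
            rw [Finset.sum_add_distrib, ← Finset.mul_sum, ← Finset.mul_sum, z2]
            ring
    rw [Finset.sum_congr rfl fun k _ => e2 k]
    calc _ = ∑ k : Fin M → ι, ((C₁ * (M : ℝ) ^ 2 + K' * (M : ℝ) ^ 2 * ∑ j : Fin M → ι',
          (∏ s, w' (j s)) * overlap b j) * (∏ s, w (k s)) + K' * (M : ℝ) ^ 2 *
          ((∏ s, w (k s)) * overlap a k)) := by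
          refine Finset.sum_congr rfl fun k _ => ?_
          ring
      _ = _ := by
          rw [Finset.sum_add_distrib, ← Finset.mul_sum, ← Finset.mul_sum, z1]
          ring
  have hmain : (M : ℝ) ^ 2 * ∑ x, ∑ y, w x * w' y * |bil v (a x) (b y)| ≤
      C₁ * (M : ℝ) ^ 2 + K' * (M : ℝ) ^ 2 * ((M : ℝ) ^ 2 * (C * κ) + (M : ℝ) ^ 2 * (C * κ)) := by
    rw [← hlhs]
    refine le_trans ?_ (le_trans (le_of_eq hrhs) ?_)
    · refine Finset.sum_le_sum fun k _ => Finset.sum_le_sum fun j _ => ?_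
      exact mul_le_mul_of_nonneg_left (hpt k j) (mul_nonneg (hW k) (hW' j))
    · have o1 := expect_overlap_le (M := M) a w hw0 hw hκ hκ0 hac
      have o2 := expect_overlap_le (M := M) b w' hw0' hw' hκ' hκ0 hbc
      gcongr
  have hM2 : (0 : ℝ) < (M : ℝ) ^ 2 := by positivity
  refine le_of_mul_le_mul_left ?_ hM2
  calc _ ≤ _ := hmain
    _ = (M : ℝ) ^ 2 * (C₁ + 2 * K' * (M : ℝ) ^ 2 * (C * κ)) := by ring

/-- The sampling lemma for sub-probability weights. -/
lemma sampling {ι ι' : Type*} [Fintype ι] [Fintype ι'] {N M C : ℕ} (hM : 1 ≤ M)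
    {v : Fin N → Fin N → ℝ} {q C₁ K' κ : ℝ} (hq : 0 < q) (hC₁ : 0 ≤ C₁) (hK' : 0 ≤ K')
    (hκ0 : 0 ≤ κ)
    (hPM : ∀ a b : Fin M → Fin N → ℝ,
          (∀ r, ∑ i, |a r i| ^ q ≤ 1) → (∀ r, ∑ i, |b r i| ^ q ≤ 1) →
          (∀ r, (Finset.univ.filter (fun i => a r i ≠ 0)).card ≤ C) →
          (∀ r, (Finset.univ.filter (fun i => b r i ≠ 0)).card ≤ C) →
          (∀ r s, r ≠ s → ∀ i, a r i = 0 ∨ a s i = 0) →
          (∀ r s, r ≠ s → ∀ i, b r i = 0 ∨ b s i = 0) →
          ∑ r, ∑ s, |bil v (a r) (b s)| ≤ C₁ * (M : ℝ) ^ 2)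
    (a : ι → Fin N → ℝ) (b : ι' → Fin N → ℝ)
    (ha : ∀ x, ∑ i, |a x i| ^ q ≤ 1) (hb : ∀ x, ∑ i, |b x i| ^ q ≤ 1)
    (hac : ∀ x, (Finset.univ.filter (fun i => a x i ≠ 0)).card ≤ C)
    (hbc : ∀ x, (Finset.univ.filter (fun i => b x i ≠ 0)).card ≤ C)
    (hF : ∀ x y, |bil v (a x) (b y)| ≤ K')
    (w : ι → ℝ) (hw0 : ∀ x, 0 ≤ w x) (hw : ∑ x, w x ≤ 1)
    (w' : ι' → ℝ) (hw0' : ∀ x, 0 ≤ w' x) (hw' : ∑ x, w' x ≤ 1)
    (hκ : ∀ i, ∑ x, w x * (if a x i = 0 then (0 : ℝ) else 1) ≤ κ)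
    (hκ' : ∀ i, ∑ x, w' x * (if b x i = 0 then (0 : ℝ) else 1) ≤ κ) :
    ∑ x, ∑ y, w x * w' y * |bil v (a x) (b y)| ≤ C₁ + 2 * K' * (M : ℝ) ^ 2 * (C * κ) := by
  let a₁ : Option ι → Fin N → ℝ := fun x => x.elim (fun _ => 0) a
  let b₁ : Option ι' → Fin N → ℝ := fun x => x.elim (fun _ => 0) b
  let w₁ : Option ι → ℝ := fun x => x.elim (1 - ∑ x, w x) w
  let w₁' : Option ι' → ℝ := fun x => x.elim (1 - ∑ x, w' x) w'
  have h := sampling_prob hM hC₁ hK' hκ0 hPM a₁ b₁ ?_ ?_ ?_ ?_ ?_ w₁ ?_ ?_ w₁' ?_ ?_ ?_ ?_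
  · refine le_trans ?_ h
    rw [Fintype.sum_option]
    have e1 : ∀ x : ι, ∑ y, w x * w' y * |bil v (a x) (b y)| ≤
        ∑ y, w₁ (some x) * w₁' y * |bil v (a₁ (some x)) (b₁ y)| := by
      intro x
      rw [Fintype.sum_option]
      have : 0 ≤ w₁ (some x) * w₁' none * |bil v (a₁ (some x)) (b₁ none)| := by
        refine mul_nonneg (mul_nonneg (hw0 x) ?_) (abs_nonneg _)
        exact sub_nonneg.mpr hw'
      refine le_add_of_nonneg_of_le this (le_of_eq rfl)
    have e2 : 0 ≤ ∑ y, w₁ none * w₁' y * |bil v (a₁ none) (b₁ y)| := by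
      refine Finset.sum_nonneg fun y _ => mul_nonneg (mul_nonneg (sub_nonneg.mpr hw) ?_)
        (abs_nonneg _)
      cases y with
      | none => exact sub_nonneg.mpr hw'
      | some y => exact hw0' y
    refine le_add_of_nonneg_of_le e2 ?_
    exact Finset.sum_le_sum fun x _ => e1 x
  · intro x
    cases x with
    | none => simp [a₁, Real.zero_rpow hq.ne']
    | some x => exact ha x
  · intro x
    cases x with
    | none => simp [b₁, Real.zero_rpow hq.ne']
    | some x => exact hb x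
  · intro x
    cases x with
    | none => simp [a₁]
    | some x => exact hac x
  · intro x
    cases x with
    | none => simp [b₁]
    | some x => exact hbc x
  · intro x y
    cases x with
    | none => simpa [a₁, bil] using hK'
    | some x =>
      cases y with
      | none => simpa [b₁, bil] using hK'
      | some y => exact hF x y
  · intro x
    cases x with
    | none => exact sub_nonneg.mpr hw
    | some x => exact hw0 x
  · rw [Fintype.sum_option]
    change (1 - ∑ x, w x) + ∑ x, w x = 1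
    ring
  · intro x
    cases x with
    | none => exact sub_nonneg.mpr hw'
    | some x => exact hw0' x
  · rw [Fintype.sum_option]
    change (1 - ∑ x, w' x) + ∑ x, w' x = 1
    ring
  · intro i
    rw [Fintype.sum_option]
    simp only [a₁, w₁, Option.elim, if_true, mul_zero, zero_add]
    exact hκ i
  · intro i
    rw [Fintype.sum_option]
    simp only [b₁, w₁', Option.elim, if_true, mul_zero, zero_add]
    exact hκ' i

end Pool.Agent.Helper630.Stable
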