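import Mathlib
import Pool.Agent.Helper630.Stable.S7

open Finset

namespace Pool.Agent.Helper630.Stable

section vectors

variable {N : ℕ} {q δ : ℝ}

/-- The `q`-norm of a vector. -/
noncomputable def nq (q : ℝ) (x : Fin N → ℝ) : ℝ := (∑ i, |x i| ^ q) ^ (1 / q)

noncomputable def big (q δ : ℝ) (x : Fin N → ℝ) : Fin N → ℝ :=
  fun i => if δ * nq q x < |x i| then x i else 0

noncomputable def sml (q δ : ℝ) (x : Fin N → ℝ) : Fin N → ℝ :=
  fun i => if δ * nq q x < |x i| then 0 else x i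

lemma big_add_sml (x : Fin N → ℝ) : (fun i => big q δ x i + sml q δ x i) = x := by
  funext i
  unfold big sml
  split_ifs <;> simp

lemma nq_nonneg (x : Fin N → ℝ) : 0 ≤ nq q x := by
  unfold nq
  exact Real.rpow_nonneg (Finset.sum_nonneg fun i _ => by positivity) _

lemma nq_rpow (hq : 0 < q) (x : Fin N → ℝ) : nq q x ^ q = ∑ i, |x i| ^ q := by
  unfold nq
  rw [← Real.rpow_mul (Finset.sum_nonneg fun i _ => by positivity), one_div,
    inv_mul_cancel₀ hq.ne', Real.rpow_one]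

lemma eq_zero_of_nq_eq_zero (hq : 0 < q) {x : Fin N → ℝ} (h : nq q x = 0) (i : Fin N) :
    x i = 0 := by
  have h1 := nq_rpow hq x
  rw [h, Real.zero_rpow hq.ne'] at h1
  have h2 := (Finset.sum_eq_zero_iff_of_nonneg (fun i _ => by positivity)).mp h1.symm i
    (Finset.mem_univ i)
  rw [Real.rpow_eq_zero (abs_nonneg _) hq.ne'] at h2
  exact abs_eq_zero.mp h2

lemma card_big_le (hq : 0 < q) (hδ : 0 < δ) (x : Fin N → ℝ) :
    ((Finset.univ.filter (fun i => big q δ x i ≠ 0)).card : ℝ) ≤ δ ^ (-q) := by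
  set n := nq q x with hn
  rcases (nq_nonneg (q := q) x).eq_or_lt with h0 | h0
  · have : (Finset.univ.filter (fun i => big q δ x i ≠ 0)) = ∅ := by
      rw [Finset.filter_eq_empty_iff]
      intro i _
      simp only [not_not]
      unfold big
      rw [eq_zero_of_nq_eq_zero hq h0.symm i]
      simp
    rw [this]
    simp
    positivity
  · have h1 : ∑ i ∈ Finset.univ.filter (fun i => big q δ x i ≠ 0), (δ * n) ^ q ≤ n ^ q := by
      rw [hn, nq_rpow hq]
      refine (Finset.sum_le_sum (g := fun i => |x i| ^ q) fun i hi => ?_).trans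
        (Finset.sum_le_sum_of_subset_of_nonneg (Finset.subset_univ _) fun i _ _ => by positivity)
      have hi' := (Finset.mem_filter.mp hi).2
      unfold big at hi'
      have h2 : δ * nq q x < |x i| := by
        by_contra hcon
        rw [if_neg hcon] at hi'
        exact hi' rfl
      exact Real.rpow_le_rpow (by positivity) h2.le hq.le
    rw [Finset.sum_const, nsmul_eq_mul, Real.mul_rpow hδ.le h0.le] at h1
    have h3 : 0 < n ^ q := Real.rpow_pos_of_pos h0 _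
    have h4 : 0 < δ ^ q := Real.rpow_pos_of_pos hδ _
    rw [Real.rpow_neg hδ.le, ← one_div, le_div_iff₀ h4]
    refine le_of_mul_le_mul_right ?_ h3
    linarith

lemma sqrt_sml_le (hq : 0 < q) (hq2 : q < 2) (hδ : 0 < δ) (x : Fin N → ℝ) :
    √(∑ i, sml q δ x i ^ 2) ≤ δ ^ (1 - q / 2) * nq q x := by
  set n := nq q x with hn
  have hn0 : 0 ≤ n := nq_nonneg x
  have h1 : ∀ i, sml q δ x i ^ 2 ≤ |x i| ^ q * (δ * n) ^ (2 - q) := by
    intro i
    unfold sml
    split_ifs with h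
    · have : 0 ≤ |x i| ^ q * (δ * n) ^ (2 - q) := by positivity
      simpa using this
    · push Not at h
      rcases eq_or_ne (x i) 0 with h0 | h0
      · rw [h0]
        have : 0 ≤ |(0 : ℝ)| ^ q * (δ * n) ^ (2 - q) := by positivity
        simpa using this
      · have hx : 0 < |x i| := abs_pos.mpr h0
        have h2 : x i ^ 2 = |x i| ^ q * |x i| ^ (2 - q) := by
          rw [← Real.rpow_add hx, ← sq_abs]
          norm_num
        rw [h2]
        gcongr
  have h2 : ∑ i, sml q δ x i ^ 2 ≤ (δ ^ (1 - q / 2) * n) ^ 2 := by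
    calc ∑ i, sml q δ x i ^ 2 ≤ ∑ i, |x i| ^ q * (δ * n) ^ (2 - q) :=
          Finset.sum_le_sum fun i _ => h1 i
      _ = n ^ q * (δ * n) ^ (2 - q) := by rw [← Finset.sum_mul, ← nq_rpow hq]
      _ = (δ ^ (1 - q / 2) * n) ^ 2 := by
          rcases hn0.eq_or_lt with h0 | h0
          · rw [← h0, Real.zero_rpow hq.ne']
            simp
          · rw [Real.mul_rpow hδ.le hn0, mul_pow, ← Real.rpow_natCast (δ ^ (1 - q / 2)),
              ← Real.rpow_mul hδ.le]
            have e1 : (1 - q / 2) * ((2 : ℕ) : ℝ) = 2 - q := by push_cast; ring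
            rw [e1]
            have e2 : n ^ q * n ^ (2 - q) = n ^ 2 := by
              rw [← Real.rpow_add h0]
              norm_num
            calc n ^ q * (δ ^ (2 - q) * n ^ (2 - q)) = δ ^ (2 - q) * (n ^ q * n ^ (2 - q)) := by ring
              _ = δ ^ (2 - q) * n ^ 2 := by rw [e2]
  calc √(∑ i, sml q δ x i ^ 2) ≤ √((δ ^ (1 - q / 2) * n) ^ 2) := Real.sqrt_le_sqrt h2
    _ = δ ^ (1 - q / 2) * n := Real.sqrt_sq (by positivity)

lemma sqrt_sum_le {p : ℝ} (hp : 2 < p) {A : ℝ} (hA : 0 ≤ A) {y : Fin N → ℝ}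
    (hy : ∑ i, |y i| ^ p ≤ A ^ p) : √(∑ i, y i ^ 2) ≤ (N : ℝ) ^ (1 / 2 - 1 / p) * A := by
  have hr : (p / 2).HolderConjugate (p / (p - 2)) := by
    rw [Real.holderConjugate_iff]
    constructor
    · linarith
    · have : p ≠ 0 := by linarith
      have : p - 2 ≠ 0 := by linarith
      field_simp
      ring
  have h1 := Real.inner_le_Lp_mul_Lq Finset.univ (fun i => y i ^ 2) (fun _ : Fin N => (1 : ℝ)) hr
  simp only [mul_one, abs_one, Real.one_rpow, Finset.sum_const, Finset.card_univ,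
    Fintype.card_fin, nsmul_eq_mul] at h1
  have h2 : ∀ i, |y i ^ 2| ^ (p / 2) = |y i| ^ p := by
    intro i
    rw [abs_pow, ← Real.rpow_natCast, ← Real.rpow_mul (abs_nonneg _)]
    congr 1
    push_cast
    ring
  simp only [h2] at h1
  have h3 : ∑ i, y i ^ 2 ≤ ((N : ℝ) ^ (1 / 2 - 1 / p) * A) ^ 2 := by
    refine h1.trans ?_
    have e1 : (∑ i, |y i| ^ p) ^ (1 / (p / 2)) ≤ A ^ 2 := by
      calc (∑ i, |y i| ^ p) ^ (1 / (p / 2)) ≤ (A ^ p) ^ (1 / (p / 2)) := by
            refine Real.rpow_le_rpow (Finset.sum_nonneg fun i _ => by positivity) hy (by positivity)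
        _ = A ^ 2 := by
            rw [← Real.rpow_mul hA, ← Real.rpow_natCast]
            congr 1
            have : p ≠ 0 := by linarith
            push_cast
            field_simp
    have e2 : (N : ℝ) ^ (1 / (p / (p - 2))) = ((N : ℝ) ^ (1 / 2 - 1 / p)) ^ 2 := by
      rw [← Real.rpow_natCast ((N : ℝ) ^ (1 / 2 - 1 / p)), ← Real.rpow_mul (by positivity)]
      congr 1
      have : p ≠ 0 := by linarith
      have : p - 2 ≠ 0 := by linarith
      push_cast
      field_simp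
    rw [e2, mul_pow, mul_comm]
    gcongr
  calc √(∑ i, y i ^ 2) ≤ √(((N : ℝ) ^ (1 / 2 - 1 / p) * A) ^ 2) := Real.sqrt_le_sqrt h3
    _ = (N : ℝ) ^ (1 / 2 - 1 / p) * A := Real.sqrt_sq (by positivity)

end vectors

lemma bil_sum_right {N : ℕ} (v : Fin N → Fin N → ℝ) {κ : Type*} [Fintype κ] (x : Fin N → ℝ)
    (c : κ → ℝ) (y : κ → Fin N → ℝ) :
    ∑ j, c j * bil v x (y j) = bil v x (fun i => ∑ j, c j * y j i) := by
  unfold bil
  simp only [Finset.mul_sum]
  rw [Finset.sum_comm]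
  refine Finset.sum_congr rfl fun i _ => ?_
  rw [Finset.sum_comm]
  refine Finset.sum_congr rfl fun l _ => Finset.sum_congr rfl fun j _ => ?_
  ring

lemma bil_swap {N : ℕ} (v : Fin N → Fin N → ℝ) (x y : Fin N → ℝ) :
    bil v x y = bil (fun i l => v l i) y x := by
  unfold bil
  rw [Finset.sum_comm]
  refine Finset.sum_congr rfl fun i _ => Finset.sum_congr rfl fun l _ => ?_
  ring

/-- The bound for spread vectors. -/
lemma spread_bound {N : ℕ} (hN : 1 ≤ N) {p : ℝ} (hp : 2 < p) {Λ : ℝ} (hΛ : 0 ≤ Λ)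
    {v : Fin N → Fin N → ℝ}
    (hv : ∀ x y : Fin N → ℝ, |bil v x y| ≤ Λ * √N * √(∑ i, x i ^ 2) * √(∑ i, y i ^ 2))
    {ι κ : Type*} [Fintype ι] [Fintype κ] (s : ι → Fin N → ℝ) (η : κ → Fin N → ℝ) {B : ℝ}
    (hB0 : 0 ≤ B)
    (hB : ∀ ε : κ → ℝ, (∀ j, |ε j| ≤ 1) → ∑ i, |∑ j, ε j * η j i| ^ p ≤ B ^ p) :
    ∑ k, ∑ j, |bil v (s k) (η j)| ≤
      Λ * (N : ℝ) ^ (1 - 1 / p) * B * ∑ k, √(∑ i, s k i ^ 2) := by
  have hN' : (0 : ℝ) < N := by exact_mod_cast hN
  rw [Finset.mul_sum]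
  refine Finset.sum_le_sum fun k _ => ?_
  let ε : κ → ℝ := fun j => SignType.sign (bil v (s k) (η j))
  have hε : ∀ j, |ε j| ≤ 1 := by
    intro j
    simp only [ε]
    rcases lt_trichotomy (bil v (s k) (η j)) 0 with h | h | h
    · simp [sign_neg h]
    · simp [h]
    · simp [sign_pos h]
  have h1 : ∑ j, |bil v (s k) (η j)| = bil v (s k) (fun i => ∑ j, ε j * η j i) := by
    rw [← bil_sum_right]
    refine Finset.sum_congr rfl fun j _ => ?_
    simp only [ε]
    exact (sign_mul_self _).symm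
  rw [h1]
  refine (le_abs_self _).trans ((hv _ _).trans ?_)
  have h2 := sqrt_sum_le hp hB0 (hB ε hε)
  have h3 : √(N : ℝ) * (N : ℝ) ^ (1 / 2 - 1 / p) = (N : ℝ) ^ (1 - 1 / p) := by
    rw [Real.sqrt_eq_rpow, ← Real.rpow_add hN']
    congr 1
    ring
  calc Λ * √N * √(∑ i, s k i ^ 2) * √(∑ i, (∑ j, ε j * η j i) ^ 2)
      ≤ Λ * √N * √(∑ i, s k i ^ 2) * ((N : ℝ) ^ (1 / 2 - 1 / p) * B) := by gcongr
    _ = Λ * (√N * (N : ℝ) ^ (1 / 2 - 1 / p)) * B * √(∑ i, s k i ^ 2) := by ring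
    _ = Λ * (N : ℝ) ^ (1 - 1 / p) * B * √(∑ i, s k i ^ 2) := by rw [h3]

/-- The discrete class: the family `γ` is the image of the unit vectors, scaled by `μ`, under a
contraction of `ℓ_p` into `ℓ_p^N`. -/
def Cls {ι : Type*} [Fintype ι] {N : ℕ} (p : ℝ) (γ : ι → Fin N → ℝ) (μ : ι → ℝ) : Prop :=
  (∀ k, 0 ≤ μ k) ∧ ∀ θ : ι → ℝ, ∑ i, |∑ k, θ k * γ k i| ^ p ≤ ∑ k, |θ k| ^ p * μ k ^ p

section cls

variable {ι : Type*} [Fintype ι] {N : ℕ} {p q : ℝ} {γ : ι → Fin N → ℝ} {μ : ι → ℝ}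

lemma abs_sign_mul_le (x a : ℝ) : |a * (SignType.sign x : ℝ)| ≤ |a| := by
  rcases lt_trichotomy x 0 with h | h | h
  · simp [sign_neg h]
  · simp [h]
  · simp [sign_pos h]

lemma Cls.sum_abs_le (h : Cls p γ μ) (hp : 0 < p) (E : Finset ι) (i : Fin N) :
    (∑ k ∈ E, |γ k i|) ^ p ≤ ∑ k ∈ E, μ k ^ p := by
  classical
  let θ : ι → ℝ := fun k => if k ∈ E then (SignType.sign (γ k i) : ℝ) else 0
  have h1 : ∑ k, θ k * γ k i = ∑ k ∈ E, |γ k i| := by
    simp only [θ, ite_mul, zero_mul]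
    rw [Finset.sum_ite_mem, Finset.univ_inter]
    exact Finset.sum_congr rfl fun k _ => sign_mul_self _
  have h2 := h.2 θ
  have h3 : |∑ k, θ k * γ k i| ^ p ≤ ∑ i, |∑ k, θ k * γ k i| ^ p :=
    Finset.single_le_sum (f := fun i => |∑ k, θ k * γ k i| ^ p) (fun i _ => by positivity)
      (Finset.mem_univ i)
  rw [h1, abs_of_nonneg (Finset.sum_nonneg fun k _ => abs_nonneg _)] at h3
  refine h3.trans (h2.trans ?_)
  have h4 : ∀ k, |θ k| ^ p * μ k ^ p ≤ if k ∈ E then μ k ^ p else 0 := by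
    intro k
    have hμ : 0 ≤ μ k ^ p := Real.rpow_nonneg (h.1 k) _
    simp only [θ]
    split_ifs with hk
    · have h5 : |(SignType.sign (γ k i) : ℝ)| ≤ 1 := by
        have := abs_sign_mul_le (γ k i) 1
        simpa using this
      have h6 : |(SignType.sign (γ k i) : ℝ)| ^ p ≤ 1 :=
        Real.rpow_le_one (abs_nonneg _) h5 hp.le
      nlinarith
    · rw [abs_zero, Real.zero_rpow hp.ne', zero_mul]
  refine (Finset.sum_le_sum fun k _ => h4 k).trans (le_of_eq ?_)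
  rw [Finset.sum_ite_mem, Finset.univ_inter]

lemma Cls.sum_abs_le_one (h : Cls p γ μ) (hp : 0 < p) (hμ : ∑ k, μ k ^ p ≤ 1) (i : Fin N) :
    ∑ k, |γ k i| ≤ 1 := by
  have h1 := (h.sum_abs_le hp Finset.univ i).trans hμ
  by_contra hcon
  push Not at hcon
  exact absurd (Real.one_lt_rpow hcon hp) (not_lt.mpr h1)

lemma Cls.sign_sum_le (h : Cls p γ μ) (hp : 0 < p) (hμ : ∑ k, μ k ^ p ≤ 1) (ε : ι → ℝ)
    (hε : ∀ k, |ε k| ≤ 1) : ∑ i, |∑ k, ε k * γ k i| ^ p ≤ 1 ^ p := by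
  rw [Real.one_rpow]
  refine (h.2 ε).trans (le_trans (Finset.sum_le_sum fun k _ => ?_) hμ)
  have hμ : 0 ≤ μ k ^ p := Real.rpow_nonneg (h.1 k) _
  have h6 : |ε k| ^ p ≤ 1 := Real.rpow_le_one (abs_nonneg _) (hε k) hp.le
  nlinarith

lemma Cls.sum_nq_le (h : Cls p γ μ) (hpq : q.HolderConjugate p) (hμ : ∑ k, μ k ^ p ≤ 1) :
    ∑ k, nq q (γ k) ≤ (N : ℝ) ^ (1 / q) := by
  have hp0 : 0 < p := hpq.symm.pos
  have hg : ∀ k, ∃ g : Fin N → ℝ, (∀ i, 0 ≤ g i) ∧ ∑ i, g i ^ p ≤ 1 ∧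
      ∑ i, |γ k i| * g i = nq q (γ k) := by
    intro k
    obtain ⟨⟨g, hg1, hg2⟩, -⟩ := NNReal.isGreatest_Lp Finset.univ
      (fun i => Real.nnabs (γ k i)) hpq
    refine ⟨fun i => (g i : ℝ), fun i => (g i).2, ?_, ?_⟩
    · have := hg1
      simp only [Set.mem_ofPred_eq] at this
      change ∑ i, (g i : ℝ) ^ p ≤ 1
      exact_mod_cast this
    · have := congrArg (fun x : NNReal => (x : ℝ)) hg2
      push_cast at this
      exact this
  choose g hg0 hg1 hg2 using hg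
  have h1 : ∀ i, ∑ k, |γ k i| * g k i ≤ (∑ k, g k i ^ p * μ k ^ p) ^ (1 / p) := by
    intro i
    have h2 := h.2 (fun k => g k i * (SignType.sign (γ k i) : ℝ))
    have h3 : |∑ k, g k i * (SignType.sign (γ k i) : ℝ) * γ k i| ^ p ≤
        ∑ i', |∑ k, g k i * (SignType.sign (γ k i) : ℝ) * γ k i'| ^ p :=
      Finset.single_le_sum (f := fun i' => |∑ k, g k i * (SignType.sign (γ k i) : ℝ) * γ k i'| ^ p)
        (fun i _ => by positivity) (Finset.mem_univ i)
    have h4 : ∑ k, g k i * (SignType.sign (γ k i) : ℝ) * γ k i = ∑ k, |γ k i| * g k i := by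
      refine Finset.sum_congr rfl fun k _ => ?_
      rw [mul_assoc, sign_mul_self, mul_comm]
    have h5 : 0 ≤ ∑ k, |γ k i| * g k i :=
      Finset.sum_nonneg fun k _ => mul_nonneg (abs_nonneg _) (hg0 k i)
    rw [h4, abs_of_nonneg h5] at h3
    have h6 : (∑ k, |γ k i| * g k i) ^ p ≤ ∑ k, g k i ^ p * μ k ^ p := by
      refine h3.trans (h2.trans (Finset.sum_le_sum fun k _ => ?_))
      have hμ : 0 ≤ μ k ^ p := Real.rpow_nonneg (h.1 k) _
      refine mul_le_mul_of_nonneg_right ?_ hμ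
      refine Real.rpow_le_rpow (abs_nonneg _) ?_ hp0.le
      refine (abs_sign_mul_le _ _).trans ?_
      rw [abs_of_nonneg (hg0 k i)]
    calc ∑ k, |γ k i| * g k i = ((∑ k, |γ k i| * g k i) ^ p) ^ (1 / p) := by
          rw [← Real.rpow_mul h5, mul_one_div, div_self hp0.ne', Real.rpow_one]
      _ ≤ (∑ k, g k i ^ p * μ k ^ p) ^ (1 / p) := by
          exact Real.rpow_le_rpow (Real.rpow_nonneg h5 _) h6 (by positivity)
  have hz0 : ∀ i, 0 ≤ ∑ k, g k i ^ p * μ k ^ p := fun i =>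
    Finset.sum_nonneg fun k _ => mul_nonneg (Real.rpow_nonneg (hg0 k i) _)
      (Real.rpow_nonneg (h.1 k) _)
  calc ∑ k, nq q (γ k) = ∑ k, ∑ i, |γ k i| * g k i := by
        exact Finset.sum_congr rfl fun k _ => (hg2 k).symm
    _ = ∑ i, ∑ k, |γ k i| * g k i := Finset.sum_comm
    _ ≤ ∑ i, 1 * (∑ k, g k i ^ p * μ k ^ p) ^ (1 / p) := by
        refine Finset.sum_le_sum fun i _ => ?_
        rw [one_mul]
        exact h1 i
    _ ≤ (∑ i : Fin N, |(1 : ℝ)| ^ q) ^ (1 / q) *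
        (∑ i, |(∑ k, g k i ^ p * μ k ^ p) ^ (1 / p)| ^ p) ^ (1 / p) :=
        Real.inner_le_Lp_mul_Lq Finset.univ _ _ hpq
    _ = (N : ℝ) ^ (1 / q) * (∑ i, ∑ k, g k i ^ p * μ k ^ p) ^ (1 / p) := by
        congr 1
        · simp
        · congr 1
          refine Finset.sum_congr rfl fun i _ => ?_
          rw [abs_of_nonneg (Real.rpow_nonneg (hz0 i) _), ← Real.rpow_mul (hz0 i),
            one_div_mul_cancel hp0.ne', Real.rpow_one]
    _ ≤ (N : ℝ) ^ (1 / q) * 1 := by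
        gcongr
        refine Real.rpow_le_one (Finset.sum_nonneg fun i _ => hz0 i) ?_ (by positivity)
        rw [Finset.sum_comm]
        refine le_trans (Finset.sum_le_sum fun k _ => ?_) hμ
        rw [← Finset.sum_mul]
        have hμ : 0 ≤ μ k ^ p := Real.rpow_nonneg (h.1 k) _
        have := hg1 k
        nlinarith
    _ = (N : ℝ) ^ (1 / q) := mul_one _

lemma Cls.big_sum_le (h : Cls p γ μ) (hp : 0 < p) (hq : 0 < q) (hμ : ∑ k, μ k ^ p ≤ 1) {δ : ℝ}
    (hδ : 0 < δ) (ε : ι → ℝ) (hε : ∀ k, |ε k| ≤ 1) :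
    ∑ i, |∑ k, ε k * big q δ (γ k) i| ^ p ≤ (δ ^ (-(q / p))) ^ p := by
  classical
  have h1 : ∀ i, |∑ k, ε k * big q δ (γ k) i| ^ p ≤
      ∑ k, if big q δ (γ k) i ≠ 0 then μ k ^ p else 0 := by
    intro i
    have h2 : |∑ k, ε k * big q δ (γ k) i| ≤
        ∑ k ∈ Finset.univ.filter (fun k => big q δ (γ k) i ≠ 0), |γ k i| := by
      refine (Finset.abs_sum_le_sum_abs _ _).trans ?_
      rw [Finset.sum_filter]
      refine Finset.sum_le_sum fun k _ => ?_
      rw [abs_mul]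
      by_cases hk : big q δ (γ k) i ≠ 0
      · rw [if_pos hk]
        have : |big q δ (γ k) i| ≤ |γ k i| := by
          unfold big
          split_ifs
          · exact le_rfl
          · simp
        calc |ε k| * |big q δ (γ k) i| ≤ 1 * |γ k i| := by
              gcongr
              exact hε k
          _ = |γ k i| := one_mul _
      · rw [if_neg hk]
        push Not at hk
        rw [hk]
        simp
    refine (Real.rpow_le_rpow (abs_nonneg _) h2 hp.le).trans ?_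
    refine (h.sum_abs_le hp _ i).trans (le_of_eq ?_)
    rw [Finset.sum_filter]
  have e : (δ ^ (-(q / p))) ^ p = δ ^ (-q) := by
    rw [← Real.rpow_mul hδ.le]
    congr 1
    field_simp
  rw [e]
  refine (Finset.sum_le_sum fun i _ => h1 i).trans ?_
  rw [Finset.sum_comm]
  have h3 : ∀ k, ∑ i, (if big q δ (γ k) i ≠ 0 then μ k ^ p else 0) ≤ μ k ^ p * δ ^ (-q) := by
    intro k
    have hμ : 0 ≤ μ k ^ p := Real.rpow_nonneg (h.1 k) _
    rw [← Finset.sum_filter, Finset.sum_const, nsmul_eq_mul, mul_comm]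
    exact mul_le_mul_of_nonneg_left (card_big_le hq hδ _) hμ
  refine (Finset.sum_le_sum fun k _ => h3 k).trans ?_
  rw [← Finset.sum_mul]
  have : 0 ≤ δ ^ (-q) := by positivity
  nlinarith

end cls

end Pool.Agent.Helper630.Stable
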