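import Mathlib
import Pool.Agent.Helper630.Stable.S8

open Finset

namespace Pool.Agent.Helper630.Stable

lemma nq_big_le {N : ℕ} {q δ : ℝ} (hq : 0 < q) (x : Fin N → ℝ) :
    ∑ i, |(nq q x)⁻¹ * big q δ x i| ^ q ≤ 1 := by
  have h0 := nq_nonneg (q := q) x
  have hle : ∀ i, |big q δ x i| ≤ |x i| := by
    intro i
    unfold big
    split_ifs
    · exact le_rfl
    · simp
  rcases h0.eq_or_lt with h | h
  · rw [← h]
    simp [Real.zero_rpow hq.ne']
  · calc ∑ i, |(nq q x)⁻¹ * big q δ x i| ^ q ≤ ∑ i, (nq q x)⁻¹ ^ q * |x i| ^ q := by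
          refine Finset.sum_le_sum fun i _ => ?_
          rw [abs_mul, abs_of_pos (inv_pos.mpr h), Real.mul_rpow (inv_pos.mpr h).le (abs_nonneg _)]
          refine mul_le_mul_of_nonneg_left (Real.rpow_le_rpow (abs_nonneg _) (hle i) hq.le) ?_
          exact Real.rpow_nonneg (inv_pos.mpr h).le _
      _ = (nq q x)⁻¹ ^ q * nq q x ^ q := by rw [← Finset.mul_sum, nq_rpow hq]
      _ = 1 := by
          rw [← Real.mul_rpow (inv_pos.mpr h).le h.le, inv_mul_cancel₀ h.ne', Real.one_rpow]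

theorem discrete_main (p q : ℝ) (hp : 2 < p) (hpq : q.HolderConjugate p) :
    ∃ C₀ : ℝ, 0 < C₀ ∧ ∀ R : ℝ, ∃ (N : ℕ) (v : Fin N → Fin N → ℝ), 1 ≤ N ∧
      R * (N : ℝ) ^ 2 ≤ ∑ i, ∑ l, |v i l| ^ q ∧
      ∀ (m m' : ℕ) (γ : Fin m → Fin N → ℝ) (μ : Fin m → ℝ) (η : Fin m' → Fin N → ℝ)
        (ν : Fin m' → ℝ), Cls p γ μ → ∑ k, μ k ^ p ≤ 1 → Cls p η ν → ∑ k, ν k ^ p ≤ 1 →
        ∑ k, ∑ j, |bil v (γ k) (η j)| ≤ C₀ * (N : ℝ) ^ (2 / q) := by
  have hp0 : 0 < p := by linarith
  have hq1 : 1 < q := hpq.lt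
  have hq0 : 0 < q := by linarith
  have hinv : q⁻¹ + p⁻¹ = 1 := hpq.inv_add_inv_eq_one
  have hq2 : q < 2 := by
    by_contra hcon
    push Not at hcon
    have h1 : q⁻¹ ≤ 2⁻¹ := inv_anti₀ (by norm_num) hcon
    have h2 : p⁻¹ < 2⁻¹ := inv_strictAnti₀ (by norm_num) hp
    norm_num at h1 h2
    linarith
  obtain ⟨C₁, hC₁, hM⟩ := matrix_exists q hq1 hq2
  refine ⟨C₁ + 3, by linarith, fun R => ?_⟩
  obtain ⟨K, hK1, hM⟩ := hM R
  have hK0 : 0 < K := by linarith
  set a : ℝ := 1 - q / 2 with ha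
  have ha0 : 0 < a := by rw [ha]; linarith
  set δ : ℝ := (1 / K) ^ (1 / a) with hδ
  have hδ0 : 0 < δ := by positivity
  have hδK : K * δ ^ a = 1 := by
    rw [hδ, ← Real.rpow_mul (by positivity), one_div_mul_cancel ha0.ne', Real.rpow_one]
    field_simp
  set δ' : ℝ := (δ ^ (q / p) / K) ^ (1 / a) with hδ'
  have hδ'0 : 0 < δ' := by positivity
  have hδ'K : K * δ' ^ a * δ ^ (-(q / p)) = 1 := by
    rw [hδ', ← Real.rpow_mul (by positivity), one_div_mul_cancel ha0.ne', Real.rpow_one,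
      Real.rpow_neg hδ0.le]
    have : 0 < δ ^ (q / p) := by positivity
    field_simp
  obtain ⟨C, hC⟩ := exists_nat_ge (δ ^ (-q) + δ' ^ (-q) + 1)
  have hp1 : 0 < δ ^ (-q) := by positivity
  have hp2 : 0 < δ' ^ (-q) := by positivity
  have hC1 : 1 ≤ C := by
    have : (1 : ℝ) ≤ C := by linarith
    exact_mod_cast this
  set K' : ℝ := K * (C : ℝ) ^ 2 with hK'
  set e : ℝ := δ⁻¹ + δ'⁻¹ with he
  have he0 : 0 < e := by positivity
  obtain ⟨N, M, v, hN, hMM, hD, hvK, hvop, hvR, hPM⟩ := hM C (2 * K' * (C * e)) hC1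
  have hN' : (1 : ℝ) ≤ N := by exact_mod_cast hN
  have hN0 : (0 : ℝ) < N := by linarith
  have hNq : 0 < (N : ℝ) ^ (1 / q) := by positivity
  refine ⟨N, v, hN, hvR, ?_⟩
  intro m m' γ μ η ν hγ hμ hη hν
  have hsumγ := hγ.sum_nq_le hpq hμ
  have hsumη := hη.sum_nq_le hpq hν
  have hexp : (N : ℝ) ^ (1 - 1 / p) = (N : ℝ) ^ (1 / q) := by
    congr 1
    rw [one_div, one_div]
    linarith
  have hexp2 : (N : ℝ) ^ (1 / q) * (N : ℝ) ^ (1 / q) = (N : ℝ) ^ (2 / q) := by
    rw [← Real.rpow_add hN0]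
    congr 1
    ring
  -- part (A)
  have hA : ∑ k, ∑ j, |bil v (sml q δ (γ k)) (η j)| ≤ (N : ℝ) ^ (2 / q) := by
    have h1 := spread_bound hN hp hK0.le hvop (fun k => sml q δ (γ k)) η (B := 1) zero_le_one
      (fun ε hε => hη.sign_sum_le hp0 hν ε hε)
    refine h1.trans ?_
    calc K * (N : ℝ) ^ (1 - 1 / p) * 1 * ∑ k, √(∑ i, sml q δ (γ k) i ^ 2)
        ≤ K * (N : ℝ) ^ (1 - 1 / p) * 1 * ∑ k, δ ^ a * nq q (γ k) := by
          gcongr with k _
          exact sqrt_sml_le hq0 hq2 hδ0 _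
      _ = (K * δ ^ a) * (N : ℝ) ^ (1 / q) * ∑ k, nq q (γ k) := by
          rw [← Finset.mul_sum, hexp]
          ring
      _ ≤ (K * δ ^ a) * (N : ℝ) ^ (1 / q) * (N : ℝ) ^ (1 / q) := by gcongr
      _ = (N : ℝ) ^ (2 / q) := by rw [hδK, one_mul, hexp2]
  -- part (A')
  have hA' : ∑ k, ∑ j, |bil v (big q δ (γ k)) (sml q δ' (η j))| ≤ (N : ℝ) ^ (2 / q) := by
    have hvop' : ∀ x y : Fin N → ℝ, |bil (fun i l => v l i) x y| ≤
        K * √N * √(∑ i, x i ^ 2) * √(∑ i, y i ^ 2) := by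
      intro x y
      rw [← bil_swap v y x]
      refine (hvop y x).trans (le_of_eq ?_)
      ring
    have h1 := spread_bound hN hp hK0.le hvop' (fun j => sml q δ' (η j))
      (fun k => big q δ (γ k)) (B := δ ^ (-(q / p))) (by positivity)
      (fun ε hε => hγ.big_sum_le hp0 hq0 hμ hδ0 ε hε)
    have h2 : ∑ k, ∑ j, |bil v (big q δ (γ k)) (sml q δ' (η j))| =
        ∑ j, ∑ k, |bil (fun i l => v l i) (sml q δ' (η j)) (big q δ (γ k))| := by
      rw [Finset.sum_comm]
      refine Finset.sum_congr rfl fun j _ => Finset.sum_congr rfl fun k _ => ?_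
      rw [bil_swap]
    rw [h2]
    refine h1.trans ?_
    calc K * (N : ℝ) ^ (1 - 1 / p) * δ ^ (-(q / p)) * ∑ k, √(∑ i, sml q δ' (η k) i ^ 2)
        ≤ K * (N : ℝ) ^ (1 - 1 / p) * δ ^ (-(q / p)) * ∑ k, δ' ^ a * nq q (η k) := by
          gcongr with k _
          exact sqrt_sml_le hq0 hq2 hδ'0 _
      _ = (K * δ' ^ a * δ ^ (-(q / p))) * (N : ℝ) ^ (1 / q) * ∑ k, nq q (η k) := by
          rw [← Finset.mul_sum, hexp]
          ring
      _ ≤ (K * δ' ^ a * δ ^ (-(q / p))) * (N : ℝ) ^ (1 / q) * (N : ℝ) ^ (1 / q) := by gcongr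
      _ = (N : ℝ) ^ (2 / q) := by rw [hδ'K, one_mul, hexp2]
  -- the localized part
  have hB : ∑ k, ∑ j, |bil v (big q δ (γ k)) (big q δ' (η j))| ≤
      (C₁ + 1) * (N : ℝ) ^ (2 / q) := by
    let x : Fin m → Fin N → ℝ := fun k i => (nq q (γ k))⁻¹ * big q δ (γ k) i
    let y : Fin m' → Fin N → ℝ := fun j i => (nq q (η j))⁻¹ * big q δ' (η j) i
    let w : Fin m → ℝ := fun k => nq q (γ k) / (N : ℝ) ^ (1 / q)
    let w' : Fin m' → ℝ := fun j => nq q (η j) / (N : ℝ) ^ (1 / q)
    have hx : ∀ k, ∑ i, |x k i| ^ q ≤ 1 := fun k => nq_big_le hq0 _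
    have hy : ∀ j, ∑ i, |y j i| ^ q ≤ 1 := fun j => nq_big_le hq0 _
    have hxc : ∀ k, (Finset.univ.filter (fun i => x k i ≠ 0)).card ≤ C := by
      intro k
      have h1 := card_big_le hq0 hδ0 (γ k)
      have h2 : ((Finset.univ.filter (fun i => x k i ≠ 0)).card : ℝ) ≤
          ((Finset.univ.filter (fun i => big q δ (γ k) i ≠ 0)).card : ℝ) := by
        refine Nat.cast_le.mpr (Finset.card_le_card ?_)
        intro i
        simp only [Finset.mem_filter, Finset.mem_univ, true_and, x]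
        intro h3 h4
        exact h3 (by rw [h4, mul_zero])
      have h3 : ((Finset.univ.filter (fun i => x k i ≠ 0)).card : ℝ) ≤ C := by linarith
      exact_mod_cast h3
    have hyc : ∀ j, (Finset.univ.filter (fun i => y j i ≠ 0)).card ≤ C := by
      intro j
      have h1 := card_big_le hq0 hδ'0 (η j)
      have h2 : ((Finset.univ.filter (fun i => y j i ≠ 0)).card : ℝ) ≤
          ((Finset.univ.filter (fun i => big q δ' (η j) i ≠ 0)).card : ℝ) := by
        refine Nat.cast_le.mpr (Finset.card_le_card ?_)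
        intro i
        simp only [Finset.mem_filter, Finset.mem_univ, true_and, y]
        intro h3 h4
        exact h3 (by rw [h4, mul_zero])
      have h3 : ((Finset.univ.filter (fun i => y j i ≠ 0)).card : ℝ) ≤ C := by linarith
      exact_mod_cast h3
    have hF : ∀ k j, |bil v (x k) (y j)| ≤ K' := by
      intro k j
      refine (abs_bilin_le hvK (x k) (y j)).trans ?_
      have s1 := sum_abs_le_card hq0 (hx k) (hxc k)
      have s2 := sum_abs_le_card hq0 (hy j) (hyc j)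
      calc K * (∑ i, |x k i|) * ∑ i, |y j i| ≤ K * C * C := by gcongr
        _ = K' := by rw [hK']; ring
    have hwsum : ∑ k, w k ≤ 1 := by
      simp only [w]
      rw [← Finset.sum_div, div_le_one hNq]
      exact hsumγ
    have hwsum' : ∑ k, w' k ≤ 1 := by
      simp only [w']
      rw [← Finset.sum_div, div_le_one hNq]
      exact hsumη
    set κ : ℝ := e / (N : ℝ) ^ (1 / q) with hκ
    have hkey : ∀ (t : ℝ), 0 < t → t⁻¹ ≤ e → ∀ (z : Fin N → ℝ) (i : Fin N),
        nq q z / (N : ℝ) ^ (1 / q) * (if (nq q z)⁻¹ * big q t z i = 0 then (0 : ℝ) else 1) ≤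
        κ * |z i| := by
      intro t ht hte z i
      split_ifs with h
      · rw [mul_zero]
        positivity
      · have h1 : t * nq q z < |z i| := by
          by_contra hcon
          apply h
          unfold big
          rw [if_neg hcon, mul_zero]
        have h2 : nq q z ≤ t⁻¹ * |z i| := by
          rw [le_inv_mul_iff₀ ht]
          exact h1.le
        rw [mul_one, hκ, div_mul_eq_mul_div]
        gcongr
        exact h2.trans (by gcongr)
    have hκ1 : ∀ i, ∑ k, w k * (if x k i = 0 then (0 : ℝ) else 1) ≤ κ := by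
      intro i
      calc ∑ k, w k * (if x k i = 0 then (0 : ℝ) else 1) ≤ ∑ k, κ * |γ k i| := by
            refine Finset.sum_le_sum fun k _ => ?_
            exact hkey δ hδ0 (by rw [he]; linarith [inv_pos.mpr hδ'0]) (γ k) i
        _ = κ * ∑ k, |γ k i| := by rw [Finset.mul_sum]
        _ ≤ κ * 1 := by
            gcongr
            exact hγ.sum_abs_le_one hp0 hμ i
        _ = κ := mul_one _
    have hκ2 : ∀ i, ∑ k, w' k * (if y k i = 0 then (0 : ℝ) else 1) ≤ κ := by
      intro i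
      calc ∑ k, w' k * (if y k i = 0 then (0 : ℝ) else 1) ≤ ∑ k, κ * |η k i| := by
            refine Finset.sum_le_sum fun k _ => ?_
            exact hkey δ' hδ'0 (by rw [he]; linarith [inv_pos.mpr hδ0]) (η k) i
        _ = κ * ∑ k, |η k i| := by rw [Finset.mul_sum]
        _ ≤ κ * 1 := by
            gcongr
            exact hη.sum_abs_le_one hp0 hν i
        _ = κ := mul_one _
    have hsamp := sampling hMM hq0 hC₁.le (K' := K') (by positivity) (κ := κ) (by positivity)
      hPM x y hx hy hxc hyc hF w (fun k => div_nonneg (nq_nonneg _) hNq.le) hwsum w'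
      (fun k => div_nonneg (nq_nonneg _) hNq.le) hwsum' hκ1 hκ2
    have hlast : 2 * K' * (M : ℝ) ^ 2 * (C * κ) ≤ 1 := by
      have : 2 * K' * (M : ℝ) ^ 2 * (C * κ) = 2 * K' * (C * e) * (M : ℝ) ^ 2 /
          (N : ℝ) ^ (1 / q) := by
        rw [hκ]
        ring
      rw [this, div_le_one hNq]
      exact hD
    have hsamp' : ∑ k, ∑ j, w k * w' j * |bil v (x k) (y j)| ≤ C₁ + 1 :=
      hsamp.trans (by linarith)
    have hterm : ∀ k j, |bil v (big q δ (γ k)) (big q δ' (η j))| =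
        (N : ℝ) ^ (2 / q) * (w k * w' j * |bil v (x k) (y j)|) := by
      intro k j
      have e1 : big q δ (γ k) = fun i => nq q (γ k) * x k i := by
        funext i
        simp only [x]
        rcases (nq_nonneg (q := q) (γ k)).eq_or_lt with h | h
        · rw [← h, zero_mul]
          unfold big
          rw [eq_zero_of_nq_eq_zero hq0 h.symm i]
          simp
        · rw [← mul_assoc, mul_inv_cancel₀ h.ne', one_mul]
      have e2 : big q δ' (η j) = fun i => nq q (η j) * y j i := by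
        funext i
        simp only [y]
        rcases (nq_nonneg (q := q) (η j)).eq_or_lt with h | h
        · rw [← h, zero_mul]
          unfold big
          rw [eq_zero_of_nq_eq_zero hq0 h.symm i]
          simp
        · rw [← mul_assoc, mul_inv_cancel₀ h.ne', one_mul]
      have e3 : bil v (big q δ (γ k)) (big q δ' (η j)) =
          nq q (γ k) * nq q (η j) * bil v (x k) (y j) := by
        rw [← bil_smul]
        rw [← e1, ← e2]
      rw [e3, abs_mul, abs_of_nonneg (mul_nonneg (nq_nonneg _) (nq_nonneg _)), ← hexp2]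
      simp only [w, w']
      field_simp
    calc ∑ k, ∑ j, |bil v (big q δ (γ k)) (big q δ' (η j))|
        = (N : ℝ) ^ (2 / q) * ∑ k, ∑ j, w k * w' j * |bil v (x k) (y j)| := by
          rw [Finset.mul_sum]
          refine Finset.sum_congr rfl fun k _ => ?_
          rw [Finset.mul_sum]
          exact Finset.sum_congr rfl fun j _ => hterm k j
      _ ≤ (N : ℝ) ^ (2 / q) * (C₁ + 1) := by gcongr
      _ = (C₁ + 1) * (N : ℝ) ^ (2 / q) := mul_comm _ _
  -- conclusion
  have hsplit : ∀ k j, |bil v (γ k) (η j)| ≤ |bil v (big q δ (γ k)) (big q δ' (η j))| +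
      |bil v (big q δ (γ k)) (sml q δ' (η j))| + |bil v (sml q δ (γ k)) (η j)| := by
    intro k j
    have h1 : bil v (γ k) (η j) = bil v (big q δ (γ k)) (η j) + bil v (sml q δ (γ k)) (η j) := by
      rw [← bil_add_left, big_add_sml]
    have h2 : bil v (big q δ (γ k)) (η j) = bil v (big q δ (γ k)) (big q δ' (η j)) +
        bil v (big q δ (γ k)) (sml q δ' (η j)) := by
      rw [← bil_add_right, big_add_sml]
    rw [h1, h2]
    exact abs_add_three _ _ _
  calc ∑ k, ∑ j, |bil v (γ k) (η j)|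
      ≤ ∑ k, ∑ j, (|bil v (big q δ (γ k)) (big q δ' (η j))| +
      |bil v (big q δ (γ k)) (sml q δ' (η j))| + |bil v (sml q δ (γ k)) (η j)|) :=
        Finset.sum_le_sum fun k _ => Finset.sum_le_sum fun j _ => hsplit k j
    _ = ∑ k, ∑ j, |bil v (big q δ (γ k)) (big q δ' (η j))| +
        ∑ k, ∑ j, |bil v (big q δ (γ k)) (sml q δ' (η j))| +
        ∑ k, ∑ j, |bil v (sml q δ (γ k)) (η j)| := by
        simp only [Finset.sum_add_distrib]
    _ ≤ (C₁ + 3) * (N : ℝ) ^ (2 / q) := by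
        have : (0 : ℝ) < (N : ℝ) ^ (2 / q) := by positivity
        nlinarith

end Pool.Agent.Helper630.Stable
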