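import Mathlib
import Pool.Agent.Helper630.Stable.S9

open MeasureTheory ENNReal

namespace Pool.Agent.Helper630.Stable

section T1

variable {Ω : Type*} [MeasurableSpace Ω] {μ : Measure Ω} {p q : ℝ≥0∞}

lemma memLp_integrable_rpow [Fact (1 ≤ p)] (hp : p ≠ ∞) (f : Lp ℝ p μ) :
    Integrable (fun x => |f x| ^ p.toReal) μ := by
  have := (Lp.memLp f).integrable_norm_rpow (by
    intro h; have h1 : (1 : ℝ≥0∞) ≤ p := Fact.out
    rw [h] at h1; simp at h1) hp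
  simpa [Real.norm_eq_abs] using this

lemma lp_ne_zero [Fact (1 ≤ p)] : p ≠ 0 := by
  intro h; have h1 : (1 : ℝ≥0∞) ≤ p := Fact.out
  rw [h] at h1; simp at h1

lemma lp_toReal_pos [Fact (1 ≤ p)] (hp : p ≠ ∞) : 0 < p.toReal :=
  ENNReal.toReal_pos lp_ne_zero hp

lemma lp_one_le_toReal [Fact (1 ≤ p)] (hp : p ≠ ∞) : 1 ≤ p.toReal := by
  have h1 : (1 : ℝ≥0∞) ≤ p := Fact.out
  have := ENNReal.toReal_mono hp h1
  simpa using this

lemma norm_rpow_eq [Fact (1 ≤ p)] (hp : p ≠ ∞) (f : Lp ℝ p μ) :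
    ‖f‖ ^ p.toReal = ∫ x, |f x| ^ p.toReal ∂μ := by
  have h0 := lp_toReal_pos hp
  have hI : 0 ≤ ∫ x, |f x| ^ p.toReal ∂μ :=
    integral_nonneg fun x => Real.rpow_nonneg (abs_nonneg _) _
  rw [Lp.norm_def, (Lp.memLp f).eLpNorm_eq_integral_rpow_norm lp_ne_zero hp]
  simp only [Real.norm_eq_abs]
  rw [ENNReal.toReal_ofReal (Real.rpow_nonneg hI _), ← Real.rpow_mul hI,
    inv_mul_cancel₀ h0.ne', Real.rpow_one]

/-- the pairing between `L^p` and `L^q` -/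
noncomputable def P [Fact (1 ≤ p)] [Fact (1 ≤ q)] [ENNReal.HolderConjugate p q] :
    Lp ℝ p μ →L[ℝ] Lp ℝ q μ →L[ℝ] ℝ :=
  (ContinuousLinearMap.mul ℝ ℝ).lpPairing μ p q

variable [Fact (1 ≤ p)] [Fact (1 ≤ q)] [ENNReal.HolderConjugate p q]

lemma P_apply (f : Lp ℝ p μ) (g : Lp ℝ q μ) : P f g = ∫ x, f x * g x ∂μ := by
  unfold P
  rw [ContinuousLinearMap.lpPairing_eq_integral]
  rfl

omit [Fact (1 ≤ p)] [Fact (1 ≤ q)] in
lemma P_integrable (f : Lp ℝ p μ) (g : Lp ℝ q μ) : Integrable (fun x => f x * g x) μ := by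
  have := (ContinuousLinearMap.mul ℝ ℝ).memLp_of_bilin 1 (Lp.memLp f) (Lp.memLp g)
  exact memLp_one_iff_integrable.mp this

lemma abs_P_le (f : Lp ℝ p μ) (g : Lp ℝ q μ) : |P f g| ≤ ‖f‖ * ‖g‖ := by
  have h1 : P f g = ∫ x, ((ContinuousLinearMap.mul ℝ ℝ).holder 1 f g : Lp ℝ 1 μ) x ∂μ := by
    rw [P_apply]
    refine integral_congr_ae ?_
    filter_upwards [(ContinuousLinearMap.mul ℝ ℝ).coeFn_holder (r := 1) f g] with x hx
    rw [hx]; rfl
  have h2 : ‖∫ x, ((ContinuousLinearMap.mul ℝ ℝ).holder 1 f g : Lp ℝ 1 μ) x ∂μ‖ ≤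
      ‖((ContinuousLinearMap.mul ℝ ℝ).holder 1 f g : Lp ℝ 1 μ)‖ := by
    rw [← L1.integral_eq_integral]
    exact L1.norm_integral_le _
  have h3 := (ContinuousLinearMap.mul ℝ ℝ).norm_holder_apply_apply_le (r := 1) f g
  have h4 : ‖ContinuousLinearMap.mul ℝ ℝ‖ ≤ 1 := ContinuousLinearMap.opNorm_mul_le ℝ ℝ
  rw [h1, ← Real.norm_eq_abs]
  refine h2.trans (h3.trans ?_)
  calc ‖ContinuousLinearMap.mul ℝ ℝ‖ * ‖f‖ * ‖g‖ ≤ 1 * ‖f‖ * ‖g‖ := by gcongr
    _ = ‖f‖ * ‖g‖ := by ring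

end T1

section T1b

variable {Ω : Type*} [MeasurableSpace Ω] {μ : Measure Ω} {p : ℝ≥0∞}
variable {ι : Type*} [Fintype ι]

lemma memLp_M (π : Ω → ι) (hπ : ∀ k, MeasurableSet (π ⁻¹' {k})) (g : Lp ℝ p μ) (θ : ι → ℝ) :
    MemLp (fun ω => θ (π ω) * g ω) p μ := by
  classical
  have hm : Measurable (fun ω => θ (π ω)) := by
    have : (fun ω => θ (π ω)) = fun ω => ∑ k, θ k * (π ⁻¹' {k}).indicator (fun _ => (1 : ℝ)) ω := by
      funext ω
      rw [Finset.sum_eq_single (π ω)]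
      · simp
      · intro k _ hk
        rw [Set.indicator_of_notMem, mul_zero]
        simpa using Ne.symm hk
      · simp
    rw [this]
    refine Finset.measurable_sum _ fun k _ => ?_
    exact (measurable_const.indicator (hπ k)).const_mul _
  refine MemLp.of_le_mul (c := ∑ k, |θ k|) (Lp.memLp g)
    (hm.aestronglyMeasurable.mul (Lp.memLp g).1) (Filter.Eventually.of_forall fun ω => ?_)
  rw [norm_mul]
  refine mul_le_mul_of_nonneg_right ?_ (norm_nonneg _)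
  exact Finset.single_le_sum (f := fun k => |θ k|) (fun k _ => abs_nonneg _) (Finset.mem_univ _)

/-- multiplication of `g` by the simple function `θ ∘ π` -/
noncomputable def M (π : Ω → ι) (hπ : ∀ k, MeasurableSet (π ⁻¹' {k})) (g : Lp ℝ p μ) :
    (ι → ℝ) →ₗ[ℝ] Lp ℝ p μ where
  toFun θ := (memLp_M π hπ g θ).toLp
  map_add' θ θ' := by
    rw [← MemLp.toLp_add]
    refine MemLp.toLp_congr _ _ (Filter.Eventually.of_forall fun ω => ?_)
    simp [add_mul]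
  map_smul' c θ := by
    rw [RingHom.id_apply, ← MemLp.toLp_const_smul]
    refine MemLp.toLp_congr _ _ (Filter.Eventually.of_forall fun ω => ?_)
    simp [mul_assoc]

lemma M_coe (π : Ω → ι) (hπ : ∀ k, MeasurableSet (π ⁻¹' {k})) (g : Lp ℝ p μ) (θ : ι → ℝ) :
    M π hπ g θ =ᵐ[μ] fun ω => θ (π ω) * g ω := by
  exact MemLp.coeFn_toLp (memLp_M π hπ g θ)

lemma M_eq_sum [DecidableEq ι] (π : Ω → ι) (hπ : ∀ k, MeasurableSet (π ⁻¹' {k})) (g : Lp ℝ p μ) (θ : ι → ℝ) :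
    M π hπ g θ = ∑ k, θ k • M π hπ g (Pi.single k 1) := by
  conv_lhs => rw [← Finset.univ_sum_single θ]
  rw [map_sum]
  refine Finset.sum_congr rfl fun k _ => ?_
  rw [← map_smul]
  congr 1
  funext j
  by_cases h : j = k
  · subst h; simp
  · simp [h]

lemma M_norm_rpow [DecidableEq ι] [Fact (1 ≤ p)] (hp : p ≠ ∞) (π : Ω → ι)
    (hπ : ∀ k, MeasurableSet (π ⁻¹' {k})) (g : Lp ℝ p μ) (θ : ι → ℝ) :
    ‖M π hπ g θ‖ ^ p.toReal = ∑ k, |θ k| ^ p.toReal * ‖M π hπ g (Pi.single k 1)‖ ^ p.toReal := by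
  have h0 := lp_toReal_pos hp
  simp only [norm_rpow_eq hp]
  simp only [← integral_const_mul]
  rw [← integral_finsetSum]
  · refine integral_congr_ae ?_
    have h1 : ∀ k : ι, M π hπ g (Pi.single k 1) =ᵐ[μ] fun ω => (Pi.single k 1 : ι → ℝ) (π ω) * g ω :=
      fun k => M_coe π hπ g _
    have h2 := ae_all_iff.mpr h1
    filter_upwards [h2, M_coe π hπ g θ] with ω hω hθ
    simp only [hω, hθ]
    rw [Finset.sum_eq_single (π ω)]
    · rw [Pi.single_eq_same, one_mul, abs_mul, Real.mul_rpow (abs_nonneg _) (abs_nonneg _)]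
    · intro k _ hk
      rw [Pi.single_eq_of_ne hk.symm, zero_mul, abs_zero, Real.zero_rpow h0.ne', mul_zero]
    · simp
  · intro k _
    exact (memLp_integrable_rpow hp _).const_mul _

lemma M_single_sum [DecidableEq ι] [Fact (1 ≤ p)] (hp : p ≠ ∞) (π : Ω → ι)
    (hπ : ∀ k, MeasurableSet (π ⁻¹' {k})) (g : Lp ℝ p μ) :
    ∑ k, ‖M π hπ g (Pi.single k 1)‖ ^ p.toReal = ‖g‖ ^ p.toReal := by
  have := M_norm_rpow hp π hπ g (fun _ => 1)
  have h1 : M π hπ g (fun _ => 1) = g := by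
    apply Lp.ext
    filter_upwards [M_coe π hπ g (fun _ => 1)] with ω hω
    rw [hω, one_mul]
  rw [h1] at this
  rw [this]
  refine Finset.sum_congr rfl fun k _ => ?_
  rw [abs_one, Real.one_rpow, one_mul]

end T1b

end Pool.Agent.Helper630.Stable
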