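import Mathlib
import Pool.Agent.Helper630.Stable.T1

open MeasureTheory ENNReal

namespace Pool.Agent.Helper630.Stable

section T2

variable {Ω : Type*} [MeasurableSpace Ω] {μ : Measure Ω} {p q : ℝ≥0∞}
variable [Fact (1 ≤ p)] [Fact (1 ≤ q)] [ENNReal.HolderConjugate p q]

lemma dual_cls {κ : Type*} [Fintype κ] (hpq : q.toReal.HolderConjugate p.toReal)
    (ψ : κ → Lp ℝ q μ) (B : ℝ) (hB : 0 ≤ B)
    (hψ : ∀ x : κ → ℝ, ‖∑ l, x l • ψ l‖ ^ q.toReal ≤ B ^ q.toReal * ∑ l, |x l| ^ q.toReal)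
    (ζ : Lp ℝ p μ) :
    ∑ l, |P ζ (ψ l)| ^ p.toReal ≤ (B * ‖ζ‖) ^ p.toReal := by
  set d : κ → ℝ := fun l => P ζ (ψ l) with hd
  set a := p.toReal with ha
  set b := q.toReal with hb
  have ha1 : 1 < a := hpq.symm.lt
  have hb1 : 1 < b := hpq.lt
  have hab : (a - 1) * b = a := by
    have := hpq.symm.sub_one_mul_conj
    linarith
  set x : κ → ℝ := fun l => |d l| ^ (a - 1) * SignType.sign (d l) with hx
  set S := ∑ l, |d l| ^ a with hS
  have hS0 : 0 ≤ S := Finset.sum_nonneg fun l _ => Real.rpow_nonneg (abs_nonneg _) _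
  have hxd : ∀ l, x l * d l = |d l| ^ a := by
    intro l
    rw [hx]
    simp only
    rw [mul_assoc, sign_mul_self]
    by_cases h : d l = 0
    · rw [h, abs_zero, mul_zero, Real.zero_rpow (by linarith)]
    · have h1 : 0 < |d l| := abs_pos.mpr h
      nth_rewrite 2 [← Real.rpow_one (|d l|)]
      rw [← Real.rpow_add h1]
      congr 1; ring
  have hxq : ∀ l, |x l| ^ b = |d l| ^ a := by
    intro l
    rw [hx]
    simp only
    by_cases h : d l = 0
    · rw [h]
      simp only [abs_zero, sign_zero, SignType.coe_zero, mul_zero]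
      rw [Real.zero_rpow (by linarith), Real.zero_rpow (by linarith)]
    · have h1 : 0 < |d l| := abs_pos.mpr h
      have h2 : |((SignType.sign (d l) : SignType) : ℝ)| = 1 := by
        rcases lt_or_gt_of_ne h with h3 | h3
        · rw [sign_neg h3]; simp
        · rw [sign_pos h3]; simp
      rw [abs_mul, h2, mul_one, abs_of_nonneg (Real.rpow_nonneg h1.le _), ← Real.rpow_mul h1.le, hab]
  have hSx : S = P ζ (∑ l, x l • ψ l) := by
    rw [map_sum, hS]
    refine Finset.sum_congr rfl fun l _ => ?_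
    rw [map_smul, smul_eq_mul, ← hxd l]
  have hn : ‖∑ l, x l • ψ l‖ ≤ B * S ^ (1 / b) := by
    have h1 := hψ x
    simp only [hxq] at h1
    have h2 : (B * S ^ (1 / b)) ^ b = B ^ b * S := by
      rw [Real.mul_rpow hB (Real.rpow_nonneg hS0 _), ← Real.rpow_mul hS0, one_div,
        inv_mul_cancel₀ (by linarith), Real.rpow_one]
    rw [← h2] at h1
    exact (Real.rpow_le_rpow_iff (norm_nonneg _) (mul_nonneg hB (Real.rpow_nonneg hS0 _))
      (by linarith)).mp h1
  have hle : S ≤ ‖ζ‖ * (B * S ^ (1 / b)) := by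
    calc S ≤ |P ζ (∑ l, x l • ψ l)| := by rw [← hSx]; exact le_abs_self _
      _ ≤ ‖ζ‖ * ‖∑ l, x l • ψ l‖ := abs_P_le _ _
      _ ≤ _ := by gcongr
  rcases hS0.eq_or_lt with h0 | h0
  · rw [← h0]
    exact Real.rpow_nonneg (mul_nonneg hB (norm_nonneg _)) _
  · have h3 : S ^ (1 / a) ≤ B * ‖ζ‖ := by
      have h4 : S ^ (1 / a) * S ^ (1 / b) = S := by
        rw [← Real.rpow_add h0, one_div, one_div]
        rw [hpq.symm.inv_add_inv_eq_one, Real.rpow_one]
      have h5 : 0 < S ^ (1 / b) := Real.rpow_pos_of_pos h0 _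
      have h6 : S ^ (1 / a) * S ^ (1 / b) ≤ (B * ‖ζ‖) * S ^ (1 / b) := by
        rw [h4]; linarith
      exact le_of_mul_le_mul_right h6 h5
    calc S = (S ^ (1 / a)) ^ a := by
          rw [← Real.rpow_mul hS0, one_div, inv_mul_cancel₀ (by linarith), Real.rpow_one]
      _ ≤ _ := Real.rpow_le_rpow (Real.rpow_nonneg hS0 _) h3 (by linarith)

end T2

/-- a system of pairwise disjoint measurable sets of positive finite measure -/
structure Sys {Ω : Type*} [MeasurableSpace Ω] (μ : Measure Ω) (κ : Type*) where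
  G : κ → Set Ω
  meas : ∀ k, MeasurableSet (G k)
  disj : ∀ k l, k ≠ l → Disjoint (G k) (G l)
  fin : ∀ k, μ (G k) ≠ ∞
  pos : ∀ k, 0 < (μ (G k)).toReal

namespace Sys

variable {Ω : Type*} [MeasurableSpace Ω] {μ : Measure Ω} {κ : Type*} {p q : ℝ≥0∞}

/-- normalised indicator functions -/
noncomputable def φ (S : Sys μ κ) (q : ℝ≥0∞) (k : κ) : Lp ℝ q μ :=
  indicatorConstLp q (S.meas k) (S.fin k) ((μ (S.G k)).toReal ^ (-(1 / q.toReal)))

lemma φ_coe (S : Sys μ κ) (q : ℝ≥0∞) (k : κ) :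
    S.φ q k =ᵐ[μ] (S.G k).indicator fun _ => (μ (S.G k)).toReal ^ (-(1 / q.toReal)) :=
  indicatorConstLp_coeFn

lemma sum_φ_coe [Fintype κ] (S : Sys μ κ) (q : ℝ≥0∞) (x : κ → ℝ) :
    ((∑ l, x l • S.φ q l : Lp ℝ q μ) : Ω → ℝ) =ᵐ[μ]
      fun ω => ∑ l, x l * (S.G l).indicator (fun _ => (μ (S.G l)).toReal ^ (-(1 / q.toReal))) ω := by
  have h1 : ∀ l, ((x l • S.φ q l : Lp ℝ q μ) : Ω → ℝ) =ᵐ[μ]
      fun ω => x l * (S.G l).indicator (fun _ => (μ (S.G l)).toReal ^ (-(1 / q.toReal))) ω := by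
    intro l
    filter_upwards [Lp.coeFn_smul (x l) (S.φ q l), S.φ_coe q l] with ω h h'
    rw [h, Pi.smul_apply, smul_eq_mul, h']
  have h2 := ae_all_iff.mpr h1
  filter_upwards [h2, Lp.coeFn_finsetSum Finset.univ (fun l => x l • S.φ q l)] with ω h h'
  rw [h']
  simp only [Finset.sum_apply]
  exact Finset.sum_congr rfl fun l _ => h l

lemma norm_sum_φ [Fintype κ] [Fact (1 ≤ q)] (hq : q ≠ ∞) (S : Sys μ κ) (x : κ → ℝ) :
    ‖∑ l, x l • S.φ q l‖ ^ q.toReal = ∑ l, |x l| ^ q.toReal := by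
  have h0 := lp_toReal_pos hq
  rw [norm_rpow_eq hq]
  have h1 : ∀ ω, |∑ l, x l * (S.G l).indicator
      (fun _ => (μ (S.G l)).toReal ^ (-(1 / q.toReal))) ω| ^ q.toReal =
      ∑ l, |x l| ^ q.toReal * (S.G l).indicator (fun _ => (μ (S.G l)).toReal ^ (-1 : ℝ)) ω := by
    intro ω
    by_cases h : ∃ l, ω ∈ S.G l
    · obtain ⟨l, hl⟩ := h
      have hn : ∀ k, k ≠ l → ω ∉ S.G k := fun k hk hω =>
        Set.disjoint_left.mp (S.disj k l hk) hω hl
      rw [Finset.sum_eq_single l, Finset.sum_eq_single l]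
      · rw [Set.indicator_of_mem hl, Set.indicator_of_mem hl, abs_mul,
          abs_of_nonneg (Real.rpow_nonneg (S.pos l).le _),
          Real.mul_rpow (abs_nonneg _) (Real.rpow_nonneg (S.pos l).le _),
          ← Real.rpow_mul (S.pos l).le]
        congr 2
        field_simp
      · intro k _ hk
        rw [Set.indicator_of_notMem (hn k hk), mul_zero]
      · simp
      · intro k _ hk
        rw [Set.indicator_of_notMem (hn k hk), mul_zero]
      · simp
    · push Not at h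
      rw [Finset.sum_eq_zero, Finset.sum_eq_zero, abs_zero, Real.zero_rpow h0.ne']
      · intro k _; rw [Set.indicator_of_notMem (h k), mul_zero]
      · intro k _; rw [Set.indicator_of_notMem (h k), mul_zero]
  have h2 : ∫ ω, |(∑ l, x l • S.φ q l : Lp ℝ q μ) ω| ^ q.toReal ∂μ =
      ∫ ω, ∑ l, |x l| ^ q.toReal *
        (S.G l).indicator (fun _ => (μ (S.G l)).toReal ^ (-1 : ℝ)) ω ∂μ := by
    refine integral_congr_ae ?_
    filter_upwards [S.sum_φ_coe q x] with ω hω
    rw [hω, h1]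
  rw [h2, integral_finsetSum]
  · refine Finset.sum_congr rfl fun l _ => ?_
    rw [integral_const_mul, integral_indicator (S.meas l), setIntegral_const, smul_eq_mul,
      Measure.real, Real.rpow_neg_one, mul_inv_cancel₀ (S.pos l).ne', mul_one]
  · intro l _
    refine Integrable.const_mul ?_ _
    exact (integrable_indicator_iff (S.meas l)).mpr (integrableOn_const (S.fin l))

/-- the operator with matrix `v` on the blocks -/
noncomputable def U [Fact (1 ≤ p)] [Fact (1 ≤ q)] [ENNReal.HolderConjugate p q] [Fintype κ]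
    (S : Sys μ κ) (v : κ → κ → ℝ) : Lp ℝ p μ →L[ℝ] Lp ℝ q μ :=
  ∑ i, ∑ l, v i l • ((P.flip (S.φ q i) : Lp ℝ p μ →L[ℝ] ℝ).smulRight (S.φ q l))

lemma U_apply [Fact (1 ≤ p)] [Fact (1 ≤ q)] [ENNReal.HolderConjugate p q] [Fintype κ]
    (S : Sys μ κ) (v : κ → κ → ℝ) (f : Lp ℝ p μ) :
    (S.U v : Lp ℝ p μ →L[ℝ] Lp ℝ q μ) f = ∑ i, ∑ l, (v i l * P f (S.φ q i)) • S.φ q l := by
  unfold U
  simp only [ContinuousLinearMap.sum_apply, ContinuousLinearMap.smul_apply,
    ContinuousLinearMap.smulRight_apply, ContinuousLinearMap.flip_apply, smul_smul]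

end Sys

end Pool.Agent.Helper630.Stable
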