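import Mathlib
import Pool.Agent.Helper630.Stable.T2

open MeasureTheory ENNReal

namespace Pool.Agent.Helper630.Stable

/-- the discrete property, for arbitrary finite index types and without normalisation -/
def Good (p C : ℝ) {N : ℕ} (u : Fin N → Fin N → ℝ) : Prop :=
  ∀ (ι κ : Type) [Fintype ι] [Fintype κ] (γ : ι → Fin N → ℝ) (μ : ι → ℝ)
    (η : κ → Fin N → ℝ) (ν : κ → ℝ) (A B : ℝ), 0 ≤ A → 0 ≤ B → Cls p γ μ → ∑ k, μ k ^ p ≤ A ^ p →
    Cls p η ν → ∑ k, ν k ^ p ≤ B ^ p → ∑ k, ∑ j, |bil u (γ k) (η j)| ≤ C * A * B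

lemma bil_scale {N : ℕ} (c a b : ℝ) (v : Fin N → Fin N → ℝ) (x y : Fin N → ℝ) :
    bil (fun i l => c * v i l) (fun i => a * x i) (fun i => b * y i) = c * a * b * bil v x y := by
  unfold bil
  rw [Finset.mul_sum]
  refine Finset.sum_congr rfl fun i _ => ?_
  rw [Finset.mul_sum]
  refine Finset.sum_congr rfl fun l _ => ?_
  ring

lemma Cls.scale {ι : Type*} [Fintype ι] {N : ℕ} {p : ℝ} {γ : ι → Fin N → ℝ} {μ : ι → ℝ}
    (h : Cls p γ μ) {c : ℝ} (hc : 0 ≤ c) : Cls p (fun k i => c * γ k i) (fun k => c * μ k) := by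
  refine ⟨fun k => mul_nonneg hc (h.1 k), fun θ => ?_⟩
  have h1 := h.2 θ
  have e1 : ∀ i, |∑ k, θ k * (c * γ k i)| ^ p = c ^ p * |∑ k, θ k * γ k i| ^ p := by
    intro i
    have : ∑ k, θ k * (c * γ k i) = c * ∑ k, θ k * γ k i := by
      rw [Finset.mul_sum]
      refine Finset.sum_congr rfl fun k _ => ?_
      ring
    rw [this, abs_mul, abs_of_nonneg hc, Real.mul_rpow hc (abs_nonneg _)]
  have e2 : ∀ k, |θ k| ^ p * (c * μ k) ^ p = c ^ p * (|θ k| ^ p * μ k ^ p) := by
    intro k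
    rw [Real.mul_rpow hc (h.1 k)]
    ring
  simp only [e1, e2, ← Finset.mul_sum]
  exact mul_le_mul_of_nonneg_left h1 (Real.rpow_nonneg hc _)

lemma Cls.reindex {ι κ : Type*} [Fintype ι] [Fintype κ] {N : ℕ} {p : ℝ} {γ : ι → Fin N → ℝ}
    {μ : ι → ℝ} (h : Cls p γ μ) (e : κ ≃ ι) : Cls p (fun k => γ (e k)) (fun k => μ (e k)) := by
  refine ⟨fun k => h.1 _, fun θ => ?_⟩
  have h1 := h.2 (fun j => θ (e.symm j))
  have e1 : ∀ i, ∑ j, θ (e.symm j) * γ j i = ∑ k, θ k * γ (e k) i := by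
    intro i
    rw [← e.sum_comp]
    simp
  have e2 : ∑ j, |θ (e.symm j)| ^ p * μ j ^ p = ∑ k, |θ k| ^ p * μ (e k) ^ p := by
    rw [← e.sum_comp]
    simp
  simp only [e1, e2] at h1
  exact h1

theorem good_main (p q : ℝ) (hp : 2 < p) (hpq : q.HolderConjugate p) :
    ∃ C₀ : ℝ, 0 < C₀ ∧ ∀ R : ℝ, ∃ (N : ℕ) (u : Fin N → Fin N → ℝ),
      R ≤ ∑ i, ∑ l, |u i l| ^ q ∧ Good p C₀ u := by
  obtain ⟨C₀, hC₀, h⟩ := discrete_main p q hp hpq
  refine ⟨C₀, hC₀, fun R => ?_⟩
  obtain ⟨N, v, hN, hR, hv⟩ := h R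
  have hp0 : 0 < p := by linarith
  have hq1 : 1 < q := hpq.lt
  have hq0 : 0 < q := by linarith
  have hN0 : (0 : ℝ) < N := by exact_mod_cast hN
  set c : ℝ := (N : ℝ) ^ (-(2 / q)) with hc
  have hc0 : 0 < c := Real.rpow_pos_of_pos hN0 _
  have hcN : c * (N : ℝ) ^ (2 / q) = 1 := by
    rw [hc, ← Real.rpow_add hN0]; simp
  refine ⟨N, fun i l => c * v i l, ?_, ?_⟩
  · have e : ∀ i l, |c * v i l| ^ q = (N ^ 2 : ℝ)⁻¹ * |v i l| ^ q := by
      intro i l
      rw [abs_mul, abs_of_pos hc0, Real.mul_rpow hc0.le (abs_nonneg _)]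
      congr 1
      rw [hc, ← Real.rpow_mul hN0.le, ← Real.rpow_natCast, ← Real.rpow_neg hN0.le]
      congr 1
      push_cast
      field_simp
    simp only [e, ← Finset.mul_sum]
    rw [inv_mul_eq_div, le_div_iff₀ (by positivity)]
    exact hR
  · intro ι κ _ _ γ μ η ν A B hA hB hγ hμ hη hν
    have key : ∀ a b : ℝ, 0 < a → 0 < b → A ≤ a → B ≤ b →
        ∑ k, ∑ j, |bil (fun i l => c * v i l) (γ k) (η j)| ≤ C₀ * a * b := by
      intro a b ha hb hAa hBb
      have h1 := hv (Fintype.card ι) (Fintype.card κ)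
        (fun k i => a⁻¹ * γ ((Fintype.equivFin ι).symm k) i)
        (fun k => a⁻¹ * μ ((Fintype.equivFin ι).symm k))
        (fun k i => b⁻¹ * η ((Fintype.equivFin κ).symm k) i)
        (fun k => b⁻¹ * ν ((Fintype.equivFin κ).symm k))
        ((hγ.reindex (Fintype.equivFin ι).symm).scale (by positivity)) ?_
        ((hη.reindex (Fintype.equivFin κ).symm).scale (by positivity)) ?_
      · rw [(Fintype.equivFin ι).symm.sum_comp (fun k => ∑ j, |bil v (fun i => a⁻¹ * γ k i)
          (fun i => b⁻¹ * η ((Fintype.equivFin κ).symm j) i)|)] at h1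
        have h2 : ∀ k, ∑ j, |bil v (fun i => a⁻¹ * γ k i)
            (fun i => b⁻¹ * η ((Fintype.equivFin κ).symm j) i)| =
            a⁻¹ * b⁻¹ * ∑ j, |bil v (γ k) (η j)| := by
          intro k
          rw [(Fintype.equivFin κ).symm.sum_comp (fun j => |bil v (fun i => a⁻¹ * γ k i)
            (fun i => b⁻¹ * η j i)|), Finset.mul_sum]
          refine Finset.sum_congr rfl fun j _ => ?_
          have := bil_scale 1 a⁻¹ b⁻¹ v (γ k) (η j)
          simp only [one_mul] at this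
          rw [this, abs_mul, abs_of_pos (by positivity)]
        simp only [h2, ← Finset.mul_sum] at h1
        have h3 : ∀ k j, |bil (fun i l => c * v i l) (γ k) (η j)| = c * |bil v (γ k) (η j)| := by
          intro k j
          have := bil_scale c 1 1 v (γ k) (η j)
          simp only [one_mul, mul_one] at this
          rw [this, abs_mul, abs_of_pos hc0]
        simp only [h3, ← Finset.mul_sum]
        set S := ∑ k, ∑ j, |bil v (γ k) (η j)|
        have h4 : S ≤ a * b * (C₀ * (N : ℝ) ^ (2 / q)) := by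
          have : a * b * (a⁻¹ * b⁻¹ * S) = S := by field_simp
          rw [← this]
          exact mul_le_mul_of_nonneg_left h1 (by positivity)
        calc c * S ≤ c * (a * b * (C₀ * (N : ℝ) ^ (2 / q))) := by gcongr
          _ = C₀ * a * b * (c * (N : ℝ) ^ (2 / q)) := by ring
          _ = C₀ * a * b := by rw [hcN, mul_one]
      · rw [(Fintype.equivFin ι).symm.sum_comp (fun k => (a⁻¹ * μ k) ^ p)]
        have : ∀ k, (a⁻¹ * μ k) ^ p = (a ^ p)⁻¹ * μ k ^ p := by
          intro k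
          rw [Real.mul_rpow (by positivity) (hγ.1 k), Real.inv_rpow ha.le]
        simp only [this, ← Finset.mul_sum]
        rw [inv_mul_le_iff₀ (by positivity), mul_one]
        exact hμ.trans (Real.rpow_le_rpow hA hAa hp0.le)
      · rw [(Fintype.equivFin κ).symm.sum_comp (fun k => (b⁻¹ * ν k) ^ p)]
        have : ∀ k, (b⁻¹ * ν k) ^ p = (b ^ p)⁻¹ * ν k ^ p := by
          intro k
          rw [Real.mul_rpow (by positivity) (hη.1 k), Real.inv_rpow hb.le]
        simp only [this, ← Finset.mul_sum]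
        rw [inv_mul_le_iff₀ (by positivity), mul_one]
        exact hν.trans (Real.rpow_le_rpow hB hBb hp0.le)
    have ht : Filter.Tendsto (fun ε : ℝ => C₀ * (A + ε) * (B + ε)) (nhdsWithin 0 (Set.Ioi 0))
        (nhds (C₀ * (A + 0) * (B + 0))) := by
      refine Filter.Tendsto.mono_left ?_ nhdsWithin_le_nhds
      exact (by fun_prop : Continuous fun ε : ℝ => C₀ * (A + ε) * (B + ε)).tendsto 0
    rw [add_zero, add_zero] at ht
    refine ge_of_tendsto ht ?_
    filter_upwards [self_mem_nhdsWithin] with ε hε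
    have hε : 0 < ε := hε
    exact key _ _ (by linarith) (by linarith) (by linarith) (by linarith)

end Pool.Agent.Helper630.Stable
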