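import Mathlib
import Pool.Agent.Helper630.Stable.T3

open MeasureTheory ENNReal

namespace Pool.Agent.Helper630.Stable

section T4

variable {Ω : Type*} [MeasurableSpace Ω] {μ : Measure Ω} {p q : ℝ≥0∞}
variable [Fact (1 ≤ p)] [Fact (1 ≤ q)] [ENNReal.HolderConjugate p q]

lemma exists_dual (hpq : q.toReal.HolderConjugate p.toReal) (hp : p ≠ ∞) (hq : q ≠ ∞)
    (H : Lp ℝ q μ) (hH : 0 ≤ H) :
    ∃ ν : Lp ℝ p μ, P ν H = ‖H‖ ^ q.toReal ∧ ‖ν‖ ^ p.toReal = ‖H‖ ^ q.toReal ∧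
      ∀ᵐ ω ∂μ, 0 ≤ ν ω := by
  set a := p.toReal with ha
  set b := q.toReal with hb
  have ha1 : 1 < a := hpq.symm.lt
  have hb1 : 1 < b := hpq.lt
  have hab : (b - 1) * a = b := by
    have := hpq.sub_one_mul_conj
    linarith
  have hpt : ∀ ω, ‖|H ω| ^ (b - 1)‖ ^ a = |H ω| ^ b := by
    intro ω
    rw [Real.norm_eq_abs, abs_of_nonneg (Real.rpow_nonneg (abs_nonneg _) _),
      ← Real.rpow_mul (abs_nonneg _), hab]
  have hm : MemLp (fun ω => |H ω| ^ (b - 1)) p μ := by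
    rw [← integrable_norm_rpow_iff _ lp_ne_zero hp]
    · simp only [← ha, hpt]
      exact memLp_integrable_rpow hq H
    · exact (((Lp.stronglyMeasurable H).measurable.abs).pow_const _).aestronglyMeasurable
  have hco := hm.coeFn_toLp
  have hH' := (Lp.coeFn_nonneg H).mpr hH
  refine ⟨hm.toLp, ?_, ?_, ?_⟩
  · rw [P_apply, norm_rpow_eq hq]
    refine integral_congr_ae ?_
    filter_upwards [hco, hH'] with ω h1 h2
    have h2 : 0 ≤ H ω := h2
    rw [h1, abs_of_nonneg h2, ← hb]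
    rcases h2.eq_or_lt with h3 | h3
    · rw [← h3, mul_zero, Real.zero_rpow (by linarith)]
    · nth_rewrite 2 [← Real.rpow_one (H ω)]
      rw [← Real.rpow_add h3]
      congr 1; ring
  · rw [norm_rpow_eq hp, norm_rpow_eq hq]
    refine integral_congr_ae ?_
    filter_upwards [hco] with ω h1
    rw [h1, ← hb, ← hpt ω, Real.norm_eq_abs]
  · filter_upwards [hco] with ω h1
    rw [h1]
    exact Real.rpow_nonneg (abs_nonneg _) _

/-- sign pattern of a finite family -/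
noncomputable def pat {ι : Type} (T : ι → Lp ℝ q μ) (ω : Ω) : ι → Bool := fun k => decide (0 ≤ T k ω)

omit [Fact (1 ≤ q)] in
lemma pat_meas {ι : Type} [Fintype ι] (T : ι → Lp ℝ q μ) (s : ι → Bool) :
    MeasurableSet (pat T ⁻¹' {s}) := by
  have : pat T ⁻¹' {s} = ⋂ k, {ω | decide (0 ≤ T k ω) = s k} := by
    ext ω
    simp only [Set.mem_preimage, Set.mem_singleton_iff, Set.mem_iInter, Set.mem_ofPred_eq]
    exact funext_iff
  rw [this]
  refine MeasurableSet.iInter fun k => ?_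
  have hm : MeasurableSet {ω | 0 ≤ T k ω} :=
    measurableSet_le measurable_const (Lp.stronglyMeasurable (T k)).measurable
  cases h : s k
  · have : {ω | decide (0 ≤ T k ω) = false} = {ω | 0 ≤ T k ω}ᶜ := by
      ext ω; simp
    rw [this]; exact hm.compl
  · have : {ω | decide (0 ≤ T k ω) = true} = {ω | 0 ≤ T k ω} := by
      ext ω; simp
    rw [this]; exact hm

lemma P_abs_le {ι : Type} [Fintype ι] [DecidableEq ι] (T : ι → Lp ℝ q μ) (ν : Lp ℝ p μ) (k : ι) :
    P ν |T k| ≤ ∑ s : ι → Bool, |P (M (pat T) (pat_meas T) ν (Pi.single s 1)) (T k)| := by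
  have h1 : ν = ∑ s : ι → Bool, M (pat T) (pat_meas T) ν (Pi.single s 1) := by
    have h2 := M_eq_sum (pat T) (pat_meas T) ν (fun _ => 1)
    simp only [one_smul] at h2
    rw [← h2]
    apply Lp.ext
    filter_upwards [M_coe (pat T) (pat_meas T) ν (fun _ => 1)] with ω hω
    rw [hω, one_mul]
  have h2 : P ν |T k| = ∑ s : ι → Bool, P (M (pat T) (pat_meas T) ν (Pi.single s 1)) |T k| := by
    conv_lhs => rw [h1]
    rw [map_sum, ContinuousLinearMap.sum_apply]
  rw [h2]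
  refine Finset.sum_le_sum fun s _ => ?_
  have h3 : P (M (pat T) (pat_meas T) ν (Pi.single s 1)) |T k| =
      (if s k then 1 else -1) * P (M (pat T) (pat_meas T) ν (Pi.single s 1)) (T k) := by
    rw [P_apply, P_apply, ← integral_const_mul]
    refine integral_congr_ae ?_
    filter_upwards [M_coe (pat T) (pat_meas T) ν (Pi.single s 1), Lp.coeFn_abs (T k)] with ω h4 h5
    rw [h4, h5]
    by_cases hs : pat T ω = s
    · have h6 : decide (0 ≤ T k ω) = s k := by rw [← hs]; rfl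
      by_cases h7 : 0 ≤ T k ω
      · rw [decide_eq_true h7] at h6
        rw [abs_of_nonneg h7, ← h6]; simp
      · rw [decide_eq_false h7] at h6
        rw [abs_of_neg (lt_of_not_ge h7), ← h6]; simp
    · rw [Pi.single_eq_of_ne hs]; simp
  rw [h3]
  refine (le_abs_self _).trans ?_
  rw [abs_mul]
  have : |(if s k then 1 else -1 : ℝ)| = 1 := by split_ifs <;> simp
  rw [this, one_mul]

lemma key_bound (hpq : q.toReal.HolderConjugate p.toReal) (hp : p ≠ ∞) (hq : q ≠ ∞) {N : ℕ}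
    (S : Sys μ (Fin N)) (u : Fin N → Fin N → ℝ) {C : ℝ} (hC : 0 ≤ C) (hu : Good p.toReal C u)
    (V : Lp ℝ p μ →L[ℝ] Lp ℝ p μ) (W : Lp ℝ q μ →L[ℝ] Lp ℝ q μ) {ι : Type} [Fintype ι]
    [DecidableEq ι] (π : Ω → ι) (hπ : ∀ k, MeasurableSet (π ⁻¹' {k})) (g : Lp ℝ p μ) :
    ‖∑ k, |W (S.U u (V (M π hπ g (Pi.single k 1))))|‖ ≤ C * (‖V‖ * ‖g‖) * ‖W‖ := by
  set a := p.toReal with ha
  set b := q.toReal with hb
  have ha1 : 1 < a := hpq.symm.lt
  have hb1 : 1 < b := hpq.lt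
  have ha0 : 0 < a := by linarith
  have hb0 : 0 < b := by linarith
  set T : ι → Lp ℝ q μ := fun k => W (S.U u (V (M π hπ g (Pi.single k 1)))) with hT
  set H : Lp ℝ q μ := ∑ k, |T k| with hH
  have hH0 : 0 ≤ H := Finset.sum_nonneg fun k _ => abs_nonneg _
  obtain ⟨ν, hν1, hν2, -⟩ := exists_dual hpq hp hq H hH0
  let γ : ι → Fin N → ℝ := fun k i => P (V (M π hπ g (Pi.single k 1))) (S.φ q i)
  let η : (ι → Bool) → Fin N → ℝ := fun s l =>
    P (M (pat T) (pat_meas T) ν (Pi.single s 1)) (W (S.φ q l))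
  have hbil : ∀ k s, P (M (pat T) (pat_meas T) ν (Pi.single s 1)) (T k) = bil u (γ k) (η s) := by
    intro k s
    simp only [hT, S.U_apply, map_sum, map_smul, smul_eq_mul, bil, γ, η]
  have hφ : ∀ x : Fin N → ℝ, ‖∑ l, x l • S.φ q l‖ ^ b ≤ 1 ^ b * ∑ l, |x l| ^ b := by
    intro x
    rw [Real.one_rpow, one_mul, hb, S.norm_sum_φ hq]
  have hWφ : ∀ x : Fin N → ℝ, ‖∑ l, x l • W (S.φ q l)‖ ^ b ≤ ‖W‖ ^ b * ∑ l, |x l| ^ b := by
    intro x
    have e : ∑ l, x l • W (S.φ q l) = W (∑ l, x l • S.φ q l) := by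
      simp only [map_sum, map_smul]
    rw [e]
    calc ‖W (∑ l, x l • S.φ q l)‖ ^ b ≤ (‖W‖ * ‖∑ l, x l • S.φ q l‖) ^ b :=
          Real.rpow_le_rpow (norm_nonneg _) (W.le_opNorm _) hb0.le
      _ = ‖W‖ ^ b * ∑ l, |x l| ^ b := by
          rw [Real.mul_rpow (norm_nonneg _) (norm_nonneg _), hb, S.norm_sum_φ hq]
  have hclsγ : Cls a γ (fun k => ‖V‖ * ‖M π hπ g (Pi.single k 1)‖) := by
    refine ⟨fun k => by positivity, fun θ => ?_⟩
    have e1 : ∀ i, ∑ k, θ k * γ k i = P (V (M π hπ g θ)) (S.φ q i) := by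
      intro i
      rw [M_eq_sum π hπ g θ]
      simp only [map_sum, map_smul, ContinuousLinearMap.sum_apply, ContinuousLinearMap.smul_apply,
        smul_eq_mul, γ]
    simp only [e1]
    refine (dual_cls hpq (fun i => S.φ q i) 1 zero_le_one hφ (V (M π hπ g θ))).trans ?_
    rw [one_mul]
    calc ‖V (M π hπ g θ)‖ ^ a ≤ (‖V‖ * ‖M π hπ g θ‖) ^ a :=
          Real.rpow_le_rpow (norm_nonneg _) (V.le_opNorm _) ha0.le
      _ = _ := by
          rw [Real.mul_rpow (norm_nonneg _) (norm_nonneg _), M_norm_rpow hp, Finset.mul_sum]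
          refine Finset.sum_congr rfl fun k _ => ?_
          rw [Real.mul_rpow (norm_nonneg _) (norm_nonneg _)]
          ring
  have hclsη : Cls a η (fun s => ‖W‖ * ‖M (pat T) (pat_meas T) ν (Pi.single s 1)‖) := by
    refine ⟨fun k => by positivity, fun θ => ?_⟩
    have e1 : ∀ i, ∑ s, θ s * η s i = P (M (pat T) (pat_meas T) ν θ) (W (S.φ q i)) := by
      intro i
      rw [M_eq_sum (pat T) (pat_meas T) ν θ]
      simp only [map_sum, map_smul, ContinuousLinearMap.sum_apply, ContinuousLinearMap.smul_apply,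
        smul_eq_mul, η]
    simp only [e1]
    refine (dual_cls hpq (fun i => W (S.φ q i)) ‖W‖ (norm_nonneg _) hWφ _).trans ?_
    rw [Real.mul_rpow (norm_nonneg _) (norm_nonneg _), M_norm_rpow hp, Finset.mul_sum]
    refine le_of_eq (Finset.sum_congr rfl fun k _ => ?_)
    rw [Real.mul_rpow (norm_nonneg _) (norm_nonneg _)]
    ring
  have hmain := hu ι (ι → Bool) γ _ η _ (‖V‖ * ‖g‖) (‖W‖ * ‖ν‖) (by positivity) (by positivity)
    hclsγ (by
      rw [Real.mul_rpow (norm_nonneg _) (norm_nonneg _), ← M_single_sum hp π hπ g, Finset.mul_sum]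
      refine le_of_eq (Finset.sum_congr rfl fun k _ => ?_)
      rw [Real.mul_rpow (norm_nonneg _) (norm_nonneg _)])
    hclsη (by
      rw [Real.mul_rpow (norm_nonneg _) (norm_nonneg _),
        ← M_single_sum hp (pat T) (pat_meas T) ν, Finset.mul_sum]
      refine le_of_eq (Finset.sum_congr rfl fun k _ => ?_)
      rw [Real.mul_rpow (norm_nonneg _) (norm_nonneg _)])
  have h1 : ‖H‖ ^ b ≤ C * (‖V‖ * ‖g‖) * (‖W‖ * ‖ν‖) := by
    rw [← hν1, hH, map_sum]
    refine (Finset.sum_le_sum fun k _ => P_abs_le T ν k).trans ?_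
    simp only [hbil]
    exact hmain
  have h2 : ‖ν‖ = ‖H‖ ^ (b - 1) := by
    have h3 : ‖ν‖ = (‖ν‖ ^ a) ^ (1 / a) := by
      rw [← Real.rpow_mul (norm_nonneg _), mul_one_div_cancel ha0.ne', Real.rpow_one]
    rw [h3, hν2, ← Real.rpow_mul (norm_nonneg _)]
    congr 1
    have := hpq.sub_one_mul_conj
    rw [mul_one_div, div_eq_iff ha0.ne']
    linarith
  rcases (norm_nonneg H).eq_or_lt with h0 | h0
  · rw [← h0]; positivity
  · rw [h2] at h1
    have h3 : ‖H‖ ^ b = ‖H‖ * ‖H‖ ^ (b - 1) := by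
      nth_rewrite 2 [← Real.rpow_one ‖H‖]
      rw [← Real.rpow_add h0]
      congr 1; ring
    rw [h3] at h1
    have h4 : 0 < ‖H‖ ^ (b - 1) := Real.rpow_pos_of_pos h0 _
    refine le_of_mul_le_mul_right (h1.trans (le_of_eq ?_)) h4
    ring

end T4

end Pool.Agent.Helper630.Stable
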