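import Mathlib
import Pool.Agent.Helper630.Stable.T4

open MeasureTheory ENNReal Filter Topology

namespace Pool.Agent.Helper630.Stable

section T5

variable {Ω : Type*} [MeasurableSpace Ω] {μ : Measure Ω} {p q : ℝ≥0∞}

lemma norm_mono' [Fact (1 ≤ q)] {a b : Lp ℝ q μ} (ha : 0 ≤ a) (hab : a ≤ b) : ‖a‖ ≤ ‖b‖ := by
  apply norm_le_norm_of_abs_le_abs
  rw [abs_of_nonneg ha, abs_of_nonneg (ha.trans hab)]
  exact hab

lemma superadd [Fact (1 ≤ q)] (hq : q ≠ ∞) {a b : Lp ℝ q μ} (ha : 0 ≤ a) (hab : a ≤ b) :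
    ‖b - a‖ ^ q.toReal ≤ ‖b‖ ^ q.toReal - ‖a‖ ^ q.toReal := by
  have h1 := lp_one_le_toReal hq
  rw [le_sub_iff_add_le, norm_rpow_eq hq, norm_rpow_eq hq, norm_rpow_eq hq,
    ← integral_add (memLp_integrable_rpow hq _) (memLp_integrable_rpow hq _)]
  refine integral_mono_ae ((memLp_integrable_rpow hq _).add (memLp_integrable_rpow hq _))
    (memLp_integrable_rpow hq _) ?_
  filter_upwards [Lp.coeFn_sub b a, (Lp.coeFn_nonneg a).mpr ha, (Lp.coeFn_le a b).mpr hab]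
    with ω h2 h3 h4
  have h3 : 0 ≤ a ω := h3
  rw [h2, Pi.sub_apply, abs_of_nonneg (sub_nonneg.mpr h4), abs_of_nonneg h3,
    abs_of_nonneg (h3.trans h4)]
  have := Real.add_rpow_le_rpow_add (sub_nonneg.mpr h4) h3 h1
  rwa [sub_add_cancel] at this

lemma kb [Fact (1 ≤ q)] (hq : q ≠ ∞) (A : Set (Lp ℝ q μ)) (hne : A.Nonempty)
    (h0 : ∀ a ∈ A, 0 ≤ a) (hdir : ∀ a ∈ A, ∀ b ∈ A, ∃ c ∈ A, a ≤ c ∧ b ≤ c) {K : ℝ}
    (hK : ∀ a ∈ A, ‖a‖ ≤ K) : ∃ h : Lp ℝ q μ, ‖h‖ ≤ K ∧ ∀ a ∈ A, a ≤ h := by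
  have hq0 := lp_toReal_pos hq
  set b := q.toReal with hb
  set s := sSup (norm '' A) with hs
  have hbdd : BddAbove (norm '' A) := ⟨K, by rintro _ ⟨a, ha, rfl⟩; exact hK a ha⟩
  have hle : ∀ a ∈ A, ‖a‖ ≤ s := fun a ha => le_csSup hbdd ⟨a, ha, rfl⟩
  have hs0 : 0 ≤ s := by
    obtain ⟨a, ha⟩ := hne
    exact (norm_nonneg a).trans (hle a ha)
  have hex : ∀ n : ℕ, ∃ a ∈ A, s - 1 / ((n : ℝ) + 1) < ‖a‖ := by
    intro n
    have h1 : s - 1 / ((n : ℝ) + 1) < sSup (norm '' A) := by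
      have : (0 : ℝ) < 1 / ((n : ℝ) + 1) := by positivity
      rw [← hs]; linarith
    obtain ⟨_, ⟨a, ha, rfl⟩, h2⟩ := exists_lt_of_lt_csSup (hne.image _) h1
    exact ⟨a, ha, h2⟩
  choose a haA han using hex
  choose! c hcA hc1 hc2 using hdir
  let h : ℕ → Lp ℝ q μ := fun n => Nat.rec (a 0) (fun n x => c x (a (n + 1))) n
  have hsucc : ∀ n, h (n + 1) = c (h n) (a (n + 1)) := fun n => rfl
  have hmem : ∀ n, h n ∈ A := by
    intro n
    induction n with
    | zero => exact haA 0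
    | succ n ih => rw [hsucc]; exact hcA _ ih _ (haA _)
  have hmono : Monotone h := monotone_nat_of_le_succ fun n => by
    rw [hsucc]; exact hc1 _ (hmem n) _ (haA _)
  have hlow : ∀ n : ℕ, s - 1 / ((n : ℝ) + 1) ≤ ‖h n‖ := by
    intro n
    refine (han n).le.trans (norm_mono' (h0 _ (haA n)) ?_)
    cases n with
    | zero => exact le_rfl
    | succ n => rw [hsucc]; exact hc2 _ (hmem n) _ (haA _)
  have htend : Tendsto (fun n => ‖h n‖) atTop (𝓝 s) := by
    refine tendsto_of_tendsto_of_tendsto_of_le_of_le (g := fun n : ℕ => s - 1 / ((n : ℝ) + 1))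
      (h := fun _ => s) ?_ tendsto_const_nhds hlow (fun n => hle _ (hmem n))
    have := (tendsto_const_nhds (x := s)).sub (tendsto_one_div_add_atTop_nhds_zero_nat (𝕜 := ℝ))
    simpa using this
  set β : ℕ → ℝ := fun n => (s ^ b - ‖h n‖ ^ b) ^ (1 / b) with hβ
  have hβ0 : Tendsto β atTop (𝓝 0) := by
    have h1 : Tendsto (fun n => s ^ b - ‖h n‖ ^ b) atTop (𝓝 (s ^ b - s ^ b)) :=
      tendsto_const_nhds.sub (htend.rpow_const (Or.inr hq0.le))
    rw [sub_self] at h1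
    have h2 := h1.rpow_const (p := 1 / b) (Or.inr (by positivity))
    rwa [Real.zero_rpow (by positivity)] at h2
  have hdist : ∀ n, ∀ x ∈ A, h n ≤ x → ‖x - h n‖ ≤ β n := by
    intro n x hx hnx
    have h1 := superadd hq (h0 _ (hmem n)) hnx
    have h2 : ‖x‖ ^ b ≤ s ^ b := Real.rpow_le_rpow (norm_nonneg _) (hle x hx) hq0.le
    have h3 : ‖x - h n‖ ^ b ≤ s ^ b - ‖h n‖ ^ b := by linarith
    calc ‖x - h n‖ = (‖x - h n‖ ^ b) ^ (1 / b) := by
          rw [← Real.rpow_mul (norm_nonneg _), mul_one_div_cancel hq0.ne', Real.rpow_one]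
      _ ≤ β n := Real.rpow_le_rpow (Real.rpow_nonneg (norm_nonneg _) _) h3 (by positivity)
  have hcau : CauchySeq h := by
    refine cauchySeq_of_le_tendsto_0' β (fun n m hnm => ?_) hβ0
    rw [dist_comm, dist_eq_norm]
    exact hdist n _ (hmem m) (hmono hnm)
  obtain ⟨H, hH⟩ := cauchySeq_tendsto_of_complete hcau
  refine ⟨H, le_of_tendsto hH.norm (Eventually.of_forall fun n => hK _ (hmem n)), fun x hx => ?_⟩
  have h1 : Tendsto (fun n => c (h n) x) atTop (𝓝 H) := by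
    have h2 : Tendsto (fun n => c (h n) x - h n) atTop (𝓝 0) := by
      refine squeeze_zero_norm (fun n => ?_) hβ0
      exact hdist n _ (hcA _ (hmem n) _ hx) (hc1 _ (hmem n) _ hx)
    have h3 := h2.add hH
    simpa using h3
  exact ge_of_tendsto h1 (Eventually.of_forall fun n => hc2 _ (hmem n) _ hx)

lemma abs_sum_le' [Fact (1 ≤ q)] {ι : Type*} (s : Finset ι) (f : ι → Lp ℝ q μ) :
    |∑ k ∈ s, f k| ≤ ∑ k ∈ s, |f k| :=
  Finset.le_sum_of_subadditive _ abs_zero.le (fun x y => abs_add_le x y) s f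

lemma abs_smul' [Fact (1 ≤ q)] (c : ℝ) (x : Lp ℝ q μ) : |c • x| = |c| • |x| := by
  apply Lp.ext
  filter_upwards [Lp.coeFn_abs (c • x), Lp.coeFn_smul c x, Lp.coeFn_smul (|c|) (|x|),
    Lp.coeFn_abs x] with ω h1 h2 h3 h4
  rw [h1, h2, h3, Pi.smul_apply, Pi.smul_apply, h4, smul_eq_mul, smul_eq_mul, abs_mul]

lemma smul_le' [Fact (1 ≤ q)] {c : ℝ} (hc : c ≤ 1) {x : Lp ℝ q μ} (hx : 0 ≤ x) : c • x ≤ x := by
  rw [← Lp.coeFn_le]
  filter_upwards [Lp.coeFn_smul c x, (Lp.coeFn_nonneg x).mpr hx] with ω h1 h2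
  have h2 : 0 ≤ x ω := h2
  rw [h1, Pi.smul_apply, smul_eq_mul]
  nlinarith

variable [Fact (1 ≤ p)] [Fact (1 ≤ q)]

lemma abs_T_M_le {ι : Type*} [Fintype ι] [DecidableEq ι] (T : Lp ℝ p μ →L[ℝ] Lp ℝ q μ)
    (π : Ω → ι) (hπ : ∀ k, MeasurableSet (π ⁻¹' {k})) (g : Lp ℝ p μ) (θ : ι → ℝ) :
    |T (M π hπ g θ)| ≤ ∑ k, |θ k| • |T (M π hπ g (Pi.single k 1))| := by
  rw [M_eq_sum π hπ g θ, map_sum]
  refine (abs_sum_le' _ _).trans (le_of_eq ?_)
  refine Finset.sum_congr rfl fun k _ => ?_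
  rw [map_smul, abs_smul']

/-- if the finite partition sums are norm bounded then `T` is dominated on `[-g,g]` -/
lemma regular_bound (hq : q ≠ ∞) (T : Lp ℝ p μ →L[ℝ] Lp ℝ q μ) (g : Lp ℝ p μ) {K : ℝ}
    (hT : ∀ (ι : Type) [Fintype ι] [DecidableEq ι] (π : Ω → ι)
      (hπ : ∀ k, MeasurableSet (π ⁻¹' {k})), ‖∑ k, |T (M π hπ g (Pi.single k 1))|‖ ≤ K) :
    ∃ h : Lp ℝ q μ, ‖h‖ ≤ K ∧ ∀ f, -g ≤ f → f ≤ g → T f ≤ h ∧ -(T f) ≤ h := by
  let A : Set (Lp ℝ q μ) := {a | ∃ (ι : Type) (_ : Fintype ι) (_ : DecidableEq ι) (π : Ω → ι)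
    (hπ : ∀ k, MeasurableSet (π ⁻¹' {k})), a = ∑ k, |T (M π hπ g (Pi.single k 1))|}
  have hA0 : ∀ a ∈ A, 0 ≤ a := by
    rintro _ ⟨ι, _, _, π, hπ, rfl⟩
    exact Finset.sum_nonneg fun k _ => abs_nonneg _
  have hne : A.Nonempty := ⟨_, Unit, inferInstance, inferInstance, fun _ => (), by simp, rfl⟩
  have hdir : ∀ a ∈ A, ∀ b ∈ A, ∃ c ∈ A, a ≤ c ∧ b ≤ c := by
    rintro _ ⟨ι, _, _, π, hπ, rfl⟩ _ ⟨κ, _, _, π', hπ', rfl⟩
    let ρ : Ω → ι × κ := fun ω => (π ω, π' ω)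
    have hρ : ∀ k, MeasurableSet (ρ ⁻¹' {k}) := by
      rintro ⟨i, j⟩
      have : ρ ⁻¹' {(i, j)} = π ⁻¹' {i} ∩ π' ⁻¹' {j} := by
        ext ω; simp [ρ]
      rw [this]
      exact (hπ i).inter (hπ' j)
    refine ⟨_, ⟨ι × κ, inferInstance, inferInstance, ρ, hρ, rfl⟩, ?_, ?_⟩
    · have h1 : ∀ θ : ι → ℝ, M π hπ g θ = M ρ hρ g (fun k => θ k.1) := fun θ => rfl
      calc ∑ k, |T (M π hπ g (Pi.single k 1))|
          ≤ ∑ k, ∑ l : ι × κ, |(Pi.single k 1 : ι → ℝ) l.1| • |T (M ρ hρ g (Pi.single l 1))| := by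
            refine Finset.sum_le_sum fun k _ => ?_
            rw [h1]
            exact abs_T_M_le T ρ hρ g _
        _ = ∑ l : ι × κ, |T (M ρ hρ g (Pi.single l 1))| := by
            rw [Finset.sum_comm]
            refine Finset.sum_congr rfl fun l _ => ?_
            rw [← Finset.sum_smul, Finset.sum_eq_single l.1]
            · simp
            · intro k _ hk
              rw [Pi.single_eq_of_ne hk.symm, abs_zero]
            · simp
    · have h1 : ∀ θ : κ → ℝ, M π' hπ' g θ = M ρ hρ g (fun k => θ k.2) := fun θ => rfl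
      calc ∑ k, |T (M π' hπ' g (Pi.single k 1))|
          ≤ ∑ k, ∑ l : ι × κ, |(Pi.single k 1 : κ → ℝ) l.2| • |T (M ρ hρ g (Pi.single l 1))| := by
            refine Finset.sum_le_sum fun k _ => ?_
            rw [h1]
            exact abs_T_M_le T ρ hρ g _
        _ = ∑ l : ι × κ, |T (M ρ hρ g (Pi.single l 1))| := by
            rw [Finset.sum_comm]
            refine Finset.sum_congr rfl fun l _ => ?_
            rw [← Finset.sum_smul, Finset.sum_eq_single l.2]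
            · simp
            · intro k _ hk
              rw [Pi.single_eq_of_ne hk.symm, abs_zero]
            · simp
  obtain ⟨h, hhK, hh⟩ := kb hq A hne hA0 hdir (K := K) (by
    rintro _ ⟨ι, _, _, π, hπ, rfl⟩
    exact hT ι π hπ)
  have key : ∀ f, -g ≤ f → f ≤ g → T f ≤ h := by
    intro f hf1 hf2
    have happ : ∀ n : ℕ, ∃ f' : Lp ℝ p μ, ‖f' - f‖ ≤ (1 / ((n : ℝ) + 1)) * ‖g‖ ∧ T f' ≤ h := by
      intro n
      set m : ℤ := (n : ℤ) + 1 with hm
      have hm1 : (1 : ℝ) ≤ m := by rw [hm]; push_cast; linarith [(Nat.cast_nonneg n : (0 : ℝ) ≤ n)]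
      have hm0 : (0 : ℝ) < m := by linarith
      have hmm : -m ≤ m := by omega
      let π : Ω → Set.Icc (-m) m := fun ω => Set.projIcc (-m) m hmm ⌊(m : ℝ) * (f ω / g ω)⌋
      have hπ : ∀ k, MeasurableSet (π ⁻¹' {k}) := by
        intro k
        have hfl : Measurable fun ω => ⌊(m : ℝ) * (f ω / g ω)⌋ := by
          refine Measurable.floor ?_
          exact ((Lp.stronglyMeasurable f).measurable.div
            (Lp.stronglyMeasurable g).measurable).const_mul _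
        have : π ⁻¹' {k} = (fun ω => ⌊(m : ℝ) * (f ω / g ω)⌋) ⁻¹' (Set.projIcc (-m) m hmm ⁻¹' {k}) :=
          rfl
        rw [this]
        exact hfl (MeasurableSet.of_discrete)
      let θ : Set.Icc (-m) m → ℝ := fun k => ((k : ℤ) : ℝ) / m
      have hθ : ∀ k, |θ k| ≤ 1 := by
        intro k
        have h1 : (((-m : ℤ)) : ℝ) ≤ ((k : ℤ) : ℝ) := by exact_mod_cast k.2.1
        have h2 : ((k : ℤ) : ℝ) ≤ ((m : ℤ) : ℝ) := by exact_mod_cast k.2.2
        push_cast at h1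
        simp only [θ]
        rw [abs_div, abs_of_pos hm0, div_le_one hm0, abs_le]
        exact ⟨h1, h2⟩
      refine ⟨M π hπ g θ, ?_, ?_⟩
      · have hm' : (m : ℝ) = (n : ℝ) + 1 := by rw [hm]; push_cast; ring
        rw [← hm']
        refine Lp.norm_le_mul_norm_of_ae_le_mul ?_
        filter_upwards [M_coe π hπ g θ, Lp.coeFn_sub (M π hπ g θ) f, (Lp.coeFn_le f g).mpr hf2,
          (Lp.coeFn_le (-g) f).mpr hf1, Lp.coeFn_neg g] with ω h1 h2 h3 h4 h5
        rw [h2, Pi.sub_apply, h1, Real.norm_eq_abs, Real.norm_eq_abs]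
        rw [h5, Pi.neg_apply] at h4
        have hg0 : 0 ≤ g ω := by linarith
        rcases hg0.eq_or_lt with hg | hg
        · rw [← hg] at h3 h4 ⊢
          have : f ω = 0 := by linarith
          rw [this]; simp
        · have h6 : -1 ≤ f ω / g ω := by rw [le_div_iff₀ hg]; linarith
          have h7 : f ω / g ω ≤ 1 := by rw [div_le_one hg]; exact h3
          have h8 : ⌊(m : ℝ) * (f ω / g ω)⌋ ∈ Set.Icc (-m) m := by
            constructor
            · rw [Int.le_floor]; push_cast; nlinarith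
            · have : (⌊(m : ℝ) * (f ω / g ω)⌋ : ℝ) ≤ m := (Int.floor_le _).trans (by nlinarith)
              exact_mod_cast this
          have h9 : θ (π ω) = (⌊(m : ℝ) * (f ω / g ω)⌋ : ℝ) / m := by
            simp only [θ, π]
            rw [Set.projIcc_of_mem hmm h8]
          rw [h9]
          have h10 := Int.floor_le ((m : ℝ) * (f ω / g ω))
          have h11 := Int.lt_floor_add_one ((m : ℝ) * (f ω / g ω))
          set F : ℝ := (⌊(m : ℝ) * (f ω / g ω)⌋ : ℝ)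
          have h12 : F / m * g ω - f ω = (F - m * (f ω / g ω)) / m * g ω := by
            field_simp
          rw [h12, abs_mul, abs_div, abs_of_pos hm0]
          refine mul_le_mul_of_nonneg_right ?_ (abs_nonneg _)
          rw [div_le_div_iff_of_pos_right hm0, abs_le]
          constructor <;> linarith
      · refine (le_abs_self _).trans ((abs_T_M_le T π hπ g θ).trans ?_)
        refine le_trans ?_ (hh _ ⟨Set.Icc (-m) m, inferInstance, inferInstance, π, hπ, rfl⟩)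
        exact Finset.sum_le_sum fun k _ => smul_le' (hθ k) (abs_nonneg _)
    choose f' hf'1 hf'2 using happ
    have hlim : Tendsto f' atTop (𝓝 f) := by
      have h2 : Tendsto (fun n => f' n - f) atTop (𝓝 0) := by
        refine squeeze_zero_norm hf'1 ?_
        have := (tendsto_one_div_add_atTop_nhds_zero_nat (𝕜 := ℝ)).mul_const ‖g‖
        simpa using this
      have h3 := h2.add_const f
      simpa using h3
    exact le_of_tendsto ((T.continuous.tendsto f).comp hlim) (Eventually.of_forall hf'2)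
  refine ⟨h, hhK, fun f hf1 hf2 => ⟨key f hf1 hf2, ?_⟩⟩
  rw [← map_neg]
  exact key (-f) (neg_le_neg hf2) (neg_le.mp hf1)

end T5

end Pool.Agent.Helper630.Stable
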