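import Mathlib
import Pool.Agent.Helper630.Stable.T5

open MeasureTheory ENNReal Filter Topology

namespace Pool.Agent.Helper630.Stable

section T6

variable {Ω : Type*} [MeasurableSpace Ω] {μ : Measure Ω} {p q : ℝ≥0∞}

/-- subsystem -/
def Sys.comap {κ κ' : Type*} (S : Sys μ κ) (e : κ' → κ) (he : Function.Injective e) : Sys μ κ' where
  G k := S.G (e k)
  meas k := S.meas _
  disj k l h := S.disj _ _ (he.ne h)
  fin k := S.fin _
  pos k := S.pos _

lemma Sys.comap_φ {κ κ' : Type*} (S : Sys μ κ) (e : κ' → κ) (he : Function.Injective e) (k : κ') :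
    (S.comap e he).φ q k = S.φ q (e k) := rfl

variable [Fact (1 ≤ p)] [Fact (1 ≤ q)] [ENNReal.HolderConjugate p q]

lemma Sys.P_φ {κ : Type*} (S : Sys μ κ) (hpq : q.toReal.HolderConjugate p.toReal) (k : κ) :
    P (S.φ p k) (S.φ q k) = 1 := by
  have ha := S.pos k
  have hinv : 1 / p.toReal + 1 / q.toReal = 1 := by
    rw [one_div, one_div]; exact hpq.symm.inv_add_inv_eq_one
  have h1 : ∫ ω, (S.φ p k) ω * (S.φ q k) ω ∂μ =
      ∫ ω, (S.G k).indicator (fun _ => ((μ (S.G k)).toReal)⁻¹) ω ∂μ := by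
    refine integral_congr_ae ?_
    filter_upwards [S.φ_coe p k, S.φ_coe q k] with ω h2 h3
    rw [h2, h3]
    by_cases hω : ω ∈ S.G k
    · rw [Set.indicator_of_mem hω, Set.indicator_of_mem hω, Set.indicator_of_mem hω,
        ← Real.rpow_add ha]
      have : -(1 / p.toReal) + -(1 / q.toReal) = -1 := by linarith
      rw [this, Real.rpow_neg_one]
    · rw [Set.indicator_of_notMem hω, Set.indicator_of_notMem hω, Set.indicator_of_notMem hω,
        mul_zero]
  rw [P_apply, h1, integral_indicator (S.meas k), setIntegral_const, smul_eq_mul, Measure.real,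
    mul_inv_cancel₀ ha.ne']

lemma Sys.P_φ_ne {κ : Type*} (S : Sys μ κ) {k l : κ} (hkl : k ≠ l) :
    P (S.φ p k) (S.φ q l) = 0 := by
  rw [P_apply]
  have h1 : ∫ ω, (S.φ p k) ω * (S.φ q l) ω ∂μ = ∫ _, (0 : ℝ) ∂μ := by
    refine integral_congr_ae ?_
    filter_upwards [S.φ_coe p k, S.φ_coe q l] with ω h2 h3
    rw [h2, h3]
    by_cases hω : ω ∈ S.G k
    · have : ω ∉ S.G l := fun h => Set.disjoint_left.mp (S.disj k l hkl) hω h
      rw [Set.indicator_of_notMem this, mul_zero]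
    · rw [Set.indicator_of_notMem hω, zero_mul]
  rw [h1, integral_zero]

lemma U_norm_le (hpq : q.toReal.HolderConjugate p.toReal) (hp : p ≠ ∞) (hq : q ≠ ∞) {N : ℕ}
    (S : Sys μ (Fin N)) (u : Fin N → Fin N → ℝ) {C : ℝ} (hC : 0 ≤ C) (hu : Good p.toReal C u) :
    ‖(S.U u : Lp ℝ p μ →L[ℝ] Lp ℝ q μ)‖ ≤ C := by
  refine ContinuousLinearMap.opNorm_le_bound _ hC fun g => ?_
  have h1 := key_bound hpq hp hq S u hC hu (ContinuousLinearMap.id ℝ _)
    (ContinuousLinearMap.id ℝ _) (fun _ : Ω => ()) (by simp) g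
  have h2 : M (fun _ : Ω => ()) (by simp) g (Pi.single () 1) = g := by
    apply Lp.ext
    filter_upwards [M_coe (fun _ : Ω => ()) (by simp) g (Pi.single () 1)] with ω hω
    rw [hω, Pi.single_eq_same, one_mul]
  simp only [Finset.univ_unique, PUnit.default_eq_unit, Finset.sum_singleton,
    ContinuousLinearMap.id_apply, h2, norm_abs_eq_norm] at h1
  refine h1.trans ?_
  have h3 : ‖ContinuousLinearMap.id ℝ (Lp ℝ p μ)‖ ≤ 1 := ContinuousLinearMap.norm_id_le
  have h4 : ‖ContinuousLinearMap.id ℝ (Lp ℝ q μ)‖ ≤ 1 := ContinuousLinearMap.norm_id_le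
  calc C * (‖ContinuousLinearMap.id ℝ (Lp ℝ p μ)‖ * ‖g‖) * ‖ContinuousLinearMap.id ℝ (Lp ℝ q μ)‖
      ≤ C * (1 * ‖g‖) * 1 := by gcongr
    _ = C * ‖g‖ := by ring

lemma P_comm [ENNReal.HolderConjugate q p] (f : Lp ℝ p μ) (g : Lp ℝ q μ) : P f g = P g f := by
  rw [P_apply, P_apply]
  refine integral_congr_ae (Eventually.of_forall fun ω => mul_comm _ _)

theorem main_op (hpq : q.toReal.HolderConjugate p.toReal) (hp : p ≠ ∞) (hq : q ≠ ∞)
    (hp2 : 2 < p.toReal) (S : Sys μ ℕ) :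
    ∃ U : Lp ℝ p μ →L[ℝ] Lp ℝ q μ,
      (∀ (V : Lp ℝ p μ →L[ℝ] Lp ℝ p μ) (W : Lp ℝ q μ →L[ℝ] Lp ℝ q μ) (g : Lp ℝ p μ),
        ∃ h : Lp ℝ q μ, ∀ f, -g ≤ f → f ≤ g → W (U (V f)) ≤ h ∧ -(W (U (V f))) ≤ h) ∧
      ∀ K : ℝ, ∃ (N : ℕ) (x : Fin N → Lp ℝ p μ),
        (∀ f : Lp ℝ q μ, ∑ i, |∫ ω, x i ω * f ω ∂μ| ^ q.toReal ≤ ‖f‖ ^ q.toReal) ∧
        K ≤ ∑ i, ‖U (x i)‖ ^ q.toReal := by
  obtain ⟨C₀, hC₀, hgood⟩ := good_main p.toReal q.toReal hp2 hpq
  have hq0 : 0 < q.toReal := hpq.pos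
  have hp0 : 0 < p.toReal := hpq.symm.pos
  choose N u hR hu using fun t : ℕ => hgood ((2 : ℝ) ^ ((t : ℝ) * q.toReal) * t)
  let e : (t : ℕ) → Fin (N t) → ℕ := fun t i => Nat.pair t i
  have he : ∀ t, Function.Injective (e t) := by
    intro t i j hij
    have := (Nat.pair_eq_pair.mp hij).2
    exact Fin.ext this
  let B : ℕ → Lp ℝ p μ →L[ℝ] Lp ℝ q μ := fun t => (S.comap (e t) (he t)).U (u t)
  have hB : ∀ t, ‖B t‖ ≤ C₀ := fun t => U_norm_le hpq hp hq _ _ hC₀.le (hu t)
  have hgeo : Summable (fun t : ℕ => (1 / 2 : ℝ) ^ t * C₀) :=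
    (summable_geometric_of_lt_one (by norm_num) (by norm_num)).mul_right _
  have hsum : Summable (fun t : ℕ => (1 / 2 : ℝ) ^ t • B t) := by
    refine Summable.of_norm_bounded hgeo fun t => ?_
    rw [norm_smul, Real.norm_eq_abs, abs_of_pos (by positivity)]
    exact mul_le_mul_of_nonneg_left (hB t) (by positivity)
  refine ⟨∑' t, (1 / 2 : ℝ) ^ t • B t, ?_, ?_⟩
  · intro V W g
    have hreg : ∀ t, ∃ h : Lp ℝ q μ, ‖h‖ ≤ C₀ * (‖V‖ * ‖g‖) * ‖W‖ ∧
        ∀ f, -g ≤ f → f ≤ g → (W.comp ((B t).comp V)) f ≤ h ∧ -((W.comp ((B t).comp V)) f) ≤ h := by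
      intro t
      exact regular_bound hq (W.comp ((B t).comp V)) g fun ι _ _ π hπ =>
        key_bound hpq hp hq _ (u t) hC₀.le (hu t) V W π hπ g
    choose h hh1 hh2 using hreg
    have hsh : Summable (fun t : ℕ => (1 / 2 : ℝ) ^ t • h t) := by
      refine Summable.of_norm_bounded (g := fun t : ℕ => (1 / 2 : ℝ) ^ t * (C₀ * (‖V‖ * ‖g‖) * ‖W‖))
        ((summable_geometric_of_lt_one (by norm_num) (by norm_num)).mul_right _) fun t => ?_
      rw [norm_smul, Real.norm_eq_abs, abs_of_pos (by positivity)]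
      exact mul_le_mul_of_nonneg_left (hh1 t) (by positivity)
    refine ⟨∑' t, (1 / 2 : ℝ) ^ t • h t, fun f hf1 hf2 => ?_⟩
    have h1 : HasSum (fun t : ℕ => (1 / 2 : ℝ) ^ t • (W (B t (V f))))
        (W ((∑' t, (1 / 2 : ℝ) ^ t • B t) (V f))) := by
      have h2 := (ContinuousLinearMap.apply ℝ (Lp ℝ q μ) (V f)).hasSum hsum.hasSum
      have h3 := W.hasSum h2
      simpa using h3
    have hsmul : ∀ (t : ℕ) (a b : Lp ℝ q μ), a ≤ b → (1 / 2 : ℝ) ^ t • a ≤ (1 / 2 : ℝ) ^ t • b := by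
      intro t a b hab
      rw [← Lp.coeFn_le] at hab ⊢
      filter_upwards [hab, Lp.coeFn_smul ((1 / 2 : ℝ) ^ t) a, Lp.coeFn_smul ((1 / 2 : ℝ) ^ t) b]
        with ω h3 h4 h5
      rw [h4, h5, Pi.smul_apply, Pi.smul_apply, smul_eq_mul, smul_eq_mul]
      exact mul_le_mul_of_nonneg_left h3 (by positivity)
    constructor
    · refine hasSum_le (fun t => ?_) h1 hsh.hasSum
      exact hsmul t _ _ (hh2 t f hf1 hf2).1
    · refine hasSum_le (fun t => ?_) h1.neg hsh.hasSum
      rw [← smul_neg]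
      exact hsmul t _ _ (hh2 t f hf1 hf2).2
  · intro K
    obtain ⟨t, ht⟩ := exists_nat_ge K
    refine ⟨N t, fun i => S.φ p (e t i), ?_, ?_⟩
    · intro f
      haveI : ENNReal.HolderConjugate q p := ENNReal.HolderConjugate.symm
      have h1 := dual_cls (p := q) (q := p) (μ := μ) hpq.symm
        (fun i : Fin (N t) => S.φ p (e t i)) 1 zero_le_one (fun x => by
          rw [Real.one_rpow, one_mul]
          exact ((S.comap (e t) (he t)).norm_sum_φ hp x).le) f
      rw [one_mul] at h1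
      refine le_trans (le_of_eq ?_) h1
      refine Finset.sum_congr rfl fun i _ => ?_
      rw [P_apply]
      congr 2
      exact integral_congr_ae (Eventually.of_forall fun ω => mul_comm _ _)
    · have hval : ∀ i : Fin (N t), (∑' t, (1 / 2 : ℝ) ^ t • B t) (S.φ p (e t i)) =
          (1 / 2 : ℝ) ^ t • ∑ l, u t i l • S.φ q (e t l) := by
        intro i
        have h2 := (ContinuousLinearMap.apply ℝ (Lp ℝ q μ) (S.φ p (e t i))).hasSum hsum.hasSum
        have h3 : HasSum (fun s : ℕ => (1 / 2 : ℝ) ^ s • B s (S.φ p (e t i)))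
            ((∑' t, (1 / 2 : ℝ) ^ t • B t) (S.φ p (e t i))) := by simpa using h2
        have h4 : HasSum (fun s : ℕ => (1 / 2 : ℝ) ^ s • B s (S.φ p (e t i)))
            ((1 / 2 : ℝ) ^ t • B t (S.φ p (e t i))) := by
          refine hasSum_single t fun s hs => ?_
          have : B s (S.φ p (e t i)) = 0 := by
            simp only [B]
            rw [Sys.U_apply]
            refine Finset.sum_eq_zero fun j _ => Finset.sum_eq_zero fun l _ => ?_
            rw [Sys.comap_φ, Sys.P_φ_ne S (k := e t i) (l := e s j) ?_, mul_zero, zero_smul]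
            intro h
            exact hs (Nat.pair_eq_pair.mp h).1.symm
          rw [this, smul_zero]
        rw [h3.unique h4]
        congr 1
        simp only [B]
        rw [Sys.U_apply, Finset.sum_eq_single i]
        · refine Finset.sum_congr rfl fun l _ => ?_
          rw [Sys.comap_φ, Sys.P_φ S hpq, mul_one, Sys.comap_φ]
        · intro j _ hj
          refine Finset.sum_eq_zero fun l _ => ?_
          rw [Sys.comap_φ, Sys.P_φ_ne S (k := e t i) (l := e t j) ?_, mul_zero, zero_smul]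
          intro h
          exact hj (he t h).symm
        · simp
      have hnorm : ∀ i : Fin (N t), ‖(∑' t, (1 / 2 : ℝ) ^ t • B t) (S.φ p (e t i))‖ ^ q.toReal =
          ((2 : ℝ) ^ ((t : ℝ) * q.toReal))⁻¹ * ∑ l, |u t i l| ^ q.toReal := by
        intro i
        rw [hval, norm_smul, Real.mul_rpow (norm_nonneg _) (norm_nonneg _)]
        congr 1
        · rw [Real.norm_eq_abs, abs_of_pos (by positivity), Real.rpow_mul (by norm_num),
            Real.rpow_natCast, ← Real.inv_rpow (by positivity), one_div, inv_pow]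
        · exact (S.comap (e t) (he t)).norm_sum_φ hq (u t i)
      simp only [hnorm, ← Finset.mul_sum]
      refine ht.trans ?_
      rw [le_inv_mul_iff₀ (by positivity)]
      exact hR t

end T6

end Pool.Agent.Helper630.Stable
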